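import Pool.Agent.Q131.LineMatroid

/-!
# The affine plane without its origin, with the lines through the origin broken up
-/

namespace Pool.Agent.Q131.AffineLines

open Set Pool.Agent.Q131.LineMatroid

set_option linter.unusedSectionVars false
set_option linter.unusedVariables false

variable (F : Type) [Field F] [Fintype F] [DecidableEq F]

/-- The nonzero vectors. -/
abbrev Pt := {v : F × F // v ≠ 0}

/-- The affine line `a · v = 1`. -/
def Ln (a : F × F) : Set (Pt F) := {v | a.1 * v.1.1 + a.2 * v.1.2 = 1}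

variable {F}

theorem mem_Ln {a : F × F} {v : Pt F} : v ∈ Ln F a ↔ a.1 * v.1.1 + a.2 * v.1.2 = 1 := Iff.rfl

theorem det_ne {a : F × F} {x y : Pt F} (hxy : x ≠ y) (hx : x ∈ Ln F a) (hy : y ∈ Ln F a) :
    x.1.1 * y.1.2 - x.1.2 * y.1.1 ≠ 0 := by
  intro h
  rw [mem_Ln] at hx hy
  apply hxy
  apply Subtype.ext
  apply Prod.ext
  · have : x.1.1 = y.1.1 := by
      linear_combination (- x.1.1) * hy + y.1.1 * hx + a.2 * h
    exact this
  · have : x.1.2 = y.1.2 := by
      linear_combination (- x.1.2) * hy + y.1.2 * hx - a.1 * h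
    exact this

theorem linear : Linear (Ln F) := by
  intro a b x y hxy hxa hya hxb hyb
  have hd := det_ne hxy hxa hya
  rw [mem_Ln] at *
  apply Prod.ext
  · have : (a.1 - b.1) * (x.1.1 * y.1.2 - x.1.2 * y.1.1) = 0 := by
      linear_combination y.1.2 * hxa - y.1.2 * hxb - x.1.2 * hya + x.1.2 * hyb
    rcases mul_eq_zero.mp this with h | h
    · exact sub_eq_zero.mp h
    · exact absurd h hd
  · have : (a.2 - b.2) * (x.1.1 * y.1.2 - x.1.2 * y.1.1) = 0 := by
      linear_combination (-y.1.1) * hxa + y.1.1 * hxb + x.1.1 * hya - x.1.1 * hyb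
    rcases mul_eq_zero.mp this with h | h
    · exact sub_eq_zero.mp h
    · exact absurd h hd

theorem exists_line {x y : Pt F} (hd : x.1.1 * y.1.2 - x.1.2 * y.1.1 ≠ 0) :
    ∃ a, x ∈ Ln F a ∧ y ∈ Ln F a := by
  refine ⟨((y.1.2 - x.1.2) / (x.1.1 * y.1.2 - x.1.2 * y.1.1),
    (x.1.1 - y.1.1) / (x.1.1 * y.1.2 - x.1.2 * y.1.1)), ?_, ?_⟩
  · rw [mem_Ln]
    simp only
    rw [div_mul_eq_mul_div, div_mul_eq_mul_div, ← add_div, div_eq_one_iff_eq hd]
    ring
  · rw [mem_Ln]
    simp only
    rw [div_mul_eq_mul_div, div_mul_eq_mul_div, ← add_div, div_eq_one_iff_eq hd]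
    ring

/-- Solutions `z` of a nontrivial linear equation. -/
theorem card_sol (u : F × F) (hu : u ≠ 0) (S : Set (F × F))
    (hS : ∀ z ∈ S, z.1 * u.1 + z.2 * u.2 = 1) : S.encard ≤ Fintype.card F := by
  have hF : (Set.univ : Set F).encard = Fintype.card F := by simp
  rw [← hF]
  by_cases h1 : u.1 = 0
  · have h2 : u.2 ≠ 0 := fun h => hu (Prod.ext h1 h)
    refine encard_le_encard_of_injOn (f := fun z => z.1) (fun z _ => mem_univ _) ?_
    intro z hz w hw hzw
    have e1 := hS z hz
    have e2 := hS w hw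
    have hzw' : z.1 = w.1 := hzw
    apply Prod.ext hzw'
    have : (z.2 - w.2) * u.2 = 0 := by
      linear_combination e1 - e2 - u.1 * hzw'
    rcases mul_eq_zero.mp this with h | h
    · exact sub_eq_zero.mp h
    · exact absurd h h2
  · refine encard_le_encard_of_injOn (f := fun z => z.2) (fun z _ => mem_univ _) ?_
    intro z hz w hw hzw
    have e1 := hS z hz
    have e2 := hS w hw
    have hzw' : z.2 = w.2 := hzw
    refine Prod.ext ?_ hzw'
    have : (z.1 - w.1) * u.1 = 0 := by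
      linear_combination e1 - e2 - u.2 * hzw'
    rcases mul_eq_zero.mp this with h | h
    · exact sub_eq_zero.mp h
    · exact absurd h h1

theorem len_le (a : F × F) : (Ln F a).encard ≤ Fintype.card F := by
  by_cases ha : a = 0
  · have : Ln F a = ∅ := by
      ext v
      rw [mem_Ln, ha]
      simp
    rw [this]; simp
  · have h1 : ((fun v : Pt F => v.1) '' Ln F a).encard = (Ln F a).encard :=
      Subtype.val_injective.encard_image _
    rw [← h1]
    apply card_sol a ha
    rintro z ⟨v, hv, rfl⟩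
    rw [mem_Ln] at hv
    linear_combination hv

theorem deg_le (p : Pt F) : {a | p ∈ Ln F a}.encard ≤ Fintype.card F := by
  apply card_sol p.1 p.2
  intro z hz
  exact hz

theorem prop_le (p : Pt F) :
    {x | x ≠ p ∧ ∀ a, p ∈ Ln F a → x ∉ Ln F a}.encard ≤ (Fintype.card F - 2 : ℕ) := by
  classical
  have hcard : ({0, 1}ᶜ : Set F).encard = (Fintype.card F - 2 : ℕ) := by
    have h1 : ({0, 1}ᶜ : Set F) = ((Finset.univ \ {0, 1} : Finset F) : Set F) := by
      ext z; simp
    rw [h1, encard_coe_eq_coe_finsetCard, Finset.card_sdiff_of_subset (Finset.subset_univ _)]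
    simp
  rw [← hcard]
  have hex : ∀ x : Pt F, x ∈ {x | x ≠ p ∧ ∀ a, p ∈ Ln F a → x ∉ Ln F a} →
      ∃ c : F, x.1.1 = c * p.1.1 ∧ x.1.2 = c * p.1.2 := by
    intro x hx
    have hd : p.1.1 * x.1.2 - p.1.2 * x.1.1 = 0 := by
      by_contra hd
      obtain ⟨a, hpa, hxa⟩ := exists_line hd
      exact hx.2 a hpa hxa
    by_cases h1 : p.1.1 = 0
    · have h2 : p.1.2 ≠ 0 := fun h => p.2 (Prod.ext h1 h)
      refine ⟨x.1.2 / p.1.2, ?_, ?_⟩
      · have : p.1.2 * x.1.1 = 0 := by linear_combination x.1.2 * h1 - hd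
        rcases mul_eq_zero.mp this with h | h
        · exact absurd h h2
        · rw [h, h1]; ring
      · field_simp
    · refine ⟨x.1.1 / p.1.1, ?_, ?_⟩
      · field_simp
      · field_simp
        linear_combination hd
  choose! f hf using hex
  refine encard_le_encard_of_injOn (f := f) ?_ ?_
  · intro x hx
    obtain ⟨h1, h2⟩ := hf x hx
    rw [mem_compl_iff]
    rintro (h | h)
    · apply x.2
      rw [h] at h1 h2
      exact Prod.ext (by simpa using h1) (by simpa using h2)
    · apply hx.1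
      have h' : f x = 1 := h
      rw [h'] at h1 h2
      exact Subtype.ext (Prod.ext (by simpa using h1) (by simpa using h2))
  · intro x hx y hy hxy
    obtain ⟨h1, h2⟩ := hf x hx
    obtain ⟨h3, h4⟩ := hf y hy
    exact Subtype.ext (Prod.ext (by rw [h1, h3, hxy]) (by rw [h2, h4, hxy]))

variable (F) in
/-- The matroid. -/
def M : Matroid (Pt F) := mat (Ln F) linear

theorem rank : (M F).eRank = 3 := by
  apply rank_three
  have h0 : ((1 : F), (0 : F)) ≠ 0 := by simp
  have h1 : ((0 : F), (1 : F)) ≠ 0 := by simp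
  have h2 : ((1 : F), (1 : F)) ≠ 0 := by simp
  refine ⟨{⟨(1, 0), h0⟩, ⟨(0, 1), h1⟩, ⟨(1, 1), h2⟩}, ?_, ?_⟩
  · rw [encard_eq_three]
    refine ⟨_, _, _, ?_, ?_, ?_, rfl⟩ <;> simp
  · rintro ⟨a, ha⟩
    have e0 := ha (show (⟨(1, 0), h0⟩ : Pt F) ∈ _ by simp)
    have e1 := ha (show (⟨(0, 1), h1⟩ : Pt F) ∈ _ by simp)
    have e2 := ha (show (⟨(1, 1), h2⟩ : Pt F) ∈ _ by simp)
    rw [mem_Ln] at e0 e1 e2
    simp only [mul_one, mul_zero, add_zero, zero_add] at e0 e1 e2
    rw [e0, e1] at e2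
    have : (1 : F) = 0 := by linear_combination e2
    exact one_ne_zero this

theorem no_minor (q : ℕ) (hq : 2 * Fintype.card F ≤ q + 3) (hF : 3 ≤ Fintype.card F)
    (N : Matroid (Pt F)) (hN : N.IsMinor (M F)) : ¬ IsLine N (q + 2) := by
  refine no_line (q + 2) (by omega) ?_ ?_ N hN
  · intro a
    refine (len_le a).trans_lt ?_
    exact_mod_cast (by omega : Fintype.card F < q + 2)
  · intro p
    refine (add_le_add (deg_le p) (prop_le p)).trans_lt ?_
    exact_mod_cast (by omega : Fintype.card F + (Fintype.card F - 2) < q + 2)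

/-! ### Counting -/

variable (F) in
/-- Representatives of the directions. -/
def dir : Option F → F × F
  | none => (0, 1)
  | some m => (1, m)

theorem smul_dir_ne (s : Fˣ) (d : Option F) : ((s : F) * (dir F d).1, (s : F) * (dir F d).2) ≠ 0 := by
  rcases d with _ | m
  · simp [dir]
  · simp [dir]

/-- The point `s • dir d`. -/
def pt (s : Fˣ) (d : Option F) : Pt F := ⟨_, smul_dir_ne s d⟩

theorem pt_inj {s t : Fˣ} {d e : Option F} (h : pt s d = pt t e) : s = t ∧ d = e := by
  have h1 := congrArg (fun v : Pt F => v.1.1) h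
  have h2 := congrArg (fun v : Pt F => v.1.2) h
  simp only [pt] at h1 h2
  rcases d with _ | m <;> rcases e with _ | n
  · simp only [dir, mul_one] at h2
    exact ⟨Units.ext h2, rfl⟩
  · simp [dir] at h1
    exact absurd h1.symm t.ne_zero
  · simp [dir] at h1
  · simp only [dir, mul_one] at h1 h2
    have hst : s = t := Units.ext h1
    subst hst
    exact ⟨rfl, by rw [mul_left_cancel₀ s.ne_zero h2]⟩

theorem pt_noline {s t : Fˣ} (hst : s ≠ t) (d : Option F) (a : F × F) (h : pt s d ∈ Ln F a) :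
    pt t d ∉ Ln F a := by
  intro h'
  have hne : pt s d ≠ pt t d := fun he => hst (pt_inj he).1
  apply det_ne hne h h'
  simp only [pt]
  ring

/-- Index set of the flats. -/
abbrev Idx (F : Type) [Field F] := {a : F × F // a ≠ 0} ⊕ (Option F × {S : Finset Fˣ // S.card = 2})

/-- The flats of rank two. -/
def flat : Idx F → Set (Pt F)
  | Sum.inl a => Ln F a.1
  | Sum.inr ⟨d, S⟩ => {v | ∃ s ∈ S.1, v = pt s d}

theorem exists_two (hF : 3 ≤ Fintype.card F) {a : F × F} (ha : a ≠ 0) :
    ∃ x ∈ Ln F a, ∃ y ∈ Ln F a, x ≠ y := by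
  by_cases h1 : a.1 = 0
  · have h2 : a.2 ≠ 0 := fun h => ha (Prod.ext h1 h)
    refine ⟨⟨(0, 1 / a.2), ?_⟩, ?_, ⟨(1, 1 / a.2), ?_⟩, ?_, ?_⟩
    · simp [h2]
    · rw [mem_Ln]; simp [h2]
    · simp
    · rw [mem_Ln]; simp [h1, h2]
    · simp
  · refine ⟨⟨(1 / a.1, 0), ?_⟩, ?_, ⟨((1 - a.2) / a.1, 1), ?_⟩, ?_, ?_⟩
    · simp [h1]
    · rw [mem_Ln]; simp [h1]
    · simp
    · rw [mem_Ln]; field_simp; ring
    · simp

theorem flat_isFlat (hF : 3 ≤ Fintype.card F) (i : Idx F) :
    (M F).IsFlat (flat i) ∧ (M F).eRk (flat i) = 2 := by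
  classical
  rcases i with a | ⟨d, S⟩
  · exact flat_line a.1 (exists_two hF a.2)
  · obtain ⟨s, t, hst, hS⟩ := Finset.card_eq_two.mp S.2
    have : flat (Sum.inr (d, S)) = {pt s d, pt t d} := by
      ext v
      simp only [flat, hS, mem_ofPred_eq, Finset.mem_insert, Finset.mem_singleton, mem_insert_iff,
        mem_singleton_iff]
      constructor
      · rintro ⟨u, rfl | rfl, rfl⟩
        · exact Or.inl rfl
        · exact Or.inr rfl
      · rintro (rfl | rfl)
        · exact ⟨s, Or.inl rfl, rfl⟩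
        · exact ⟨t, Or.inr rfl, rfl⟩
    rw [this]
    apply flat_pair
    · exact fun h => hst (pt_inj h).1
    · exact fun a => pt_noline hst d a

theorem flat_inj (hF : 3 ≤ Fintype.card F) : Function.Injective (flat (F := F)) := by
  classical
  have hmix : ∀ (a : {a : F × F // a ≠ 0}) (d : Option F) (S : {S : Finset Fˣ // S.card = 2}),
      flat (Sum.inl a) ≠ flat (Sum.inr (d, S)) := by
    intro a d S h
    obtain ⟨s, t, hst, hS⟩ := Finset.card_eq_two.mp S.2
    have h1 : pt s d ∈ flat (Sum.inr (d, S)) := ⟨s, by simp [hS], rfl⟩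
    have h2 : pt t d ∈ flat (Sum.inr (d, S)) := ⟨t, by simp [hS], rfl⟩
    rw [← h] at h1 h2
    exact pt_noline hst d a.1 h1 h2
  rintro (a | ⟨d, S⟩) (b | ⟨e, T⟩) h
  · obtain ⟨x, hx, y, hy, hxy⟩ := exists_two hF a.2
    have h' : Ln F a.1 = Ln F b.1 := h
    have := linear a.1 b.1 x y hxy hx hy (h' ▸ hx) (h' ▸ hy)
    rw [Subtype.ext this]
  · exact absurd h (hmix _ _ _)
  · exact absurd h.symm (hmix _ _ _)
  · have key : ∀ (d e : Option F) (S T : {S : Finset Fˣ // S.card = 2}),
        flat (Sum.inr (d, S)) = flat (Sum.inr (e, T)) → ∀ s ∈ S.1, s ∈ T.1 ∧ d = e := by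
      intro d e S T h s hs
      have h1 : pt s d ∈ flat (Sum.inr (d, S)) := ⟨s, hs, rfl⟩
      rw [h] at h1
      obtain ⟨t, ht, hst⟩ := h1
      obtain ⟨rfl, rfl⟩ := pt_inj hst
      exact ⟨ht, rfl⟩
    have hST : S = T := by
      apply Subtype.ext
      apply Finset.Subset.antisymm
      · exact fun s hs => (key d e S T h s hs).1
      · exact fun s hs => (key e d T S h.symm s hs).1
    obtain ⟨s, hs⟩ := Finset.card_pos.mp (by rw [S.2]; norm_num : 0 < S.1.card)
    have hde := (key d e S T h s hs).2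
    rw [hST, hde]

theorem card_idx : Nat.card (Idx F) =
    (Fintype.card F ^ 2 - 1) + (Fintype.card F + 1) * (Fintype.card F - 1).choose 2 := by
  classical
  rw [Nat.card_eq_fintype_card, Fintype.card_sum, Fintype.card_prod, Fintype.card_option]
  congr 1
  · rw [Fintype.card_subtype_compl, Fintype.card_prod, Fintype.card_subtype_eq, sq]
  · congr 1
    rw [Fintype.card_finset_len, Fintype.card_units]

theorem count (hF : 3 ≤ Fintype.card F) :
    (Fintype.card F ^ 2 - 1) + (Fintype.card F + 1) * (Fintype.card F - 1).choose 2 ≤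
      {X : Set (Pt F) | (M F).IsFlat X ∧ (M F).eRk X = 2}.ncard := by
  classical
  rw [← card_idx, ← Nat.card_range_of_injective (flat_inj hF), Nat.card_coe_set_eq]
  apply Set.ncard_le_ncard
  · rintro X ⟨i, rfl⟩
    exact flat_isFlat hF i
  · exact Set.toFinite _

end Pool.Agent.Q131.AffineLines
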