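import Mathlib

set_option autoImplicit false

/-! Short cycles of the `3x+1` map: a cycle with an element `≥ 3` has period at least `1539`. -/

namespace Pool.Agent.Q131.ChCyc

/-- The `3x+1` map. -/
def T (n : ℕ) : ℕ := if n % 2 = 0 then n / 2 else (3 * n + 1) / 2

/-- the trajectory drops below `m` -/
def desc : ℕ → ℕ → ℕ → Bool
  | 0, _, _ => false
  | (k+1), m, c => if c < m then true else desc k m (T c)

theorem desc_spec {k m c : ℕ} (h : desc k m c = true) : ∃ i, T^[i] c < m := by
  induction k generalizing c with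
  | zero => simp [desc] at h
  | succ k ih =>
    unfold desc at h
    split_ifs at h with hc
    · exact ⟨0, hc⟩
    · obtain ⟨i, hi⟩ := ih h
      exact ⟨i + 1, by rwa [Function.iterate_succ_apply]⟩

set_option maxRecDepth 100000 in
theorem desc_check : ∀ i ∈ List.range 160, ∀ j ∈ List.range 160,
    desc 300 (4 * (i * 160 + j) + 3) (T (4 * (i * 160 + j) + 3)) = true := by
  decide +kernel

theorem below {n : ℕ} (h1 : 2 ≤ n) (h2 : n < 102400) : ∃ i, T^[i] (T n) < n := by
  rcases Nat.mod_two_eq_zero_or_one n with he | ho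
  · refine ⟨0, ?_⟩
    simp only [Function.iterate_zero, id]
    unfold T; rw [if_pos he]; omega
  · by_cases h4 : n % 4 = 1
    · refine ⟨1, ?_⟩
      simp only [Function.iterate_one]
      have e1 : T n = (3 * n + 1) / 2 := by unfold T; rw [if_neg (by omega)]
      rw [e1]
      unfold T
      rw [if_pos (by omega)]
      omega
    · have hc := desc_check (n / 4 / 160) (List.mem_range.2 (by omega)) (n / 4 % 160)
        (List.mem_range.2 (by omega))
      have e : 4 * (n / 4 / 160 * 160 + n / 4 % 160) + 3 = n := by omega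
      rw [e] at hc
      exact desc_spec hc

theorem T_pos {n : ℕ} (h : 1 ≤ n) : 1 ≤ T n := by
  unfold T; split_ifs <;> omega

theorem iter_pos {n : ℕ} (h : 1 ≤ n) (k : ℕ) : 1 ≤ T^[k] n := by
  induction k with
  | zero => exact h
  | succ k ih => rw [Function.iterate_succ_apply']; exact T_pos ih

/-- every positive integer below `100000` reaches `1` -/
theorem reach {n : ℕ} (h1 : 1 ≤ n) (h2 : n < 102400) : ∃ k, T^[k] n = 1 := by
  induction n using Nat.strong_induction_on with
  | _ n ih =>
    rcases Nat.lt_or_ge n 2 with h | h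
    · exact ⟨0, by simp; omega⟩
    · obtain ⟨i, hi⟩ := below h h2
      have hpos : 1 ≤ T^[i] (T n) := iter_pos (T_pos h1) i
      obtain ⟨k, hk⟩ := ih _ hi hpos (by omega)
      exact ⟨k + (i + 1), by rw [Function.iterate_add_apply, Function.iterate_succ_apply, hk]⟩

theorem iter_one (j : ℕ) : T^[j] 1 = 1 ∨ T^[j] 1 = 2 := by
  induction j with
  | zero => left; rfl
  | succ j ih =>
    rw [Function.iterate_succ_apply']
    rcases ih with h | h <;> rw [h] <;> simp [T]

theorem mul_period {n p : ℕ} (h : T^[p] n = n) (i : ℕ) : T^[i * p] n = n := by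
  induction i with
  | zero => simp
  | succ i ih => rw [Nat.succ_mul, Function.iterate_add_apply, h, ih]

/-- all members of a cycle with an element `≥ 3` are at least `102400` -/
theorem large {n p : ℕ} (h3 : 3 ≤ n) (hp : 0 < p) (h : T^[p] n = n) (i : ℕ) :
    102400 ≤ T^[i] n := by
  by_contra hlt
  push Not at hlt
  obtain ⟨k, hk⟩ := reach (iter_pos (by omega) i) hlt
  rw [← Function.iterate_add_apply] at hk
  have h4 := mul_period h (k + i)
  have h5 : k + i ≤ (k + i) * p := Nat.le_mul_of_pos_right _ hp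
  have h6 : T^[(k + i) * p] n = T^[(k + i) * p - (k + i)] (T^[k + i] n) := by
    rw [← Function.iterate_add_apply]
    congr 1
    omega
  rw [h6, hk] at h4
  rcases iter_one ((k + i) * p - (k + i)) with h7 | h7 <;> omega

theorem chain {n : ℕ} (h : ∀ i, 100000 ≤ T^[i] n) (k : ℕ) :
    ∃ a, 3 ^ a * n ≤ 2 ^ k * T^[k] n ∧ 100000 ^ a * (2 ^ k * T^[k] n) ≤ 300001 ^ a * n := by
  induction k with
  | zero => exact ⟨0, by simp, by simp⟩
  | succ k ih =>
    obtain ⟨a, h1, h2⟩ := ih
    have hk := h k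
    set m := T^[k] n with hm
    rw [Function.iterate_succ_apply', ← hm]
    rcases Nat.mod_two_eq_zero_or_one m with he | ho
    · have e : 2 * T m = m := by unfold T; rw [if_pos he]; omega
      refine ⟨a, ?_, ?_⟩
      · calc 3 ^ a * n ≤ 2 ^ k * m := h1
          _ = 2 ^ (k + 1) * T m := by rw [pow_succ, mul_assoc, e]
      · calc 100000 ^ a * (2 ^ (k + 1) * T m) = 100000 ^ a * (2 ^ k * m) := by
              rw [pow_succ, mul_assoc (2 ^ k), e]
          _ ≤ _ := h2
    · have e : 2 * T m = 3 * m + 1 := by unfold T; rw [if_neg (by omega)]; omega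
      refine ⟨a + 1, ?_, ?_⟩
      · calc 3 ^ (a + 1) * n = 3 * (3 ^ a * n) := by ring
          _ ≤ 3 * (2 ^ k * m) := Nat.mul_le_mul_left _ h1
          _ = 2 ^ k * (3 * m) := by ring
          _ ≤ 2 ^ k * (3 * m + 1) := Nat.mul_le_mul_left _ (by omega)
          _ = 2 ^ (k + 1) * T m := by rw [pow_succ, mul_assoc, e]
      · have e2 : 100000 * (3 * m + 1) ≤ 300001 * m := by omega
        calc 100000 ^ (a + 1) * (2 ^ (k + 1) * T m) =
              100000 ^ a * 2 ^ k * (100000 * (2 * T m)) := by ring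
          _ = 100000 ^ a * 2 ^ k * (100000 * (3 * m + 1)) := by rw [e]
          _ ≤ 100000 ^ a * 2 ^ k * (300001 * m) := Nat.mul_le_mul_left _ e2
          _ = 300001 * (100000 ^ a * (2 ^ k * m)) := by ring
          _ ≤ 300001 * (300001 ^ a * n) := Nat.mul_le_mul_left _ h2
          _ = _ := by ring

set_option maxRecDepth 100000 in
theorem pow_check : ∀ i ∈ List.range 40, ∀ j ∈ List.range 40, i * 40 + j = 0 ∨ 1539 ≤ i * 40 + j ∨
    (2 ^ (i * 40 + j) < 3 ^ ((i * 40 + j) * 306 / 485 + 1) ∧
      300001 ^ ((i * 40 + j) * 306 / 485) <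
        2 ^ (i * 40 + j) * 100000 ^ ((i * 40 + j) * 306 / 485)) := by
  decide +kernel

/-- **Period of nontrivial cycles.** -/
theorem no_cycle {n p : ℕ} (h3 : 3 ≤ n) (hp : 0 < p) (hp2 : p < 1539) : T^[p] n ≠ n := by
  intro h
  obtain ⟨a, h1, h2⟩ := chain (fun i => le_trans (by norm_num) (large h3 hp h i)) p
  rw [h] at h1 h2
  have hn : 0 < n := by omega
  have h1' : 3 ^ a ≤ 2 ^ p := Nat.le_of_mul_le_mul_right h1 hn
  have h2' : 100000 ^ a * 2 ^ p ≤ 300001 ^ a := by
    rw [← mul_assoc] at h2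
    exact Nat.le_of_mul_le_mul_right h2 hn
  have hc := pow_check (p / 40) (List.mem_range.2 (by omega)) (p % 40) (List.mem_range.2 (by omega))
  have e : p / 40 * 40 + p % 40 = p := by omega
  rw [e] at hc
  rcases hc with hc | hc | ⟨c1, c2⟩
  · omega
  · omega
  · set b := p * 306 / 485 with hb
    have hab : a ≤ b := by
      have : 3 ^ a < 3 ^ (b + 1) := lt_of_le_of_lt h1' c1
      have := (Nat.pow_lt_pow_iff_right (by norm_num : 1 < 3)).1 this
      omega
    obtain ⟨c, hc⟩ := Nat.exists_eq_add_of_le hab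
    rw [hc] at c2
    have h4 : 100000 ^ (a + c) * 2 ^ p ≤ 300001 ^ (a + c) := by
      calc 100000 ^ (a + c) * 2 ^ p = 100000 ^ c * (100000 ^ a * 2 ^ p) := by rw [pow_add]; ring
        _ ≤ 300001 ^ c * 300001 ^ a := Nat.mul_le_mul (Nat.pow_le_pow_left (by norm_num) _) h2'
        _ = 300001 ^ (a + c) := by rw [pow_add]; ring
    rw [mul_comm] at h4
    rw [mul_comm] at h4
    exact absurd h4 (not_le.2 (by rwa [mul_comm] at c2))

end Pool.Agent.Q131.ChCyc
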