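import Mathlib

set_option autoImplicit false

/-! # Contraction distance versus identification distance to a minor-closed class -/

namespace Pool.Agent.Q131.EcId

/-- A class of graphs. -/
abbrev GraphClass := ∀ V : Type, SimpleGraph V → Prop

/-- The image of the graph `G` under a map of its vertices: two different vertices are adjacent if
they are the images of adjacent vertices. -/
def image {V W : Type} (G : SimpleGraph V) (f : V → W) : SimpleGraph W where
  Adj a b := a ≠ b ∧ ∃ x y, f x = a ∧ f y = b ∧ G.Adj x y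
  symm := ⟨fun _ _ h => ⟨h.1.symm, by
    obtain ⟨x, y, hx, hy, hxy⟩ := h.2
    exact ⟨y, x, hy, hx, hxy.symm⟩⟩⟩
  loopless := ⟨fun _ h => h.1 rfl⟩

open Classical in
/-- The map of the vertices when the edge `u v` is contracted: the vertex `v` disappears, the
vertex `u` stands for the new vertex. -/
noncomputable def cmap {V : Type} {G : SimpleGraph V} {u v : V} (h : G.Adj u v) (x : V) :
    {x : V // x ≠ v} :=
  if hx : x = v then ⟨u, h.ne⟩ else ⟨x, hx⟩

/-- The graph obtained by contracting the edge `u v`: the vertices `u`, `v` are replaced by one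
vertex (called `u`) adjacent to the other neighbours of `u` and of `v`. -/
noncomputable def contract {V : Type} (G : SimpleGraph V) {u v : V} (h : G.Adj u v) :
    SimpleGraph {x : V // x ≠ v} :=
  image G (cmap h)

/-- `k` successive edge contractions can turn `G` into a graph of the class `H`. -/
def ContractsIn (H : GraphClass) : ℕ → ∀ V : Type, SimpleGraph V → Prop
  | 0, V, G => H V G
  | k + 1, V, G => ∃ (u v : V) (h : G.Adj u v), ContractsIn H k {x : V // x ≠ v} (contract G h)

/-- `G` admits a `k`-identification to `H`: there are a set `X` of at most `k` vertices and a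
partition of `X` such that the identification of the vertices in every part gives a graph in `H`.
The partition is described by the equivalence relation `r` on the vertices; its classes are the
parts and the single vertices outside of `X`. -/
def IdentifiesIn (H : GraphClass) (k : ℕ) (V : Type) (G : SimpleGraph V) : Prop :=
  ∃ (X : Finset V) (r : Setoid V), X.card ≤ k ∧ (∀ x y, r x y → x ≠ y → x ∈ X ∧ y ∈ X) ∧
    H (Quotient r) (image G (Quotient.mk r))

/-- The contraction distance: the least number of contractions which turn `G` into a graph of the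
class `H`. -/
noncomputable def ec (H : GraphClass) (V : Type) (G : SimpleGraph V) : ℕ :=
  sInf {k | ContractsIn H k V G}

/-- The identification distance. -/
noncomputable def idn (H : GraphClass) (V : Type) (G : SimpleGraph V) : ℕ :=
  sInf {k | IdentifiesIn H k V G}

/-- A class of finite graphs is minor-closed: it is closed under isomorphism, deletion of a vertex,
deletion of an edge and contraction of an edge. -/
structure MinorClosed (H : GraphClass) : Prop where
  iso : ∀ (V W : Type) [Finite V] [Finite W] (G : SimpleGraph V) (G' : SimpleGraph W),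
    Nonempty (G ≃g G') → H V G → H W G'
  delVertex : ∀ (V : Type) [Finite V] (G : SimpleGraph V) (v : V), H V G →
    H {x : V // x ≠ v} (G.comap Subtype.val)
  delEdge : ∀ (V : Type) [Finite V] (G : SimpleGraph V) (e : Sym2 V), H V G →
    H V (G.deleteEdges {e})
  contr : ∀ (V : Type) [Finite V] (G : SimpleGraph V) (u v : V) (h : G.Adj u v), H V G →
    H {x : V // x ≠ v} (contract G h)

/-- The vertex `v` has at least three neighbours. -/
def HasThree {V : Type} (G : SimpleGraph V) (v : V) : Prop :=
  ∃ a b c, a ≠ b ∧ a ≠ c ∧ b ≠ c ∧ G.Adj v a ∧ G.Adj v b ∧ G.Adj v c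

/-- The class of the graphs with at most one vertex of degree at least three. -/
def H₁ : GraphClass := fun _ G => ∀ x y, HasThree G x → HasThree G y → x = y

section
variable {V : Type} {G : SimpleGraph V} {u v : V} (h : G.Adj u v)

theorem cmap_self : cmap h v = ⟨u, h.ne⟩ := by
  unfold cmap
  rw [dif_pos rfl]

theorem cmap_of_ne {x : V} (hx : x ≠ v) : cmap h x = ⟨x, hx⟩ := by
  unfold cmap
  rw [dif_neg hx]

theorem cmap_eq {x : V} {a : {x : V // x ≠ v}} (hx : cmap h x = a) :
    x = a.1 ∨ (x = v ∧ a.1 = u) := by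
  by_cases hxv : x = v
  · right
    subst hxv
    rw [cmap_self] at hx
    exact ⟨rfl, by rw [← hx]⟩
  · left
    rw [cmap_of_ne h hxv] at hx
    rw [← hx]

/-- A neighbour in the contraction of a vertex different from the new one. -/
theorem adj_of_ne {a b : {x : V // x ≠ v}} (hab : (contract G h).Adj a b) (ha : a.1 ≠ u) :
    ∃ y, cmap h y = b ∧ G.Adj a.1 y := by
  obtain ⟨_, x, y, hx, hy, hxy⟩ := hab
  rcases cmap_eq h hx with h1 | h1
  · exact ⟨y, hy, h1 ▸ hxy⟩
  · exact absurd h1.2 ha

theorem adj_new {b : {x : V // x ≠ v}} (hab : (contract G h).Adj ⟨u, h.ne⟩ b) :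
    G.Adj u b.1 ∨ G.Adj v b.1 := by
  obtain ⟨hne, x, y, hx, hy, hxy⟩ := hab
  rcases cmap_eq h hy with h1 | h1
  · rcases cmap_eq h hx with h2 | h2
    · left
      rw [h1, h2] at hxy
      exact hxy
    · right
      rw [h1, h2.1] at hxy
      exact hxy
  · exfalso
    apply hne
    exact Subtype.ext h1.2.symm

theorem hasThree_of_ne {a : {x : V // x ≠ v}} (ha : HasThree (contract G h) a) (hau : a.1 ≠ u) :
    HasThree G a.1 := by
  obtain ⟨b, c, d, hbc, hbd, hcd, hb, hc, hd⟩ := ha
  obtain ⟨b', hb1, hb2⟩ := adj_of_ne h hb hau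
  obtain ⟨c', hc1, hc2⟩ := adj_of_ne h hc hau
  obtain ⟨d', hd1, hd2⟩ := adj_of_ne h hd hau
  refine ⟨b', c', d', ?_, ?_, ?_, hb2, hc2, hd2⟩
  · rintro rfl
    exact hbc (hb1.symm.trans hc1)
  · rintro rfl
    exact hbd (hb1.symm.trans hd1)
  · rintro rfl
    exact hcd (hc1.symm.trans hd1)

theorem hasThree_new (ha : HasThree (contract G h) ⟨u, h.ne⟩) : HasThree G u ∨ HasThree G v := by
  obtain ⟨b, c, d, hbc, hbd, hcd, hb, hc, hd⟩ := ha
  have hbu : b.1 ≠ u := fun e => hb.ne (Subtype.ext e.symm)
  have hcu : c.1 ≠ u := fun e => hc.ne (Subtype.ext e.symm)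
  have hdu : d.1 ≠ u := fun e => hd.ne (Subtype.ext e.symm)
  have hbc' : b.1 ≠ c.1 := fun e => hbc (Subtype.ext e)
  have hbd' : b.1 ≠ d.1 := fun e => hbd (Subtype.ext e)
  have hcd' : c.1 ≠ d.1 := fun e => hcd (Subtype.ext e)
  rcases adj_new h hb with h1 | h1 <;> rcases adj_new h hc with h2 | h2 <;>
    rcases adj_new h hd with h3 | h3
  · exact Or.inl ⟨b, c, v, hbc', b.2, c.2, h1, h2, h⟩
  · exact Or.inl ⟨b, c, v, hbc', b.2, c.2, h1, h2, h⟩
  · exact Or.inl ⟨b, d, v, hbd', b.2, d.2, h1, h3, h⟩
  · exact Or.inr ⟨c, d, u, hcd', hcu, hdu, h2, h3, h.symm⟩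
  · exact Or.inl ⟨c, d, v, hcd', c.2, d.2, h2, h3, h⟩
  · exact Or.inr ⟨b, d, u, hbd', hbu, hdu, h1, h3, h.symm⟩
  · exact Or.inr ⟨b, c, u, hbc', hbu, hcu, h1, h2, h.symm⟩
  · exact Or.inr ⟨b, c, u, hbc', hbu, hcu, h1, h2, h.symm⟩

end

theorem hasThree_mono {V W : Type} {G : SimpleGraph V} {G' : SimpleGraph W} (f : V → W)
    (hf : Function.Injective f) (hadj : ∀ a b, G.Adj a b → G'.Adj (f a) (f b)) {x : V}
    (hx : HasThree G x) : HasThree G' (f x) := by
  obtain ⟨a, b, c, hab, hac, hbc, h1, h2, h3⟩ := hx
  exact ⟨f a, f b, f c, hf.ne hab, hf.ne hac, hf.ne hbc, hadj _ _ h1, hadj _ _ h2, hadj _ _ h3⟩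

theorem H₁_mono {V W : Type} {G : SimpleGraph V} {G' : SimpleGraph W} (f : V → W)
    (hf : Function.Injective f) (hadj : ∀ a b, G.Adj a b → G'.Adj (f a) (f b))
    (hG : H₁ W G') : H₁ V G := by
  intro x y hx hy
  exact hf (hG _ _ (hasThree_mono f hf hadj hx) (hasThree_mono f hf hadj hy))

theorem minorClosed_H₁ : MinorClosed H₁ where
  iso := by
    rintro V W _ _ G G' ⟨e⟩ hG
    refine H₁_mono e.symm e.symm.injective (fun a b hab => ?_) hG
    exact (SimpleGraph.Iso.map_adj_iff e.symm).2 hab
  delVertex := by
    intro V _ G v hG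
    exact H₁_mono Subtype.val Subtype.val_injective (fun a b hab => hab) hG
  delEdge := by
    intro V _ G e hG
    refine H₁_mono id Function.injective_id (fun a b hab => ?_) hG
    exact (SimpleGraph.deleteEdges_le _) hab
  contr := by
    intro V _ G u v h hG x y hx hy
    have key : ∀ z : {x : V // x ≠ v}, HasThree (contract G h) z →
        ∃ z' : V, HasThree G z' ∧ cmap h z' = z := by
      intro z hz
      by_cases hzu : z.1 = u
      · have hz' : z = ⟨u, h.ne⟩ := Subtype.ext hzu
        rw [hz'] at hz
        rcases hasThree_new h hz with h1 | h1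
        · exact ⟨u, h1, by rw [cmap_of_ne h h.ne, hz']⟩
        · exact ⟨v, h1, by rw [cmap_self, hz']⟩
      · exact ⟨z.1, hasThree_of_ne h hz hzu, by rw [cmap_of_ne h z.2]⟩
    obtain ⟨x', hx1, hx2⟩ := key x hx
    obtain ⟨y', hy1, hy2⟩ := key y hy
    rw [← hx2, ← hy2, hG x' y' hx1 hy1]

/-! ## The lower bound -/

/-- The invariant: two vertices with many neighbours, at distance more than `k`. -/
def Far (k : ℕ) (V : Type) (G : SimpleGraph V) : Prop :=
  ∃ (x y : V) (f : V → ℤ) (A B : Finset V),
    (∀ a b, G.Adj a b → f a ≤ f b + 1) ∧ f x + k < f y ∧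
    (∀ a ∈ A, G.Adj x a) ∧ k + 3 ≤ A.card ∧ (∀ a ∈ B, G.Adj y a) ∧ k + 3 ≤ B.card

theorem far_mono {k l : ℕ} (hkl : k ≤ l) {V : Type} {G : SimpleGraph V} (h : Far l V G) :
    Far k V G := by
  obtain ⟨x, y, f, A, B, hf, hxy, hA, hA', hB, hB'⟩ := h
  exact ⟨x, y, f, A, B, hf, by omega, hA, by omega, hB, by omega⟩

theorem hasThree_of_card {V : Type} {G : SimpleGraph V} {x : V} (A : Finset V)
    (hA : ∀ a ∈ A, G.Adj x a) (hc : 3 ≤ A.card) : HasThree G x := by
  have h2 : 2 < A.card := hc
  rw [Finset.two_lt_card] at h2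
  obtain ⟨a, ha, b, hb, c, hc, hab, hac, hbc⟩ := h2
  exact ⟨a, b, c, hab, hac, hbc, hA a ha, hA b hb, hA c hc⟩

theorem not_H₁_of_far {V : Type} {G : SimpleGraph V} (h : Far 0 V G) : ¬ H₁ V G := by
  obtain ⟨x, y, f, A, B, hf, hxy, hA, hA', hB, hB'⟩ := h
  intro hH
  have := hH x y (hasThree_of_card A hA hA') (hasThree_of_card B hB hB')
  rw [this] at hxy
  simp at hxy

theorem exists_nbrs {V : Type} {G : SimpleGraph V} {u v : V} (h : G.Adj u v) (x : V)
    (A : Finset V) (hA : ∀ a ∈ A, G.Adj x a) :
    ∃ A' : Finset {z : V // z ≠ v}, A.card ≤ A'.card + 1 ∧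
      ∀ a ∈ A', (contract G h).Adj (cmap h x) a := by
  classical
  -- the element which is lost
  obtain ⟨w, hw⟩ : ∃ w, w = if x = v then u else v := ⟨_, rfl⟩
  have h1 : ∀ a ∈ A.erase w, a ≠ v ∧ cmap h x ≠ cmap h a := by
    intro a ha
    rw [Finset.mem_erase] at ha
    have hax := (hA a ha.2).ne
    by_cases hxv : x = v
    · rw [if_pos hxv] at hw
      have hav : a ≠ v := by
        rw [← hxv]
        exact hax.symm
      refine ⟨hav, ?_⟩
      rw [hxv, cmap_self, cmap_of_ne h hav]
      intro e
      exact ha.1 (hw ▸ (congrArg Subtype.val e).symm)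
    · rw [if_neg hxv] at hw
      have hav : a ≠ v := fun e => ha.1 (e.trans hw.symm)
      refine ⟨hav, ?_⟩
      rw [cmap_of_ne h hxv, cmap_of_ne h hav]
      intro e
      exact hax (congrArg Subtype.val e)
  refine ⟨(A.erase w).image (cmap h), ?_, ?_⟩
  · rw [Finset.card_image_of_injOn]
    · have := Finset.pred_card_le_card_erase (s := A) (a := w)
      omega
    · intro a ha b hb hab
      have ha' := (h1 a ha).1
      have hb' := (h1 b hb).1
      rw [cmap_of_ne h ha', cmap_of_ne h hb'] at hab
      exact congrArg Subtype.val hab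
  · intro a ha
    rw [Finset.mem_image] at ha
    obtain ⟨b, hb, rfl⟩ := ha
    exact ⟨(h1 b hb).2, x, b, rfl, rfl, hA b (Finset.mem_of_mem_erase hb)⟩

theorem far_contract {k : ℕ} {V : Type} {G : SimpleGraph V} {u v : V} (h : G.Adj u v)
    (hfar : Far (k + 1) V G) : Far k {x : V // x ≠ v} (contract G h) := by
  obtain ⟨x, y, f, A, B, hf, hxy, hA, hA', hB, hB'⟩ := hfar
  obtain ⟨A₁, hA₁, hA₂⟩ := exists_nbrs h x A hA
  obtain ⟨B₁, hB₁, hB₂⟩ := exists_nbrs h y B hB
  have huv := hf u v h
  have hvu := hf v u h.symm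
  -- the new potential
  obtain ⟨g, hg⟩ : ∃ g : ℤ → ℤ, g = fun t => if t ≤ min (f u) (f v) then t else
    t - (max (f u) (f v) - min (f u) (f v)) := ⟨_, rfl⟩
  have hguv : g (f u) = g (f v) := by
    rw [hg]
    simp only
    split_ifs <;> omega
  have hg1 : ∀ s t : ℤ, s ≤ t + 1 → t ≤ s + 1 → g s ≤ g t + 1 := by
    intro s t h1 h2
    rw [hg]
    simp only
    split_ifs <;> omega
  have hg2 : ∀ s t : ℤ, s < t → g t - g s ≥ t - s - 1 := by
    intro s t h1
    rw [hg]
    simp only
    split_ifs <;> omega
  have hgc : ∀ z : V, g (f (cmap h z).1) = g (f z) := by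
    intro z
    by_cases hz : z = v
    · rw [hz, cmap_self]
      exact hguv
    · rw [cmap_of_ne h hz]
  refine ⟨cmap h x, cmap h y, fun z => g (f z.1), A₁, B₁, ?_, ?_, hA₂, by omega, hB₂, by omega⟩
  · rintro a b ⟨_, p, q, rfl, rfl, hpq⟩
    simp only [hgc]
    exact hg1 _ _ (hf p q hpq) (hf q p hpq.symm)
  · simp only [hgc]
    have := hg2 (f x) (f y) (by push_cast at hxy; omega)
    push_cast at hxy
    omega

theorem not_contractsIn_of_far (k : ℕ) : ∀ (V : Type) (G : SimpleGraph V), Far k V G →
    ¬ ContractsIn H₁ k V G := by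
  induction k with
  | zero => exact fun V G h => not_H₁_of_far h
  | succ k ih =>
    rintro V G hfar ⟨u, v, h, hc⟩
    exact ih _ _ (far_contract h hfar) hc

/-- Every finite graph can be contracted to a graph without edges. -/
theorem exists_contractsIn (n : ℕ) : ∀ (V : Type) [Finite V] (G : SimpleGraph V),
    Nat.card V ≤ n → ∃ k, ContractsIn H₁ k V G := by
  induction n with
  | zero =>
    intro V _ G hV
    refine ⟨0, ?_⟩
    intro x
    have : IsEmpty V := by
      rcases isEmpty_or_nonempty V with h | h
      · exact h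
      · have := Nat.card_pos (α := V)
        omega
    exact this.elim x
  | succ n ih =>
    intro V _ G hV
    by_cases hE : ∃ u v, G.Adj u v
    · obtain ⟨u, v, h⟩ := hE
      have hcard : Nat.card {x : V // x ≠ v} ≤ n := by
        have : Nat.card {x : V // x ≠ v} < Nat.card V :=
          Finite.card_subtype_lt (x := v) (by simp)
        omega
      obtain ⟨k, hk⟩ := ih {x : V // x ≠ v} (contract G h) hcard
      exact ⟨k + 1, u, v, h, hk⟩
    · refine ⟨0, ?_⟩
      rintro x y ⟨a, b, c, _, _, _, h1, _⟩
      exact absurd ⟨x, a, h1⟩ hE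

/-! ## The graphs -/

/-- A path with `n + 2` vertices and `n + 3` further neighbours at each of its two ends. -/
abbrev Vx (n : ℕ) : Type := Fin (n + 2) ⊕ (Bool × Fin (n + 3))

/-- An end of the path. -/
def pend (n : ℕ) (b : Bool) : Fin (n + 2) := if b then Fin.last (n + 1) else 0

/-- The double broom. -/
def broom (n : ℕ) : SimpleGraph (Vx n) where
  Adj
    | .inl i, .inl j => i.1 + 1 = j.1 ∨ j.1 + 1 = i.1
    | .inl i, .inr p => i = pend n p.1
    | .inr p, .inl i => i = pend n p.1
    | .inr _, .inr _ => False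
  symm := ⟨by
    rintro (i | p) (j | q) h
    · exact h.symm
    · exact h
    · exact h
    · exact h⟩
  loopless := ⟨by
    rintro (i | p) h
    · rcases h with h | h <;> omega
    · exact h⟩

theorem broom_connected (n : ℕ) : (broom n).Connected := by
  have h1 : ∀ (k : ℕ) (hk : k < n + 2), (broom n).Reachable (.inl 0) (.inl ⟨k, hk⟩) := by
    intro k
    induction k with
    | zero => exact fun _ => SimpleGraph.Reachable.refl _
    | succ k ih =>
      intro hk
      refine (ih (by omega)).trans ?_
      exact SimpleGraph.Adj.reachable (Or.inl rfl)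
  have h2 : ∀ x : Vx n, (broom n).Reachable (.inl 0) x := by
    rintro (i | p)
    · exact h1 i.1 i.2
    · refine (h1 (pend n p.1).1 (pend n p.1).2).trans ?_
      exact SimpleGraph.Adj.reachable (show pend n p.1 = pend n p.1 from rfl)
  have : Nonempty (Vx n) := ⟨.inl 0⟩
  exact ⟨fun x y => (h2 x).symm.trans (h2 y)⟩

theorem far_broom (n : ℕ) : Far n (Vx n) (broom n) := by
  classical
  have hinj : ∀ b : Bool, Function.Injective
      (fun i : Fin (n + 3) => (Sum.inr (b, i) : Vx n)) := by
    intro b i j hij
    simpa using hij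
  refine ⟨.inl 0, .inl (Fin.last (n + 1)),
    fun x => match x with | .inl i => (i.1 : ℤ) | .inr p => ((pend n p.1).1 : ℤ),
    Finset.univ.image (fun i : Fin (n + 3) => (Sum.inr (false, i) : Vx n)),
    Finset.univ.image (fun i : Fin (n + 3) => (Sum.inr (true, i) : Vx n)), ?_, ?_, ?_, ?_, ?_, ?_⟩
  · rintro (i | p) (j | q) hij
    · rcases hij with h | h
      · simp only
        omega
      · simp only
        omega
    · have h : i = pend n q.1 := hij
      simp only [h]
      omega
    · have h : j = pend n p.1 := hij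
      simp only [h]
      omega
    · exact hij.elim
  · simp
  · intro a ha
    rw [Finset.mem_image] at ha
    obtain ⟨i, _, rfl⟩ := ha
    show (0 : Fin (n + 2)) = pend n false
    rfl
  · rw [Finset.card_image_of_injective _ (hinj false)]
    simp
  · intro a ha
    rw [Finset.mem_image] at ha
    obtain ⟨i, _, rfl⟩ := ha
    show Fin.last (n + 1) = pend n true
    rfl
  · rw [Finset.card_image_of_injective _ (hinj true)]
    simp

/-- The equivalence relation which identifies the two ends of the path. -/
def endSetoid (n : ℕ) : Setoid (Vx n) where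
  r x y := x = y ∨ ((∃ b, x = .inl (pend n b)) ∧ ∃ b, y = .inl (pend n b))
  iseqv :=
    { refl := fun _ => Or.inl rfl
      symm := by
        rintro x y (h | h)
        · exact Or.inl h.symm
        · exact Or.inr ⟨h.2, h.1⟩
      trans := by
        rintro x y z (h | h) (h' | h')
        · exact Or.inl (h.trans h')
        · exact Or.inr (h ▸ h')
        · exact Or.inr (h' ▸ h)
        · exact Or.inr ⟨h.1, h'.2⟩ }

theorem identifiesIn_broom (n : ℕ) : IdentifiesIn H₁ 2 (Vx n) (broom n) := by
  classical
  refine ⟨{.inl (pend n false), .inl (pend n true)}, endSetoid n, Finset.card_le_two, ?_, ?_⟩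
  · rintro x y (h | h) hne
    · exact absurd h hne
    · obtain ⟨⟨b, rfl⟩, ⟨c, rfl⟩⟩ := h
      cases b <;> cases c <;> simp
  · -- a vertex with three neighbours is the new one
    have key : ∀ c : Quotient (endSetoid n),
        HasThree (image (broom n) (Quotient.mk (endSetoid n))) c →
        c = Quotient.mk (endSetoid n) (.inl (pend n false)) := by
      intro c hc
      by_contra hne
      obtain ⟨x, rfl⟩ := Quotient.exists_rep c
      have hx : ∀ b, x ≠ .inl (pend n b) := by
        intro b hb
        apply hne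
        apply Quotient.sound
        exact Or.inr ⟨⟨b, hb⟩, ⟨false, rfl⟩⟩
      -- `x` has at most two neighbours
      have hdeg : ∃ p q : Vx n, ∀ y, (broom n).Adj x y → y = p ∨ y = q := by
        rcases x with i | p
        · have hi0 : i ≠ pend n false := fun e => hx false (by rw [e])
          have hi1 : i ≠ pend n true := fun e => hx true (by rw [e])
          have hi0' : i.1 ≠ 0 := fun e => hi0 (Fin.ext e)
          have hi1' : i.1 ≠ n + 1 := fun e => hi1 (Fin.ext e)
          have hlt := i.2
          refine ⟨.inl ⟨i.1 - 1, by omega⟩, .inl ⟨i.1 + 1, by omega⟩, ?_⟩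
          rintro (j | q) hj
          · rcases hj with h | h
            · right
              congr 1
              exact Fin.ext h.symm
            · left
              congr 1
              apply Fin.ext
              simp only
              omega
          · exfalso
            have h : i = pend n q.1 := hj
            exact hx q.1 (by rw [h])
        · refine ⟨.inl (pend n p.1), .inl (pend n p.1), ?_⟩
          rintro (j | q) hj
          · left
            have h : j = pend n p.1 := hj
            rw [h]
          · exact hj.elim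
      obtain ⟨p, q, hpq⟩ := hdeg
      obtain ⟨a, b, c, hab, hac, hbc, ha, hb, hc⟩ := hc
      have hrep : ∀ d, (image (broom n) (Quotient.mk (endSetoid n))).Adj ⟦x⟧ d →
          d = Quotient.mk (endSetoid n) p ∨ d = Quotient.mk (endSetoid n) q := by
        rintro d ⟨_, x', y, hx', rfl, hxy⟩
        have hxx : x' = x := by
          rcases Quotient.exact hx' with h | h
          · exact h
          · obtain ⟨b, hb⟩ := h.2
            exact absurd hb (hx b)
        rw [hxx] at hxy
        rcases hpq y hxy with h | h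
        · left
          rw [h]
        · right
          rw [h]
      rcases hrep a ha with h1 | h1 <;> rcases hrep b hb with h2 | h2 <;>
        rcases hrep c hc with h3 | h3 <;> simp_all
    intro x y hx hy
    rw [key x hx, key y hy]

end Pool.Agent.Q131.EcId
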