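import Pool.Agent.Q131.TreeGlue

/-!
# External and self private neighbours in trees: the constant 4/5

States of the root `v` with respect to `U`: `0` = in `U`, no neighbour in `U`; `1` = in `U`, some
neighbour in `U`; `2`, `3`, `4` = not in `U` with `0`, `1`, at least `2` neighbours in `U`.
-/

namespace Q131.Espn

open SimpleGraph Q131.TreeGlue Finset

/-- The number of neighbours in `U`. -/
noncomputable def cn {V : Type} [Fintype V] (G : SimpleGraph V) (U : V → Bool) (w : V) : ℕ := by
  classical exact (univ.filter (fun x => G.Adj w x ∧ U x = true)).card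

/-- State of a vertex. -/
def st (b : Bool) (c : ℕ) : Fin 5 :=
  if b then (if c = 0 then 0 else 1) else (if c = 0 then 2 else if c = 1 then 3 else 4)

/-- Value of a vertex. -/
def pt (s : Fin 5) : ℤ := if s = 0 ∨ s = 3 then 5 else 0

/-- State after one neighbour with membership `b` is added. -/
def upd (s : Fin 5) (b : Bool) : Fin 5 := if b then ![1, 1, 3, 4, 4] s else s

/-- Membership of the root. -/
def inU (s : Fin 5) : Bool := ![true, true, false, false, false] s

theorem st_add (b b' : Bool) (c : ℕ) : st b (c + (if b' then 1 else 0)) = upd (st b c) b' := by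
  cases b' <;> cases b
  · simp [upd]
  · simp [upd]
  · simp only [st, upd, if_true]
    rcases c with _ | _ | c <;> simp
  · simp only [st, upd, if_true]
    rcases c with _ | _ | c <;> simp

theorem inU_st (b : Bool) (c : ℕ) : inU (st b c) = b := by
  cases b
  · simp only [st, inU]
    rcases c with _ | _ | c <;> simp
  · simp only [st, inU]
    rcases c with _ | _ | c <;> simp

/-- Root state. -/
noncomputable def rs {V : Type} [Fintype V] (G : SimpleGraph V) (U : V → Bool) (v : V) : Fin 5 :=
  st (U v) (cn G U v)

/-- Five times the number of private vertices different from the root, minus four times the number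
of vertices. -/
noncomputable def F {V : Type} [Fintype V] (G : SimpleGraph V) (v : V) (U : V → Bool) : ℤ :=
  (∑ w, pt (rs G U w)) - pt (rs G U v) - 4 * (Fintype.card V : ℤ)

theorem sum_diff {V : Type} [Fintype V] (f g : V → ℤ) (v : V) (h : ∀ w, w ≠ v → f w = g w) :
    ∑ w, f w = ∑ w, g w + (f v - g v) := by
  have h1 : ∑ w, (f w - g w) = f v - g v := by
    refine Finset.sum_eq_single v ?_ ?_
    · intro b _ hb
      rw [h b hb, sub_self]
    · simp
  rw [Finset.sum_sub_distrib] at h1
  linarith

section
open scoped Classical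
variable {V W : Type} [Fintype V] [Fintype W] (G : SimpleGraph V) (H : SimpleGraph W) (v : V)
  (w : W)

theorem cn_inl (U : V ⊕ W → Bool) (a : V) : cn (glue G v H w) U (Sum.inl a) =
    cn G (fun x => U (Sum.inl x)) a + (if a = v ∧ U (Sum.inr w) = true then 1 else 0) := by
  unfold cn
  rw [Finset.card_filter, Fintype.sum_sum_type, Finset.card_filter]
  congr 1
  simp only [glue_lr]
  by_cases h : a = v
  · simp only [h, true_and]
    by_cases h2 : U (Sum.inr w) = true
    · rw [if_pos h2, Finset.sum_eq_single w]
      · simp [h2]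
      · intro b _ hb
        simp [hb]
      · simp
    · rw [if_neg h2]
      apply Finset.sum_eq_zero
      intro b _
      rw [if_neg]
      rintro ⟨rfl, h3⟩
      exact h2 h3
  · simp [h]

theorem cn_inr (U : V ⊕ W → Bool) (b : W) : cn (glue G v H w) U (Sum.inr b) =
    cn H (fun x => U (Sum.inr x)) b + (if b = w ∧ U (Sum.inl v) = true then 1 else 0) := by
  unfold cn
  rw [Finset.card_filter, Fintype.sum_sum_type, Finset.card_filter, add_comm]
  congr 1
  simp only [glue_rl]
  by_cases h : b = w
  · simp only [h, and_true]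
    by_cases h2 : U (Sum.inl v) = true
    · rw [if_pos ⟨trivial, h2⟩, Finset.sum_eq_single v]
      · simp [h2]
      · intro b _ hb
        simp [hb]
      · simp
    · rw [if_neg (fun h => h2 h.2)]
      apply Finset.sum_eq_zero
      intro b _
      rw [if_neg]
      rintro ⟨rfl, h3⟩
      exact h2 h3
  · simp [h]

theorem rs_root (U : V ⊕ W → Bool) : rs (glue G v H w) U (Sum.inl v) =
    upd (rs G (fun x => U (Sum.inl x)) v) (inU (rs H (fun x => U (Sum.inr x)) w)) := by
  unfold rs
  rw [cn_inl, inU_st, ← st_add]
  simp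

theorem rs_child (U : V ⊕ W → Bool) : rs (glue G v H w) U (Sum.inr w) =
    upd (rs H (fun x => U (Sum.inr x)) w) (inU (rs G (fun x => U (Sum.inl x)) v)) := by
  unfold rs
  rw [cn_inr, inU_st, ← st_add]
  simp

theorem F_glue (U : V ⊕ W → Bool) : F (glue G v H w) (Sum.inl v) U =
    F G v (fun x => U (Sum.inl x)) + F H w (fun x => U (Sum.inr x)) +
      pt (rs (glue G v H w) U (Sum.inr w)) := by
  unfold F
  rw [Fintype.sum_sum_type, Fintype.card_sum]
  rw [sum_diff (fun a => pt (rs (glue G v H w) U (Sum.inl a)))
      (fun a => pt (rs G (fun x => U (Sum.inl x)) a)) v,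
    sum_diff (fun a => pt (rs (glue G v H w) U (Sum.inr a)))
      (fun a => pt (rs H (fun x => U (Sum.inr x)) a)) w]
  · push_cast
    ring
  · intro b h
    unfold rs
    rw [cn_inr]
    simp [h]
  · intro b h
    unfold rs
    rw [cn_inl]
    simp [h]

end

section
variable {V W : Type} [Fintype V] [Fintype W] {G : SimpleGraph V} {H : SimpleGraph W}

theorem cn_iso (e : G ≃g H) (U : W → Bool) (a : V) :
    cn H U (e a) = cn G (fun x => U (e x)) a := by
  classical
  unfold cn
  rw [Finset.card_filter, Finset.card_filter, ← Equiv.sum_comp e.toEquiv]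
  apply Finset.sum_congr rfl
  intro x _
  have : H.Adj (e a) (e.toEquiv x) ↔ G.Adj a x := e.map_adj_iff
  simp only [this]
  rfl

theorem rs_iso (e : G ≃g H) (U : W → Bool) (a : V) :
    rs H U (e a) = rs G (fun x => U (e x)) a := by
  unfold rs
  rw [cn_iso]

theorem F_iso (e : G ≃g H) (U : W → Bool) (v : V) :
    F H (e v) U = F G v (fun x => U (e x)) := by
  unfold F
  rw [← Fintype.card_congr e.toEquiv, ← Equiv.sum_comp e.toEquiv, rs_iso]
  congr 2
  apply Finset.sum_congr rfl
  intro x _
  have h1 : e.toEquiv x = e x := rfl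
  rw [h1, rs_iso]

end

/-- The seven types of rooted trees: lower bounds for the best value in each root state. -/
def ty : Fin 7 → Fin 5 → Option ℤ :=
  ![![none, none, none, none, some 0],
    ![none, none, none, some (-1), none],
    ![none, none, some (-2), some (-2), none],
    ![none, none, some 0, none, none],
    ![some (-4), none, some (-4), none, none],
    ![some (-3), none, none, some (-3), none],
    ![some (-2), none, none, none, some (-2)]]

/-- Checking one state of the join. -/
def chk1 (k l : Fin 7) (r : Fin 5) (a : ℤ) : Bool :=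
  decide (∃ s t : Fin 5, (match ty k s, ty l t with
    | some x, some y => decide (upd s (inU t) = r ∧ a ≤ x + y + pt (upd t (inU s)))
    | _, _ => false) = true)

/-- Checking that type `m` is implied for the join of types `k` and `l`. -/
def chk (k l m : Fin 7) : Bool :=
  decide (∀ r : Fin 5, (match ty m r with
    | none => true
    | some a => chk1 k l r a) = true)

theorem chk_all : ∀ k l : Fin 7, ∃ m : Fin 7, chk k l m = true := by
  decide +kernel

/-- A rooted tree has one of the seven types. -/
def P (V : Type) [Fintype V] (G : SimpleGraph V) (v : V) : Prop :=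
  ∃ k : Fin 7, ∀ (s : Fin 5) (a : ℤ), ty k s = some a → ∃ U : V → Bool, rs G U v = s ∧ a ≤ F G v U

theorem P_tree (V : Type) [Fintype V] (G : SimpleGraph V) (hG : G.IsTree) (v : V) : P V G v := by
  refine tree_induction (P := P) ?_ ?_ ?_ V G hG v
  · rintro V W _ _ G H e v ⟨k, hk⟩
    refine ⟨k, fun s a hs => ?_⟩
    obtain ⟨U, h1, h2⟩ := hk s a hs
    refine ⟨fun y => U (e.symm y), ?_, ?_⟩
    · rw [rs_iso]
      simpa using h1
    · rw [F_iso]
      simpa using h2
  · refine ⟨4, ?_⟩
    have hc : ∀ U : Unit → Bool, cn (⊥ : SimpleGraph Unit) U () = 0 := by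
      intro U
      simp [cn]
    have hF : ∀ U : Unit → Bool, F (⊥ : SimpleGraph Unit) () U = -4 := by
      intro U
      simp [F]
    intro s a hs
    fin_cases s
    · refine ⟨fun _ => true, ?_, ?_⟩
      · simp [rs, hc, st]
      · rw [hF]
        simp [ty] at hs
        omega
    · simp [ty] at hs
    · refine ⟨fun _ => false, ?_, ?_⟩
      · simp [rs, hc, st]
      · rw [hF]
        simp [ty] at hs
        omega
    · simp [ty] at hs
    · simp [ty] at hs
  · rintro V W _ _ G v H w ⟨k, hk⟩ ⟨l, hl⟩
    obtain ⟨m, hm⟩ := chk_all k l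
    refine ⟨m, fun r a hr => ?_⟩
    have h1 := of_decide_eq_true hm r
    rw [hr] at h1
    obtain ⟨s, t, h2⟩ := of_decide_eq_true h1
    rcases hx : ty k s with _ | x
    · rw [hx] at h2
      simp at h2
    rcases hy : ty l t with _ | y
    · rw [hx, hy] at h2
      simp at h2
    rw [hx, hy] at h2
    have h3 := of_decide_eq_true h2
    obtain ⟨U1, e1, f1⟩ := hk s x hx
    obtain ⟨U2, e2, f2⟩ := hl t y hy
    refine ⟨Sum.elim U1 U2, ?_, ?_⟩
    · rw [rs_root]
      simp only [Sum.elim_inl, Sum.elim_inr]
      rw [e1, e2]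
      exact h3.1
    · rw [F_glue, rs_child]
      simp only [Sum.elim_inl, Sum.elim_inr]
      rw [e1, e2]
      linarith [h3.2]

theorem fin_all : ∀ k : Fin 7, ∃ s : Fin 5, (match ty k s with
    | none => false
    | some a => decide (0 ≤ a + pt s)) = true := by
  decide +kernel

/-- The lower bound. -/
theorem lower (V : Type) [Fintype V] (G : SimpleGraph V) (hG : G.IsTree) :
    ∃ U : V → Bool, 4 * (Fintype.card V : ℤ) ≤ ∑ w, pt (rs G U w) := by
  obtain ⟨v⟩ := hG.connected.nonempty
  obtain ⟨k, hk⟩ := P_tree V G hG v
  obtain ⟨s, hs⟩ := fin_all k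
  rcases hx : ty k s with _ | x
  · rw [hx] at hs
    simp at hs
  rw [hx] at hs
  have h3 := of_decide_eq_true hs
  obtain ⟨U, h1, h2⟩ := hk s x hx
  refine ⟨U, ?_⟩
  unfold F at h2
  rw [h1] at h2
  linarith

end Q131.Espn
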