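import Mathlib

/-!
# Flip graphs and flip sequences: definitions
-/

namespace Q131.Flip

open Finset

/-- The number of edges of colour `j` at the vertex `v`. -/
noncomputable def colDeg {V : Type*} {k : ℕ} (G : SimpleGraph V) (f : Sym2 V → Fin k) (v : V)
    (j : Fin k) : ℕ :=
  {u : V | G.Adj v u ∧ f s(v, u) = j}.ncard

/-- `e_j[v]`: the number of edges of colour `j` with both ends in the closed neighbourhood of
`v`. -/
noncomputable def closedCount {V : Type*} {k : ℕ} (G : SimpleGraph V) (f : Sym2 V → Fin k) (v : V)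
    (j : Fin k) : ℕ :=
  {e : Sym2 V | e ∈ G.edgeSet ∧ f e = j ∧ ∀ x ∈ e, x = v ∨ G.Adj v x}.ncard

/-- `G` is an `(a_1, ..., a_k)`-flip graph. -/
def IsFlipGraph {V : Type*} {k : ℕ} (a : Fin k → ℕ) (G : SimpleGraph V) : Prop :=
  ∃ f : Sym2 V → Fin k, (∀ (j : Fin k) (v : V), colDeg G f v j = a j) ∧
    ∀ (v : V) (i j : Fin k), i < j → closedCount G f v j < closedCount G f v i

/-- `(a_1, ..., a_k)` is a `k`-flip sequence: strictly increasing, positive, and some finite
(nonempty) graph is an `(a_1, ..., a_k)`-flip graph. -/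
def IsFlipSequence {k : ℕ} (a : Fin k → ℕ) : Prop :=
  StrictMono a ∧ (∀ j, 0 < a j) ∧
    ∃ (V : Type) (_ : Finite V) (_ : Nonempty V) (G : SimpleGraph V), IsFlipGraph a G

/-- The growth constant `c^*` of three-colour flip sequences. -/
noncomputable def cStar : ℝ :=
  sSup {c : ℝ | {a : Fin 3 → ℕ | IsFlipSequence a ∧ c * (a 0 : ℝ) ^ 2 ≤ (a 2 : ℝ)}.Infinite}

end Q131.Flip
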