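import Pool.Agent.Q131.FlipUpper

/-!
# The lamplighter structure

Vertices `(t, f)`: a position `t` and a lamp configuration `f`.  `walk` changes the position,
`swt` changes the lamp at the position.
-/

namespace Q131.Flip

open Finset Matrix

/-- Positions and lamp configurations. -/
abbrev U (n : ℕ) : Type := Fin n × (Fin n → Fin n)

variable {n : ℕ}

/-- The walk matrix. -/
def walk (n : ℕ) : Matrix (U n) (U n) ℝ := Matrix.of fun x y =>
  if x.1 ≠ y.1 ∧ x.2 = y.2 then 1 else 0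

/-- Switching the lamp at the position. -/
def swt (n : ℕ) : Matrix (U n) (U n) ℝ := Matrix.of fun x y =>
  if x.1 = y.1 ∧ (∀ p, p ≠ x.1 → x.2 p = y.2 p) ∧ x.2 x.1 ≠ y.2 x.1 then 1 else 0

theorem walk_apply (x y : U n) : walk n x y = if x.1 ≠ y.1 ∧ x.2 = y.2 then 1 else 0 := rfl

theorem swt_apply (x y : U n) : swt n x y =
    if x.1 = y.1 ∧ (∀ p, p ≠ x.1 → x.2 p = y.2 p) ∧ x.2 x.1 ≠ y.2 x.1 then 1 else 0 := rfl

theorem supp_w {x y : U n} (h : walk n x y ≠ 0) : x.1 ≠ y.1 ∧ x.2 = y.2 := by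
  by_contra hc
  exact h (if_neg hc)

theorem supp_s {x y : U n} (h : swt n x y ≠ 0) :
    x.1 = y.1 ∧ (∀ p, p ≠ x.1 → x.2 p = y.2 p) ∧ x.2 x.1 ≠ y.2 x.1 := by
  by_contra hc
  exact h (if_neg hc)

theorem walk_symm (x y : U n) : walk n x y = walk n y x := by
  unfold walk
  simp only [Matrix.of_apply]
  congr 1
  apply propext
  constructor
  · rintro ⟨h1, h2⟩
    exact ⟨h1.symm, h2.symm⟩
  · rintro ⟨h1, h2⟩
    exact ⟨h1.symm, h2.symm⟩

theorem swt_symm (x y : U n) : swt n x y = swt n y x := by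
  unfold swt
  simp only [Matrix.of_apply]
  congr 1
  apply propext
  constructor
  · rintro ⟨h1, h2, h3⟩
    refine ⟨h1.symm, fun p hp => (h2 p (by rw [h1]; exact hp)).symm, ?_⟩
    rw [← h1]
    exact h3.symm
  · rintro ⟨h1, h2, h3⟩
    refine ⟨h1.symm, fun p hp => (h2 p (by rw [h1]; exact hp)).symm, ?_⟩
    rw [← h1]
    exact h3.symm

/-- Nonzero entries of products come from paths. -/
theorem mul_ne_zero_path {A B : Matrix (U n) (U n) ℝ} {x y : U n} (h : (A * B) x y ≠ 0) :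
    ∃ z, A x z ≠ 0 ∧ B z y ≠ 0 := by
  rw [Matrix.mul_apply] at h
  obtain ⟨z, -, hz⟩ := Finset.exists_ne_zero_of_sum_ne_zero h
  exact ⟨z, left_ne_zero_of_mul hz, right_ne_zero_of_mul hz⟩

theorem supp_ws {x y : U n} (h : (walk n * swt n) x y ≠ 0) :
    x.1 ≠ y.1 ∧ (∀ p, p ≠ y.1 → x.2 p = y.2 p) ∧ x.2 y.1 ≠ y.2 y.1 := by
  obtain ⟨z, h1, h2⟩ := mul_ne_zero_path h
  obtain ⟨a1, a2⟩ := supp_w h1
  obtain ⟨b1, b2, b3⟩ := supp_s h2
  rw [a2]
  rw [b1] at a1 b2 b3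
  exact ⟨a1, b2, b3⟩

theorem supp_sw {x y : U n} (h : (swt n * walk n) x y ≠ 0) :
    x.1 ≠ y.1 ∧ (∀ p, p ≠ x.1 → x.2 p = y.2 p) ∧ x.2 x.1 ≠ y.2 x.1 := by
  obtain ⟨z, h1, h2⟩ := mul_ne_zero_path h
  obtain ⟨a1, a2⟩ := supp_w h2
  obtain ⟨b1, b2, b3⟩ := supp_s h1
  rw [← a2, b1]
  rw [b1] at b2 b3
  exact ⟨a1, b2, b3⟩

theorem supp_wsw {x y : U n} (h : (walk n * (swt n * walk n)) x y ≠ 0) :
    ∃ p, p ≠ x.1 ∧ p ≠ y.1 ∧ (∀ r, r ≠ p → x.2 r = y.2 r) ∧ x.2 p ≠ y.2 p := by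
  obtain ⟨z, h1, h2⟩ := mul_ne_zero_path h
  obtain ⟨a1, a2⟩ := supp_w h1
  obtain ⟨b1, b2, b3⟩ := supp_sw h2
  refine ⟨z.1, a1.symm, b1, ?_, ?_⟩
  · intro r hr
    rw [a2]
    exact b2 r hr
  · rw [a2]
    exact b3

theorem supp_sws {x y : U n} (h : (swt n * (walk n * swt n)) x y ≠ 0) :
    x.1 ≠ y.1 ∧ x.2 x.1 ≠ y.2 x.1 ∧ x.2 y.1 ≠ y.2 y.1 := by
  obtain ⟨z, h1, h2⟩ := mul_ne_zero_path h
  obtain ⟨a1, a2, a3⟩ := supp_s h1
  obtain ⟨b1, b2, b3⟩ := supp_ws h2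
  have e1 : x.1 ≠ y.1 := by rw [a1]; exact b1
  refine ⟨e1, ?_, ?_⟩
  · rw [← b2 x.1 e1]
    exact a3
  · rw [a2 y.1 e1.symm]
    exact b3

theorem z_w (x : U n) : walk n x x = 0 := by
  by_contra h
  exact (supp_w h).1 rfl

theorem z_s (x : U n) : swt n x x = 0 := by
  by_contra h
  exact (supp_s h).2.2 rfl

theorem z_ws (x : U n) : (walk n * swt n) x x = 0 := by
  by_contra h
  exact (supp_ws h).1 rfl

theorem z_sw (x : U n) : (swt n * walk n) x x = 0 := by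
  by_contra h
  exact (supp_sw h).1 rfl

theorem z_wsw (x : U n) : (walk n * (swt n * walk n)) x x = 0 := by
  by_contra h
  obtain ⟨p, -, -, -, h4⟩ := supp_wsw h
  exact h4 rfl

theorem z_sws (x : U n) : (swt n * (walk n * swt n)) x x = 0 := by
  by_contra h
  exact (supp_sws h).1 rfl

theorem z_wsws (x : U n) : (walk n * (swt n * (walk n * swt n))) x x = 0 := by
  by_contra h
  rw [← mul_assoc] at h
  obtain ⟨z, h1, h2⟩ := mul_ne_zero_path h
  obtain ⟨a1, a2, a3⟩ := supp_ws h1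
  obtain ⟨b1, b2, b3⟩ := supp_ws h2
  exact b3 (a2 x.1 a1).symm

theorem z_swsw (x : U n) : (swt n * (walk n * (swt n * walk n))) x x = 0 := by
  by_contra h
  rw [← mul_assoc] at h
  obtain ⟨z, h1, h2⟩ := mul_ne_zero_path h
  obtain ⟨a1, a2, a3⟩ := supp_sw h1
  obtain ⟨b1, b2, b3⟩ := supp_sw h2
  exact b3 (a2 z.1 a1.symm).symm

theorem z_wswsw (x : U n) : (walk n * (swt n * (walk n * (swt n * walk n)))) x x = 0 := by
  by_contra h
  rw [← mul_assoc] at h
  obtain ⟨z, h1, h2⟩ := mul_ne_zero_path h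
  obtain ⟨a1, a2, a3⟩ := supp_ws h1
  obtain ⟨p, b1, b2, b3, b4⟩ := supp_wsw h2
  exact a3 (b3 z.1 b1.symm).symm

theorem z_swsws (x : U n) : (swt n * (walk n * (swt n * (walk n * swt n)))) x x = 0 := by
  by_contra h
  rw [← mul_assoc] at h
  obtain ⟨z, h1, h2⟩ := mul_ne_zero_path h
  obtain ⟨a1, a2, a3⟩ := supp_sw h1
  obtain ⟨b1, b2, b3⟩ := supp_sws h2
  exact b2 (a2 z.1 a1.symm).symm

theorem z_wswsws (x : U n) :
    (walk n * (swt n * (walk n * (swt n * (walk n * swt n))))) x x = 0 := by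
  by_contra h
  rw [← mul_assoc (swt n), ← mul_assoc] at h
  obtain ⟨z, h1, h2⟩ := mul_ne_zero_path h
  obtain ⟨p, b1, b2, b3, b4⟩ := supp_wsw h1
  obtain ⟨a1, a2, a3⟩ := supp_sws h2
  by_cases hp : p = z.1
  · exact b2 hp
  · exact a2 (b3 z.1 (fun e => hp e.symm)).symm

theorem z_swswsw (x : U n) :
    (swt n * (walk n * (swt n * (walk n * (swt n * walk n))))) x x = 0 := by
  by_contra h
  rw [← mul_assoc (walk n), ← mul_assoc] at h
  obtain ⟨z, h1, h2⟩ := mul_ne_zero_path h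
  obtain ⟨a1, a2, a3⟩ := supp_sws h1
  obtain ⟨p, b1, b2, b3, b4⟩ := supp_wsw h2
  exact a2 (b3 x.1 b2.symm).symm

/-! ### Row sums and squares -/

theorem row_w (x : U n) : ∑ y, walk n x y = (n : ℝ) - 1 := by
  have h : ∀ y : U n, walk n x y = (if x.2 = y.2 then 1 else 0) - (if x = y then 1 else 0) := by
    intro y
    rw [walk_apply]
    by_cases h1 : x.2 = y.2
    · by_cases h2 : x.1 = y.1
      · have h3 : x = y := Prod.ext h2 h1
        rw [if_neg (fun h => h.1 h2), if_pos h1, if_pos h3, sub_self]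
      · have h3 : ¬ x = y := fun e => h2 (by rw [e])
        rw [if_pos ⟨h2, h1⟩, if_pos h1, if_neg h3, sub_zero]
    · have h3 : ¬ x = y := fun e => h1 (by rw [e])
      rw [if_neg (fun h => h1 h.2), if_neg h1, if_neg h3, sub_zero]
  simp only [h, sum_sub_distrib]
  rw [Fintype.sum_prod_type]
  simp

/-- The lamp configurations differing from `x` at most at the position. -/
theorem sum_agree (x : U n) :
    ∑ y : U n, (if x.1 = y.1 ∧ ∀ p, p ≠ x.1 → x.2 p = y.2 p then (1 : ℝ) else 0) = n := by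
  rw [Finset.sum_boole]
  have : (univ.filter (fun y : U n => x.1 = y.1 ∧ ∀ p, p ≠ x.1 → x.2 p = y.2 p)) =
      univ.image (fun c : Fin n => ((x.1, Function.update x.2 x.1 c) : U n)) := by
    ext y
    simp only [mem_filter, mem_univ, true_and, mem_image]
    constructor
    · rintro ⟨h1, h2⟩
      refine ⟨y.2 x.1, Prod.ext h1 ?_⟩
      funext p
      by_cases hp : p = x.1
      · subst hp
        simp
      · simp only [Function.update_of_ne hp]
        exact h2 p hp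
    · rintro ⟨c, rfl⟩
      refine ⟨rfl, fun p hp => ?_⟩
      simp only [Function.update_of_ne hp]
  rw [this, card_image_of_injective]
  · simp
  · intro c c' h
    have h1 := congrFun (Prod.mk.inj h).2 x.1
    simpa using h1

theorem swt_eq (x y : U n) : swt n x y =
    (if x.1 = y.1 ∧ ∀ p, p ≠ x.1 → x.2 p = y.2 p then 1 else 0) - (if x = y then 1 else 0) := by
  rw [swt_apply]
  by_cases h1 : x.1 = y.1 ∧ ∀ p, p ≠ x.1 → x.2 p = y.2 p
  · by_cases h2 : x.2 x.1 = y.2 x.1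
    · have h3 : x = y := by
        apply Prod.ext h1.1
        funext p
        by_cases hp : p = x.1
        · rw [hp]
          exact h2
        · exact h1.2 p hp
      rw [if_neg (fun h => h.2.2 h2), if_pos h1, if_pos h3, sub_self]
    · have h3 : ¬ x = y := fun e => h2 (by rw [e])
      rw [if_pos ⟨h1.1, h1.2, h2⟩, if_pos h1, if_neg h3, sub_zero]
  · have h3 : ¬ x = y := fun e => h1 ⟨by rw [e], fun p _ => by rw [e]⟩
    rw [if_neg (fun h => h1 ⟨h.1, h.2.1⟩), if_neg h1, if_neg h3, sub_zero]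

theorem row_s (x : U n) : ∑ y, swt n x y = (n : ℝ) - 1 := by
  simp only [swt_eq, sum_sub_distrib, sum_agree]
  simp

theorem sq_w : walk n * walk n = ((n : ℝ) - 2) • walk n + ((n : ℝ) - 1) • (1 : Matrix _ _ ℝ) := by
  have h : walk n = Matrix.of (fun x y : U n => if x.2 = y.2 then (1 : ℝ) else 0) - 1 := by
    ext x y
    rw [Matrix.sub_apply, Matrix.one_apply, Matrix.of_apply, walk_apply]
    by_cases h1 : x.2 = y.2
    · by_cases h2 : x.1 = y.1
      · have h3 : x = y := Prod.ext h2 h1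
        rw [if_neg (fun h => h.1 h2), if_pos h1, if_pos h3, sub_self]
      · have h3 : ¬ x = y := fun e => h2 (by rw [e])
        rw [if_pos ⟨h2, h1⟩, if_pos h1, if_neg h3, sub_zero]
    · have h3 : ¬ x = y := fun e => h1 (by rw [e])
      rw [if_neg (fun h => h1 h.2), if_neg h1, if_neg h3, sub_zero]
  have h2 : Matrix.of (fun x y : U n => if x.2 = y.2 then (1 : ℝ) else 0) *
      Matrix.of (fun x y : U n => if x.2 = y.2 then (1 : ℝ) else 0) =
      (n : ℝ) • Matrix.of (fun x y : U n => if x.2 = y.2 then (1 : ℝ) else 0) := by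
    ext x y
    rw [Matrix.mul_apply, Matrix.smul_apply, Fintype.sum_prod_type]
    simp only [Matrix.of_apply]
    simp
    split_ifs <;> simp
  generalize Matrix.of (fun x y : U n => if x.2 = y.2 then (1 : ℝ) else 0) = E at h h2
  rw [h, sub_mul, mul_sub, h2, mul_one, one_mul]
  module

theorem sq_s : swt n * swt n = ((n : ℝ) - 2) • swt n + ((n : ℝ) - 1) • (1 : Matrix _ _ ℝ) := by
  have h : swt n = Matrix.of (fun x y : U n =>
      if x.1 = y.1 ∧ ∀ p, p ≠ x.1 → x.2 p = y.2 p then (1 : ℝ) else 0) - 1 := by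
    ext x y
    rw [Matrix.sub_apply, Matrix.one_apply, Matrix.of_apply, swt_eq]
  have h2 : Matrix.of (fun x y : U n =>
      if x.1 = y.1 ∧ ∀ p, p ≠ x.1 → x.2 p = y.2 p then (1 : ℝ) else 0) *
      Matrix.of (fun x y : U n =>
      if x.1 = y.1 ∧ ∀ p, p ≠ x.1 → x.2 p = y.2 p then (1 : ℝ) else 0) =
      (n : ℝ) • Matrix.of (fun x y : U n =>
      if x.1 = y.1 ∧ ∀ p, p ≠ x.1 → x.2 p = y.2 p then (1 : ℝ) else 0) := by
    ext x y
    rw [Matrix.mul_apply, Matrix.smul_apply]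
    simp only [Matrix.of_apply, smul_eq_mul]
    have key : ∀ z : U n, ((if x.1 = z.1 ∧ ∀ p, p ≠ x.1 → x.2 p = z.2 p then (1 : ℝ) else 0) *
        if z.1 = y.1 ∧ ∀ p, p ≠ z.1 → z.2 p = y.2 p then (1 : ℝ) else 0) =
        (if x.1 = z.1 ∧ ∀ p, p ≠ x.1 → x.2 p = z.2 p then (1 : ℝ) else 0) *
        (if x.1 = y.1 ∧ ∀ p, p ≠ x.1 → x.2 p = y.2 p then (1 : ℝ) else 0) := by
      intro z
      by_cases h1 : x.1 = z.1 ∧ ∀ p, p ≠ x.1 → x.2 p = z.2 p
      · rw [if_pos h1, one_mul, one_mul]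
        congr 1
        apply propext
        constructor
        · rintro ⟨h2, h3⟩
          refine ⟨h1.1.trans h2, fun p hp => ?_⟩
          rw [h1.2 p hp]
          exact h3 p (by rw [← h1.1]; exact hp)
        · rintro ⟨h2, h3⟩
          refine ⟨h1.1.symm.trans h2, fun p hp => ?_⟩
          have hp' : p ≠ x.1 := by rw [h1.1]; exact hp
          rw [← h1.2 p hp']
          exact h3 p hp'
      · rw [if_neg h1, zero_mul, zero_mul]
    simp only [key, ← sum_mul, sum_agree]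
  generalize Matrix.of (fun x y : U n =>
      if x.1 = y.1 ∧ ∀ p, p ≠ x.1 → x.2 p = y.2 p then (1 : ℝ) else 0) = E at h h2
  rw [h, sub_mul, mul_sub, h2, mul_one, one_mul]
  module

/-! ### The product `walk * swt` -/

theorem ws_apply (x y : U n) : (walk n * swt n) x y =
    if x.1 ≠ y.1 ∧ (∀ p, p ≠ y.1 → x.2 p = y.2 p) ∧ x.2 y.1 ≠ y.2 y.1 then 1 else 0 := by
  by_cases h : x.1 ≠ y.1 ∧ (∀ p, p ≠ y.1 → x.2 p = y.2 p) ∧ x.2 y.1 ≠ y.2 y.1
  · rw [if_pos h, Matrix.mul_apply, Finset.sum_eq_single ((y.1, x.2) : U n)]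
    · rw [walk_apply, swt_apply, if_pos ⟨h.1, rfl⟩, if_pos ⟨rfl, h.2.1, h.2.2⟩, one_mul]
    · intro z _ hz
      by_contra hne
      have h1 := supp_w (left_ne_zero_of_mul hne)
      have h2 := supp_s (right_ne_zero_of_mul hne)
      exact hz (Prod.ext h2.1 h1.2.symm)
    · intro h
      exact absurd (mem_univ _) h
  · rw [if_neg h]
    by_contra hne
    exact h (supp_ws hne)

theorem sw_apply (x y : U n) : (swt n * walk n) x y =
    if x.1 ≠ y.1 ∧ (∀ p, p ≠ x.1 → x.2 p = y.2 p) ∧ x.2 x.1 ≠ y.2 x.1 then 1 else 0 := by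
  have h : (swt n * walk n) x y = (walk n * swt n) y x := by
    rw [Matrix.mul_apply, Matrix.mul_apply]
    apply sum_congr rfl
    intro z _
    rw [swt_symm x z, walk_symm z y, mul_comm]
  rw [h, ws_apply]
  congr 1
  apply propext
  constructor
  · rintro ⟨h1, h2, h3⟩
    exact ⟨h1.symm, fun p hp => (h2 p hp).symm, h3.symm⟩
  · rintro ⟨h1, h2, h3⟩
    exact ⟨h1.symm, fun p hp => (h2 p hp).symm, h3.symm⟩

/-- Adjacency in the flag graph. -/
noncomputable def RR (n : ℕ) : Matrix (U n) (U n) ℝ := walk n + swt n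

/-- Pairs at distance two in the flag graph. -/
noncomputable def SS (n : ℕ) : Matrix (U n) (U n) ℝ := walk n * swt n + swt n * walk n

theorem RR_symm (x y : U n) : RR n x y = RR n y x := by
  unfold RR
  rw [Matrix.add_apply, Matrix.add_apply, walk_symm, swt_symm]

theorem SS_symm (x y : U n) : SS n x y = SS n y x := by
  have h : ∀ x y : U n, (swt n * walk n) x y = (walk n * swt n) y x := by
    intro x y
    rw [Matrix.mul_apply, Matrix.mul_apply]
    apply sum_congr rfl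
    intro z _
    rw [swt_symm x z, walk_symm z y, mul_comm]
  unfold SS
  rw [Matrix.add_apply, Matrix.add_apply, h x y, h y x, add_comm]

/-- Possible values of the pair `(RR, SS)`. -/
theorem values (x y : U n) : (RR n x y = 0 ∧ SS n x y = 0) ∨ (RR n x y = 1 ∧ SS n x y = 0) ∨
    (RR n x y = 0 ∧ SS n x y = 1) := by
  unfold RR SS
  rw [Matrix.add_apply, Matrix.add_apply, ws_apply, sw_apply, walk_apply, swt_apply]
  by_cases h1 : x.1 = y.1
  · have a1 : ¬ (x.1 ≠ y.1 ∧ x.2 = y.2) := fun h => h.1 h1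
    have a2 : ¬ (x.1 ≠ y.1 ∧ (∀ p, p ≠ y.1 → x.2 p = y.2 p) ∧ x.2 y.1 ≠ y.2 y.1) :=
      fun h => h.1 h1
    have a3 : ¬ (x.1 ≠ y.1 ∧ (∀ p, p ≠ x.1 → x.2 p = y.2 p) ∧ x.2 x.1 ≠ y.2 x.1) :=
      fun h => h.1 h1
    rw [if_neg a1, if_neg a2, if_neg a3, zero_add, zero_add]
    split_ifs
    · right; left; exact ⟨rfl, rfl⟩
    · left; exact ⟨rfl, rfl⟩
  · have a0 : ¬ (x.1 = y.1 ∧ (∀ p, p ≠ x.1 → x.2 p = y.2 p) ∧ x.2 x.1 ≠ y.2 x.1) :=
      fun h => h1 h.1
    rw [if_neg a0, add_zero]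
    by_cases h2 : x.2 = y.2
    · have a2 : ¬ (x.1 ≠ y.1 ∧ (∀ p, p ≠ y.1 → x.2 p = y.2 p) ∧ x.2 y.1 ≠ y.2 y.1) :=
        fun h => h.2.2 (by rw [h2])
      have a3 : ¬ (x.1 ≠ y.1 ∧ (∀ p, p ≠ x.1 → x.2 p = y.2 p) ∧ x.2 x.1 ≠ y.2 x.1) :=
        fun h => h.2.2 (by rw [h2])
      rw [if_pos ⟨h1, h2⟩, if_neg a2, if_neg a3, add_zero]
      right; left; exact ⟨rfl, rfl⟩
    · rw [if_neg (fun h => h2 h.2)]
      by_cases h3 : x.1 ≠ y.1 ∧ (∀ p, p ≠ y.1 → x.2 p = y.2 p) ∧ x.2 y.1 ≠ y.2 y.1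
      · have a3 : ¬ (x.1 ≠ y.1 ∧ (∀ p, p ≠ x.1 → x.2 p = y.2 p) ∧ x.2 x.1 ≠ y.2 x.1) :=
          fun h => h.2.2 (h3.2.1 x.1 h1)
        rw [if_pos h3, if_neg a3, add_zero]
        right; right; exact ⟨rfl, rfl⟩
      · rw [if_neg h3, zero_add]
        split_ifs
        · right; right; exact ⟨rfl, rfl⟩
        · left; exact ⟨rfl, rfl⟩

theorem row_R (x : U n) : ∑ y, RR n x y = 2 * ((n : ℝ) - 1) := by
  unfold RR
  simp only [Matrix.add_apply, sum_add_distrib, row_w, row_s]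
  ring

theorem row_S (x : U n) : ∑ y, SS n x y = 2 * ((n : ℝ) - 1) ^ 2 := by
  unfold SS
  simp only [Matrix.add_apply, sum_add_distrib, Matrix.mul_apply]
  rw [sum_comm]
  simp only [← mul_sum, row_s, ← sum_mul, row_w]
  rw [sum_comm]
  simp only [← mul_sum, row_w, ← sum_mul, row_s]
  ring

end Q131.Flip
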