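import Pool.Agent.Q131.FlipLamp

/-!
# The construction of flip graphs
-/

namespace Q131.Flip

open Finset Matrix Kronecker

section general

/-- A flip graph from three `0/1` matrices. -/
theorem flip_of_matrices {V : Type*} [Fintype V] (M : Fin 3 → Matrix V V ℝ) (a : Fin 3 → ℕ)
    (hval : ∀ x y, (∀ j, M j x y = 0) ∨ ∃ j, M j x y = 1 ∧ ∀ i, i ≠ j → M i x y = 0)
    (hsymm : ∀ j x y, M j x y = M j y x) (hdiag : ∀ j x, M j x x = 0)
    (hrow : ∀ j x, ∑ y, M j x y = a j)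
    (hflip : ∀ v, 2 * (a 1 : ℝ) + ((M 0 + M 1 + M 2) * M 1 * (M 0 + M 1 + M 2)) v v <
        2 * a 0 + ((M 0 + M 1 + M 2) * M 0 * (M 0 + M 1 + M 2)) v v ∧
      2 * (a 2 : ℝ) + ((M 0 + M 1 + M 2) * M 2 * (M 0 + M 1 + M 2)) v v <
        2 * a 1 + ((M 0 + M 1 + M 2) * M 1 * (M 0 + M 1 + M 2)) v v) :
    ∃ G : SimpleGraph V, IsFlipGraph a G := by
  classical
  let G : SimpleGraph V :=
    { Adj := fun x y => ∃ j, M j x y = 1
      symm := ⟨fun x y ⟨j, h⟩ => ⟨j, by rw [hsymm]; exact h⟩⟩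
      loopless := ⟨fun x ⟨j, h⟩ => by
        rw [hdiag] at h
        exact zero_ne_one h⟩ }
  let f : Sym2 V → Fin 3 := Sym2.lift ⟨fun x y => if M 1 x y = 1 then 1 else
    if M 2 x y = 1 then 2 else 0, fun x y => by simp only [hsymm 1 x y, hsymm 2 x y]⟩
  have hf : ∀ x y, f s(x, y) = if M 1 x y = 1 then 1 else if M 2 x y = 1 then 2 else 0 :=
    fun x y => rfl
  have huniq : ∀ x y j, M j x y = 1 → f s(x, y) = j := by
    intro x y j hj
    rw [hf]
    rcases hval x y with h | ⟨i, h1, h2⟩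
    · rw [h] at hj
      exact absurd hj zero_ne_one
    · have hij : i = j := by
        by_contra hne
        rw [h2 j (fun e => hne e.symm)] at hj
        exact zero_ne_one hj
      subst hij
      fin_cases i
      · have e1 : M 1 x y = 0 := h2 1 (by decide)
        have e2 : M 2 x y = 0 := h2 2 (by decide)
        rw [e1, e2]
        simp
      · have e1 : M 1 x y = 1 := h1
        rw [if_pos e1]
        rfl
      · have e1 : M 1 x y = 0 := h2 1 (by decide)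
        have e2 : M 2 x y = 1 := h1
        rw [e1, e2]
        simp
  have hind : ∀ j x y, ind G f j x y = M j x y := by
    intro j x y
    unfold ind
    by_cases h : G.Adj x y ∧ f s(x, y) = j
    · rw [if_pos h]
      obtain ⟨⟨i, hi⟩, h2⟩ := h
      rw [huniq x y i hi] at h2
      rw [← h2, hi]
    · rw [if_neg h]
      rcases hval x y with h1 | ⟨i, h1, h2⟩
      · exact (h1 j).symm
      · have hne : j ≠ i := by
          rintro rfl
          exact h ⟨⟨j, h1⟩, huniq x y j h1⟩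
        exact (h2 j hne).symm
  have hadj : ∀ x y, adjI G x y = (M 0 + M 1 + M 2) x y := by
    intro x y
    rw [← sum_ind G f x y, Fin.sum_univ_three, hind, hind, hind, Matrix.add_apply,
      Matrix.add_apply]
  have hdeg : ∀ j v, colDeg G f v j = a j := by
    intro j v
    have h1 := sum_ind_row G f j v
    have h2 : ((colDeg G f v j : ℕ) : ℝ) = (a j : ℕ) := by
      rw [← h1, ← hrow j v]
      apply sum_congr rfl
      intro y _
      exact hind j v y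
    exact_mod_cast h2
  have hcc : ∀ v j, (2 : ℝ) * closedCount G f v j = 2 * a j +
      ((M 0 + M 1 + M 2) * M j * (M 0 + M 1 + M 2)) v v := by
    intro v j
    rw [two_closedCount, hdeg, Matrix.mul_apply]
    congr 1
    rw [sum_comm]
    apply sum_congr rfl
    intro y _
    rw [Matrix.mul_apply, sum_mul]
    apply sum_congr rfl
    intro x _
    rw [hadj, hadj, hind]
  refine ⟨G, f, hdeg, ?_⟩
  have h01 : ∀ v, closedCount G f v 1 < closedCount G f v 0 := by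
    intro v
    have h := (hflip v).1
    rw [← hcc v 1, ← hcc v 0] at h
    have : (closedCount G f v 1 : ℝ) < closedCount G f v 0 := by linarith
    exact_mod_cast this
  have h12 : ∀ v, closedCount G f v 2 < closedCount G f v 1 := by
    intro v
    have h := (hflip v).2
    rw [← hcc v 1, ← hcc v 2] at h
    have : (closedCount G f v 2 : ℝ) < closedCount G f v 1 := by linarith
    exact_mod_cast this
  intro v i j hij
  fin_cases i <;> fin_cases j
  · exact absurd hij (by decide)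
  · exact h01 v
  · exact (h12 v).trans (h01 v)
  · exact absurd hij (by decide)
  · exact absurd hij (by decide)
  · exact h12 v
  · exact absurd hij (by decide)
  · exact absurd hij (by decide)
  · exact absurd hij (by decide)

/-- Diagonal entries of a triple product of Kronecker products. -/
theorem diag3 {α β : Type*} [Fintype α] [Fintype β] [DecidableEq α] [DecidableEq β]
    (A B C : Matrix α α ℝ) (A' B' C' : Matrix β β ℝ) (x : α) (i : β) :
    ((A ⊗ₖ A') * (B ⊗ₖ B') * (C ⊗ₖ C')) (x, i) (x, i) =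
      (A * B * C) x x * (A' * B' * C') i i := by
  rw [← Matrix.mul_kronecker_mul, ← Matrix.mul_kronecker_mul]
  rfl

theorem row_kron {α β : Type*} [Fintype α] [Fintype β]
    (A : Matrix α α ℝ) (A' : Matrix β β ℝ) (x : α) (i : β) :
    ∑ y, (A ⊗ₖ A') (x, i) y = (∑ y, A x y) * ∑ j, A' i j := by
  rw [Fintype.sum_prod_type, sum_mul]
  apply sum_congr rfl
  intro y _
  rw [mul_sum]
  rfl

/-- The complete bipartite graph `K_{k,k}`. -/
def bip (k : ℕ) : Matrix (Bool × Fin k) (Bool × Fin k) ℝ := Matrix.of fun x y =>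
  if x.1 ≠ y.1 then 1 else 0

theorem bip_apply {k : ℕ} (x y : Bool × Fin k) : bip k x y = if x.1 ≠ y.1 then 1 else 0 := rfl

theorem bip_self {k : ℕ} (x : Bool × Fin k) : bip k x x = 0 := by simp [bip_apply]

theorem bip_symm {k : ℕ} (x y : Bool × Fin k) : bip k x y = bip k y x := by
  simp only [bip_apply, ne_comm]

theorem bip_row {k : ℕ} (x : Bool × Fin k) : ∑ y, bip k x y = k := by
  rw [Fintype.sum_prod_type]
  obtain ⟨b, c⟩ := x
  cases b <;> simp [bip_apply]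

theorem bip_sq {k : ℕ} (x : Bool × Fin k) : (bip k * bip k) x x = k := by
  rw [Matrix.mul_apply, ← bip_row x]
  apply sum_congr rfl
  intro y _
  rw [bip_symm y x, bip_apply]
  split_ifs <;> norm_num

theorem bip_cube {k : ℕ} (x : Bool × Fin k) : (bip k * bip k * bip k) x x = 0 := by
  rw [Matrix.mul_apply]
  apply sum_eq_zero
  intro y _
  rw [Matrix.mul_apply, sum_mul]
  apply sum_eq_zero
  intro z _
  rw [bip_apply, bip_apply, bip_apply]
  obtain ⟨b, c⟩ := x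
  obtain ⟨b', c'⟩ := y
  obtain ⟨b'', c''⟩ := z
  cases b <;> cases b' <;> cases b'' <;> simp

end general

/-! ### Diagonal entries on the level of flags -/

section flags
variable {n : ℕ}

theorem sq_w' (X : Matrix (U n) (U n) ℝ) : walk n * (walk n * X) =
    ((n : ℝ) - 2) • (walk n * X) + ((n : ℝ) - 1) • X := by
  rw [← mul_assoc, sq_w, add_mul, smul_mul_assoc, smul_mul_assoc, one_mul]

theorem sq_s' (X : Matrix (U n) (U n) ℝ) : swt n * (swt n * X) =
    ((n : ℝ) - 2) • (swt n * X) + ((n : ℝ) - 1) • X := by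
  rw [← mul_assoc, sq_s, add_mul, smul_mul_assoc, smul_mul_assoc, one_mul]

/-- `1 + R`. -/
noncomputable def BB (n : ℕ) : Matrix (U n) (U n) ℝ := 1 + RR n

/-- `1 + R + S`. -/
noncomputable def AA (n : ℕ) : Matrix (U n) (U n) ℝ := 1 + RR n + SS n

theorem d_A (x : U n) : AA n x x = 1 := by
  simp only [AA, RR, SS, Matrix.add_apply, Matrix.one_apply_eq, z_w, z_s, z_ws, z_sw]
  ring

theorem d_B (x : U n) : BB n x x = 1 := by
  simp only [BB, RR, Matrix.add_apply, Matrix.one_apply_eq, z_w, z_s]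
  ring

theorem d_S (x : U n) : SS n x x = 0 := by
  simp only [SS, Matrix.add_apply, z_ws, z_sw]
  ring

theorem d_AA (x : U n) : (AA n * AA n) x x = 1 + 2 * ((n : ℝ) - 1) + 2 * ((n : ℝ) - 1) ^ 2 := by
  simp only [AA, RR, SS, add_mul, mul_add, mul_assoc, one_mul, mul_one, sq_w, sq_s, sq_w', sq_s',
    smul_mul_assoc, mul_smul_comm, smul_add, smul_smul]
  simp only [Matrix.add_apply, Matrix.smul_apply, Matrix.one_apply_eq, z_w, z_s, z_ws, z_sw,
    z_wsw, z_sws, z_wsws, z_swsw, z_wswsw, z_swsws, z_wswsws, z_swswsw, smul_eq_mul]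
  ring

theorem d_AB (x : U n) : (AA n * BB n) x x = 1 + 2 * ((n : ℝ) - 1) := by
  simp only [AA, BB, RR, SS, add_mul, mul_add, mul_assoc, one_mul, mul_one, sq_w, sq_s, sq_w',
    sq_s', smul_mul_assoc, mul_smul_comm, smul_add, smul_smul]
  simp only [Matrix.add_apply, Matrix.smul_apply, Matrix.one_apply_eq, z_w, z_s, z_ws, z_sw,
    z_wsw, z_sws, z_wsws, z_swsw, z_wswsw, z_swsws, z_wswsws, z_swswsw, smul_eq_mul]
  ring

theorem d_BA (x : U n) : (BB n * AA n) x x = 1 + 2 * ((n : ℝ) - 1) := by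
  simp only [AA, BB, RR, SS, add_mul, mul_add, mul_assoc, one_mul, mul_one, sq_w, sq_s, sq_w',
    sq_s', smul_mul_assoc, mul_smul_comm, smul_add, smul_smul]
  simp only [Matrix.add_apply, Matrix.smul_apply, Matrix.one_apply_eq, z_w, z_s, z_ws, z_sw,
    z_wsw, z_sws, z_wsws, z_swsw, z_wswsw, z_swsws, z_wswsws, z_swswsw, smul_eq_mul]
  ring

theorem d_AS (x : U n) : (AA n * SS n) x x = 2 * ((n : ℝ) - 1) ^ 2 := by
  simp only [AA, RR, SS, add_mul, mul_add, mul_assoc, one_mul, mul_one, sq_w, sq_s, sq_w', sq_s',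
    smul_mul_assoc, mul_smul_comm, smul_add, smul_smul]
  simp only [Matrix.add_apply, Matrix.smul_apply, Matrix.one_apply_eq, z_w, z_s, z_ws, z_sw,
    z_wsw, z_sws, z_wsws, z_swsw, z_wswsw, z_swsws, z_wswsws, z_swswsw, smul_eq_mul]
  ring

theorem d_SA (x : U n) : (SS n * AA n) x x = 2 * ((n : ℝ) - 1) ^ 2 := by
  simp only [AA, RR, SS, add_mul, mul_add, mul_assoc, one_mul, mul_one, sq_w, sq_s, sq_w', sq_s',
    smul_mul_assoc, mul_smul_comm, smul_add, smul_smul]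
  simp only [Matrix.add_apply, Matrix.smul_apply, Matrix.one_apply_eq, z_w, z_s, z_ws, z_sw,
    z_wsw, z_sws, z_wsws, z_swsw, z_wswsw, z_swsws, z_wswsws, z_swswsw, smul_eq_mul]
  ring

theorem d_ABA (x : U n) : (AA n * (BB n * AA n)) x x =
    1 + 4 * ((n : ℝ) - 1) + 6 * ((n : ℝ) - 1) ^ 2 + 2 * ((n : ℝ) - 1) ^ 3 := by
  simp only [AA, BB, RR, SS, add_mul, mul_add, mul_assoc, one_mul, mul_one, sq_w, sq_s, sq_w',
    sq_s', smul_mul_assoc, mul_smul_comm, smul_add, smul_smul]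
  simp only [Matrix.add_apply, Matrix.smul_apply, Matrix.one_apply_eq, z_w, z_s, z_ws, z_sw,
    z_wsw, z_sws, z_wsws, z_swsw, z_wswsw, z_swsws, z_wswsws, z_swswsw, smul_eq_mul]
  ring

theorem d_ASA (x : U n) : (AA n * (SS n * AA n)) x x =
    2 * ((n : ℝ) - 1) ^ 2 + 4 * ((n : ℝ) - 1) ^ 3 := by
  simp only [AA, RR, SS, add_mul, mul_add, mul_assoc, one_mul, mul_one, sq_w, sq_s, sq_w', sq_s',
    smul_mul_assoc, mul_smul_comm, smul_add, smul_smul]
  simp only [Matrix.add_apply, Matrix.smul_apply, Matrix.one_apply_eq, z_w, z_s, z_ws, z_sw,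
    z_wsw, z_sws, z_wsws, z_swsw, z_wswsw, z_swsws, z_wswsws, z_swswsw, smul_eq_mul]
  ring

end flags

/-! ### Blow-up by cliques of size `m` -/

section blow
variable {n m : ℕ}

/-- The all-ones matrix. -/
def JJ (m : ℕ) : Matrix (Fin m) (Fin m) ℝ := Matrix.of fun _ _ => 1

theorem JJ_apply (i j : Fin m) : JJ m i j = 1 := rfl

theorem JJ_sq : JJ m * JJ m = (m : ℝ) • JJ m := by
  ext i j
  rw [Matrix.mul_apply, Matrix.smul_apply]
  simp [JJ_apply]

theorem kk (A B : Matrix (U n) (U n) ℝ) :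
    (A ⊗ₖ JJ m) * (B ⊗ₖ JJ m) = (m : ℝ) • ((A * B) ⊗ₖ JJ m) := by
  rw [← Matrix.mul_kronecker_mul, JJ_sq, Matrix.kronecker_smul]

/-- Colour 1 on the blow-up. -/
noncomputable def W0 (n m : ℕ) : Matrix (U n × Fin m) (U n × Fin m) ℝ := BB n ⊗ₖ JJ m - 1

/-- Colour 3 on the blow-up. -/
noncomputable def W2 (n m : ℕ) : Matrix (U n × Fin m) (U n × Fin m) ℝ := SS n ⊗ₖ JJ m

/-- The clique matrix. -/
noncomputable def E1 (n m : ℕ) : Matrix (U n × Fin m) (U n × Fin m) ℝ :=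
  (1 : Matrix (U n) (U n) ℝ) ⊗ₖ JJ m

/-- Colours 1 and 3 together. -/
noncomputable def NW (n m : ℕ) : Matrix (U n × Fin m) (U n × Fin m) ℝ := W0 n m + W2 n m

theorem NW_eq : NW n m = AA n ⊗ₖ JJ m - 1 := by
  unfold NW W0 W2
  rw [show AA n = BB n + SS n from rfl, Matrix.add_kronecker]
  abel

theorem kap (A : Matrix (U n) (U n) ℝ) (x : U n) (i : Fin m) :
    (A ⊗ₖ JJ m) (x, i) (x, i) = A x x := by
  rw [Matrix.kroneckerMap_apply, JJ_apply, mul_one]

theorem one_ap (x : U n × Fin m) : (1 : Matrix (U n × Fin m) (U n × Fin m) ℝ) x x = 1 :=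
  Matrix.one_apply_eq x

theorem e_NN0 (x : U n × Fin m) : (NW n m * W0 n m * NW n m) x x =
    (m : ℝ) ^ 2 * (1 + 4 * ((n : ℝ) - 1) + 6 * ((n : ℝ) - 1) ^ 2 + 2 * ((n : ℝ) - 1) ^ 3) -
      m * (2 * ((n : ℝ) - 1) ^ 2 + 6 * ((n : ℝ) - 1) + 3) + 2 := by
  obtain ⟨u, i⟩ := x
  rw [NW_eq, W0]
  simp only [sub_mul, mul_sub, one_mul, mul_one, mul_assoc, kk, smul_mul_assoc, mul_smul_comm,
    smul_smul, smul_sub]
  simp only [Matrix.sub_apply, Matrix.smul_apply, kap, one_ap, smul_eq_mul, d_ABA, d_AB, d_BA,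
    d_AA, d_A, d_B]
  ring

theorem e_NN2 (x : U n × Fin m) : (NW n m * W2 n m * NW n m) x x =
    (m : ℝ) ^ 2 * (2 * ((n : ℝ) - 1) ^ 2 + 4 * ((n : ℝ) - 1) ^ 3) -
      m * (4 * ((n : ℝ) - 1) ^ 2) := by
  obtain ⟨u, i⟩ := x
  rw [NW_eq, W2]
  simp only [sub_mul, mul_sub, one_mul, mul_one, mul_assoc, kk, smul_mul_assoc, mul_smul_comm,
    smul_smul, smul_sub]
  simp only [Matrix.sub_apply, Matrix.smul_apply, kap, smul_eq_mul, d_ASA, d_AS, d_SA, d_S]
  ring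

theorem e_EE0 (x : U n × Fin m) : (E1 n m * W0 n m * E1 n m) x x = (m : ℝ) * (m - 1) := by
  obtain ⟨u, i⟩ := x
  rw [E1, W0]
  simp only [sub_mul, mul_sub, one_mul, mul_one, mul_assoc, kk, smul_mul_assoc, mul_smul_comm,
    smul_smul, smul_sub]
  simp only [Matrix.sub_apply, Matrix.smul_apply, kap, smul_eq_mul, d_B, Matrix.one_apply_eq]
  ring

theorem e_EE2 (x : U n × Fin m) : (E1 n m * W2 n m * E1 n m) x x = 0 := by
  obtain ⟨u, i⟩ := x
  rw [E1, W2]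
  simp only [one_mul, mul_one, mul_assoc, kk, smul_mul_assoc, mul_smul_comm, smul_smul]
  simp only [Matrix.smul_apply, kap, smul_eq_mul, d_S]
  ring

theorem e_NEE (x : U n × Fin m) : (NW n m * E1 n m * E1 n m) x x = (m : ℝ) * (m - 1) := by
  obtain ⟨u, i⟩ := x
  rw [NW_eq, E1]
  simp only [sub_mul, mul_sub, one_mul, mul_one, mul_assoc, kk, smul_mul_assoc, mul_smul_comm,
    smul_smul, smul_sub]
  simp only [Matrix.sub_apply, Matrix.smul_apply, kap, smul_eq_mul, d_A, Matrix.one_apply_eq]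
  ring

theorem e_EEN (x : U n × Fin m) : (E1 n m * E1 n m * NW n m) x x = (m : ℝ) * (m - 1) := by
  obtain ⟨u, i⟩ := x
  rw [NW_eq, E1]
  simp only [sub_mul, mul_sub, one_mul, mul_one, mul_assoc, kk, smul_mul_assoc, mul_smul_comm,
    smul_smul, smul_sub]
  simp only [Matrix.sub_apply, Matrix.smul_apply, kap, smul_eq_mul, d_A, Matrix.one_apply_eq]
  ring

theorem d_W0 (x : U n × Fin m) : W0 n m x x = 0 := by
  obtain ⟨u, i⟩ := x
  rw [W0, Matrix.sub_apply, kap, one_ap, d_B, sub_self]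

theorem d_W2 (x : U n × Fin m) : W2 n m x x = 0 := by
  obtain ⟨u, i⟩ := x
  rw [W2, kap, d_S]

theorem row_J (i : Fin m) : ∑ j, JJ m i j = m := by
  simp [JJ_apply]

theorem row_one {α : Type*} [Fintype α] [DecidableEq α] (x : α) :
    ∑ y, (1 : Matrix α α ℝ) x y = 1 := by
  simp [Matrix.one_apply]

theorem row_W0 (x : U n × Fin m) : ∑ y, W0 n m x y = (2 * ((n : ℝ) - 1) + 1) * m - 1 := by
  obtain ⟨u, i⟩ := x
  unfold W0
  simp only [Matrix.sub_apply, sum_sub_distrib]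
  rw [row_kron, row_one, row_J]
  unfold BB
  simp only [Matrix.add_apply, sum_add_distrib]
  rw [row_one, row_R]
  ring

theorem row_W2 (x : U n × Fin m) : ∑ y, W2 n m x y = 2 * ((n : ℝ) - 1) ^ 2 * m := by
  obtain ⟨u, i⟩ := x
  unfold W2
  rw [row_kron, row_J, row_S]

theorem row_E1 (x : U n × Fin m) : ∑ y, E1 n m x y = m := by
  obtain ⟨u, i⟩ := x
  unfold E1
  rw [row_kron, row_J, row_one, one_mul]

theorem val_W (x y : U n × Fin m) : (W0 n m x y = 0 ∧ W2 n m x y = 0) ∨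
    (W0 n m x y = 1 ∧ W2 n m x y = 0) ∨ (W0 n m x y = 0 ∧ W2 n m x y = 1) := by
  obtain ⟨u, i⟩ := x
  obtain ⟨u', i'⟩ := y
  have h0 : W0 n m (u, i) (u', i') =
      (if u = u' then 1 else 0) + RR n u u' - (if (u, i) = (u', i') then 1 else 0) := by
    rw [W0, Matrix.sub_apply, Matrix.kroneckerMap_apply, JJ_apply, mul_one, BB, Matrix.add_apply,
      Matrix.one_apply, Matrix.one_apply]
  have h2 : W2 n m (u, i) (u', i') = SS n u u' := by
    rw [W2, Matrix.kroneckerMap_apply, JJ_apply, mul_one]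
  rw [h0, h2]
  by_cases hu : u = u'
  · subst hu
    have hR : RR n u u = 0 := by
      simp only [RR, Matrix.add_apply, z_w, z_s, add_zero]
    rw [d_S, hR, if_pos rfl]
    split_ifs
    · left; norm_num
    · right; left; norm_num
  · rw [if_neg hu, if_neg (fun e => hu (Prod.mk.inj e).1), zero_add, sub_zero]
    exact values u u'

theorem val_E (x y : U n × Fin m) : E1 n m x y = 0 ∨ E1 n m x y = 1 := by
  obtain ⟨u, i⟩ := x
  obtain ⟨u', i'⟩ := y
  rw [E1, Matrix.kroneckerMap_apply, JJ_apply, mul_one, Matrix.one_apply]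
  split_ifs
  · right; rfl
  · left; rfl

theorem W0_symm (x y : U n × Fin m) : W0 n m x y = W0 n m y x := by
  obtain ⟨u, i⟩ := x
  obtain ⟨u', i'⟩ := y
  simp only [W0, Matrix.sub_apply, Matrix.kroneckerMap_apply, JJ_apply, mul_one, BB,
    Matrix.add_apply, Matrix.one_apply]
  rw [RR_symm]
  congr 1
  · congr 1
    simp only [eq_comm]
  · simp only [eq_comm]

theorem W2_symm (x y : U n × Fin m) : W2 n m x y = W2 n m y x := by
  obtain ⟨u, i⟩ := x
  obtain ⟨u', i'⟩ := y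
  simp only [W2, Matrix.kroneckerMap_apply, JJ_apply, mul_one]
  exact SS_symm u u'

theorem E1_symm (x y : U n × Fin m) : E1 n m x y = E1 n m y x := by
  obtain ⟨u, i⟩ := x
  obtain ⟨u', i'⟩ := y
  simp only [E1, Matrix.kroneckerMap_apply, JJ_apply, mul_one, Matrix.one_apply]
  simp only [eq_comm]

end blow

/-! ### The colour 2 joins and the extra edges of colour 3 -/

section final
variable {n m k b : ℕ}

/-- The vertex set. -/
abbrev Vt (n m k b : ℕ) : Type := ((U n × Fin m) × (Bool × Fin k)) × (Bool × Fin b)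

/-- The three colour matrices. -/
noncomputable def MM (n m k b : ℕ) : Fin 3 → Matrix (Vt n m k b) (Vt n m k b) ℝ :=
  ![(W0 n m ⊗ₖ (1 : Matrix (Bool × Fin k) (Bool × Fin k) ℝ)) ⊗ₖ
      (1 : Matrix (Bool × Fin b) (Bool × Fin b) ℝ),
    (E1 n m ⊗ₖ bip k) ⊗ₖ (1 : Matrix (Bool × Fin b) (Bool × Fin b) ℝ),
    (W2 n m ⊗ₖ (1 : Matrix (Bool × Fin k) (Bool × Fin k) ℝ)) ⊗ₖ
      (1 : Matrix (Bool × Fin b) (Bool × Fin b) ℝ) +
    ((1 : Matrix (U n × Fin m) (U n × Fin m) ℝ) ⊗ₖ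
      (1 : Matrix (Bool × Fin k) (Bool × Fin k) ℝ)) ⊗ₖ bip b]

/-- Colours 1, 2 and the closing edges of colour 3 on the second level. -/
noncomputable def NX (n m k : ℕ) :
    Matrix ((U n × Fin m) × (Bool × Fin k)) ((U n × Fin m) × (Bool × Fin k)) ℝ :=
  NW n m ⊗ₖ (1 : Matrix (Bool × Fin k) (Bool × Fin k) ℝ) + E1 n m ⊗ₖ bip k

theorem MM_sum : MM n m k b 0 + MM n m k b 1 + MM n m k b 2 =
    NX n m k ⊗ₖ (1 : Matrix (Bool × Fin b) (Bool × Fin b) ℝ) +
      (1 : Matrix ((U n × Fin m) × (Bool × Fin k)) ((U n × Fin m) × (Bool × Fin k)) ℝ) ⊗ₖ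
        bip b := by
  show (W0 n m ⊗ₖ (1 : Matrix (Bool × Fin k) (Bool × Fin k) ℝ)) ⊗ₖ
      (1 : Matrix (Bool × Fin b) (Bool × Fin b) ℝ) +
    (E1 n m ⊗ₖ bip k) ⊗ₖ (1 : Matrix (Bool × Fin b) (Bool × Fin b) ℝ) +
    ((W2 n m ⊗ₖ (1 : Matrix (Bool × Fin k) (Bool × Fin k) ℝ)) ⊗ₖ
      (1 : Matrix (Bool × Fin b) (Bool × Fin b) ℝ) +
    ((1 : Matrix (U n × Fin m) (U n × Fin m) ℝ) ⊗ₖ
      (1 : Matrix (Bool × Fin k) (Bool × Fin k) ℝ)) ⊗ₖ bip b) = _
  unfold NX NW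
  rw [Matrix.one_kronecker_one]
  simp only [Matrix.add_kronecker]
  abel

/-- Third level: diagonal entries reduce to the second level. -/
theorem third (N Y : Matrix ((U n × Fin m) × (Bool × Fin k)) ((U n × Fin m) × (Bool × Fin k)) ℝ)
    (hY : ∀ x, Y x x = 0) (x : (U n × Fin m) × (Bool × Fin k)) (l : Bool × Fin b) :
    ((N ⊗ₖ (1 : Matrix (Bool × Fin b) (Bool × Fin b) ℝ) +
        (1 : Matrix ((U n × Fin m) × (Bool × Fin k)) ((U n × Fin m) × (Bool × Fin k)) ℝ) ⊗ₖ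
          bip b) *
      (Y ⊗ₖ (1 : Matrix (Bool × Fin b) (Bool × Fin b) ℝ)) *
      (N ⊗ₖ (1 : Matrix (Bool × Fin b) (Bool × Fin b) ℝ) +
        (1 : Matrix ((U n × Fin m) × (Bool × Fin k)) ((U n × Fin m) × (Bool × Fin k)) ℝ) ⊗ₖ
          bip b)) (x, l) (x, l) =
    (N * Y * N) x x := by
  simp only [add_mul, mul_add, Matrix.add_apply, diag3]
  simp only [one_mul, mul_one, Matrix.one_apply_eq, bip_self, hY]
  ring

theorem third' (N : Matrix ((U n × Fin m) × (Bool × Fin k)) ((U n × Fin m) × (Bool × Fin k)) ℝ)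
    (hN : ∀ x, N x x = 0) (x : (U n × Fin m) × (Bool × Fin k)) (l : Bool × Fin b) :
    ((N ⊗ₖ (1 : Matrix (Bool × Fin b) (Bool × Fin b) ℝ) +
        (1 : Matrix ((U n × Fin m) × (Bool × Fin k)) ((U n × Fin m) × (Bool × Fin k)) ℝ) ⊗ₖ
          bip b) *
      ((1 : Matrix ((U n × Fin m) × (Bool × Fin k)) ((U n × Fin m) × (Bool × Fin k)) ℝ) ⊗ₖ
        bip b) *
      (N ⊗ₖ (1 : Matrix (Bool × Fin b) (Bool × Fin b) ℝ) +
        (1 : Matrix ((U n × Fin m) × (Bool × Fin k)) ((U n × Fin m) × (Bool × Fin k)) ℝ) ⊗ₖ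
          bip b)) (x, l) (x, l) = 0 := by
  simp only [add_mul, mul_add, Matrix.add_apply, diag3]
  simp only [one_mul, mul_one, Matrix.one_apply_eq, bip_self, hN, bip_cube]
  ring

theorem d_NX (x : (U n × Fin m) × (Bool × Fin k)) : NX n m k x x = 0 := by
  obtain ⟨w, i⟩ := x
  rw [NX, Matrix.add_apply, Matrix.kroneckerMap_apply, Matrix.kroneckerMap_apply, bip_self, NW,
    Matrix.add_apply, d_W0, d_W2]
  ring

theorem second0 (x : (U n × Fin m) × (Bool × Fin k)) :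
    (NX n m k * (W0 n m ⊗ₖ (1 : Matrix (Bool × Fin k) (Bool × Fin k) ℝ)) * NX n m k) x x =
      (m : ℝ) ^ 2 * (1 + 4 * ((n : ℝ) - 1) + 6 * ((n : ℝ) - 1) ^ 2 + 2 * ((n : ℝ) - 1) ^ 3) -
      m * (2 * ((n : ℝ) - 1) ^ 2 + 6 * ((n : ℝ) - 1) + 3) + 2 + k * (m * (m - 1)) := by
  obtain ⟨w, i⟩ := x
  unfold NX
  simp only [add_mul, mul_add, Matrix.add_apply, diag3]
  simp only [one_mul, mul_one, Matrix.one_apply_eq, bip_self, bip_sq, e_NN0, e_EE0]
  ring

theorem second2 (x : (U n × Fin m) × (Bool × Fin k)) :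
    (NX n m k * (W2 n m ⊗ₖ (1 : Matrix (Bool × Fin k) (Bool × Fin k) ℝ)) * NX n m k) x x =
      (m : ℝ) ^ 2 * (2 * ((n : ℝ) - 1) ^ 2 + 4 * ((n : ℝ) - 1) ^ 3) -
      m * (4 * ((n : ℝ) - 1) ^ 2) := by
  obtain ⟨w, i⟩ := x
  unfold NX
  simp only [add_mul, mul_add, Matrix.add_apply, diag3]
  simp only [one_mul, mul_one, Matrix.one_apply_eq, bip_self, bip_sq, e_NN2, e_EE2]
  ring

theorem second1 (x : (U n × Fin m) × (Bool × Fin k)) :
    (NX n m k * (E1 n m ⊗ₖ bip k) * NX n m k) x x = 2 * k * (m * (m - 1)) := by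
  obtain ⟨w, i⟩ := x
  unfold NX
  simp only [add_mul, mul_add, Matrix.add_apply, diag3]
  simp only [one_mul, mul_one, Matrix.one_apply_eq, bip_self, bip_sq, bip_cube, e_NEE, e_EEN]
  ring

theorem MM_val (x y : Vt n m k b) : (∀ j, MM n m k b j x y = 0) ∨
    ∃ j, MM n m k b j x y = 1 ∧ ∀ i, i ≠ j → MM n m k b i x y = 0 := by
  obtain ⟨⟨w, i⟩, l⟩ := x
  obtain ⟨⟨w', i'⟩, l'⟩ := y
  have e0 : MM n m k b 0 ((w, i), l) ((w', i'), l') =
      W0 n m w w' * (if i = i' then 1 else 0) * (if l = l' then 1 else 0) := by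
    show ((W0 n m ⊗ₖ (1 : Matrix (Bool × Fin k) (Bool × Fin k) ℝ)) ⊗ₖ
      (1 : Matrix (Bool × Fin b) (Bool × Fin b) ℝ)) ((w, i), l) ((w', i'), l') = _
    rw [Matrix.kroneckerMap_apply, Matrix.kroneckerMap_apply, Matrix.one_apply, Matrix.one_apply]
  have e1 : MM n m k b 1 ((w, i), l) ((w', i'), l') =
      E1 n m w w' * bip k i i' * (if l = l' then 1 else 0) := by
    show ((E1 n m ⊗ₖ bip k) ⊗ₖ
      (1 : Matrix (Bool × Fin b) (Bool × Fin b) ℝ)) ((w, i), l) ((w', i'), l') = _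
    rw [Matrix.kroneckerMap_apply, Matrix.kroneckerMap_apply, Matrix.one_apply]
  have e2 : MM n m k b 2 ((w, i), l) ((w', i'), l') =
      W2 n m w w' * (if i = i' then 1 else 0) * (if l = l' then 1 else 0) +
      (if w = w' then 1 else 0) * (if i = i' then 1 else 0) * bip b l l' := by
    show ((W2 n m ⊗ₖ (1 : Matrix (Bool × Fin k) (Bool × Fin k) ℝ)) ⊗ₖ
      (1 : Matrix (Bool × Fin b) (Bool × Fin b) ℝ) +
      ((1 : Matrix (U n × Fin m) (U n × Fin m) ℝ) ⊗ₖ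
      (1 : Matrix (Bool × Fin k) (Bool × Fin k) ℝ)) ⊗ₖ bip b) ((w, i), l) ((w', i'), l') = _
    rw [Matrix.add_apply, Matrix.kroneckerMap_apply, Matrix.kroneckerMap_apply,
      Matrix.kroneckerMap_apply, Matrix.kroneckerMap_apply, Matrix.one_apply, Matrix.one_apply,
      Matrix.one_apply]
  have hall : ∀ (v0 v1 v2 : ℝ), MM n m k b 0 ((w, i), l) ((w', i'), l') = v0 →
      MM n m k b 1 ((w, i), l) ((w', i'), l') = v1 →
      MM n m k b 2 ((w, i), l) ((w', i'), l') = v2 →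
      ((v0 = 0 ∧ v1 = 0 ∧ v2 = 0) ∨ (v0 = 1 ∧ v1 = 0 ∧ v2 = 0) ∨ (v0 = 0 ∧ v1 = 1 ∧ v2 = 0) ∨
        (v0 = 0 ∧ v1 = 0 ∧ v2 = 1)) →
      ((∀ j, MM n m k b j ((w, i), l) ((w', i'), l') = 0) ∨
      ∃ j, MM n m k b j ((w, i), l) ((w', i'), l') = 1 ∧
        ∀ i_1, i_1 ≠ j → MM n m k b i_1 ((w, i), l) ((w', i'), l') = 0) := by
    rintro v0 v1 v2 h0 h1 h2 (⟨a0, a1, a2⟩ | ⟨a0, a1, a2⟩ | ⟨a0, a1, a2⟩ | ⟨a0, a1, a2⟩)
    · left
      intro j
      fin_cases j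
      · exact h0.trans a0
      · exact h1.trans a1
      · exact h2.trans a2
    · right
      refine ⟨0, h0.trans a0, ?_⟩
      intro j hj
      fin_cases j
      · exact absurd rfl hj
      · exact h1.trans a1
      · exact h2.trans a2
    · right
      refine ⟨1, h1.trans a1, ?_⟩
      intro j hj
      fin_cases j
      · exact h0.trans a0
      · exact absurd rfl hj
      · exact h2.trans a2
    · right
      refine ⟨2, h2.trans a2, ?_⟩
      intro j hj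
      fin_cases j
      · exact h0.trans a0
      · exact h1.trans a1
      · exact absurd rfl hj
  apply hall _ _ _ e0 e1 e2
  by_cases hl : l = l'
  · subst hl
    rw [if_pos rfl, bip_self]
    by_cases hi : i = i'
    · subst hi
      rw [if_pos rfl, bip_self]
      rcases val_W w w' with ⟨h1, h2⟩ | ⟨h1, h2⟩ | ⟨h1, h2⟩
      · rw [h1, h2]
        left
        norm_num
      · rw [h1, h2]
        right; left
        norm_num
      · rw [h1, h2]
        right; right; right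
        norm_num
    · rw [if_neg hi]
      rcases val_E w w' with h1 | h1
      · rw [h1]
        left
        norm_num
      · rw [h1, bip_apply]
        by_cases hb : i.1 ≠ i'.1
        · rw [if_pos hb]
          right; right; left
          norm_num
        · rw [if_neg hb]
          left
          norm_num
  · rw [if_neg hl]
    by_cases hw : w = w'
    · by_cases hi : i = i'
      · rw [if_pos hw, if_pos hi, bip_apply l l']
        by_cases hb : l.1 ≠ l'.1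
        · rw [if_pos hb]
          right; right; right
          norm_num
        · rw [if_neg hb]
          left
          norm_num
      · rw [if_neg hi]
        left
        norm_num
    · rw [if_neg hw]
      left
      norm_num

theorem MM_symm (j : Fin 3) (x y : Vt n m k b) : MM n m k b j x y = MM n m k b j y x := by
  obtain ⟨⟨w, i⟩, l⟩ := x
  obtain ⟨⟨w', i'⟩, l'⟩ := y
  fin_cases j
  · show ((W0 n m ⊗ₖ (1 : Matrix (Bool × Fin k) (Bool × Fin k) ℝ)) ⊗ₖ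
      (1 : Matrix (Bool × Fin b) (Bool × Fin b) ℝ)) ((w, i), l) ((w', i'), l') =
      ((W0 n m ⊗ₖ (1 : Matrix (Bool × Fin k) (Bool × Fin k) ℝ)) ⊗ₖ
      (1 : Matrix (Bool × Fin b) (Bool × Fin b) ℝ)) ((w', i'), l') ((w, i), l)
    simp only [Matrix.kroneckerMap_apply, Matrix.one_apply]
    rw [W0_symm w w']
    simp only [eq_comm]
  · show ((E1 n m ⊗ₖ bip k) ⊗ₖ
      (1 : Matrix (Bool × Fin b) (Bool × Fin b) ℝ)) ((w, i), l) ((w', i'), l') =
      ((E1 n m ⊗ₖ bip k) ⊗ₖ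
      (1 : Matrix (Bool × Fin b) (Bool × Fin b) ℝ)) ((w', i'), l') ((w, i), l)
    simp only [Matrix.kroneckerMap_apply, Matrix.one_apply]
    rw [E1_symm w w', bip_symm i i']
    simp only [eq_comm]
  · show ((W2 n m ⊗ₖ (1 : Matrix (Bool × Fin k) (Bool × Fin k) ℝ)) ⊗ₖ
      (1 : Matrix (Bool × Fin b) (Bool × Fin b) ℝ) +
      ((1 : Matrix (U n × Fin m) (U n × Fin m) ℝ) ⊗ₖ
      (1 : Matrix (Bool × Fin k) (Bool × Fin k) ℝ)) ⊗ₖ bip b) ((w, i), l) ((w', i'), l') =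
      ((W2 n m ⊗ₖ (1 : Matrix (Bool × Fin k) (Bool × Fin k) ℝ)) ⊗ₖ
      (1 : Matrix (Bool × Fin b) (Bool × Fin b) ℝ) +
      ((1 : Matrix (U n × Fin m) (U n × Fin m) ℝ) ⊗ₖ
      (1 : Matrix (Bool × Fin k) (Bool × Fin k) ℝ)) ⊗ₖ bip b) ((w', i'), l') ((w, i), l)
    simp only [Matrix.add_apply, Matrix.kroneckerMap_apply, Matrix.one_apply]
    rw [W2_symm w w', bip_symm l l']
    simp only [eq_comm]

theorem MM_diag (j : Fin 3) (x : Vt n m k b) : MM n m k b j x x = 0 := by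
  obtain ⟨⟨w, i⟩, l⟩ := x
  fin_cases j
  · show ((W0 n m ⊗ₖ (1 : Matrix (Bool × Fin k) (Bool × Fin k) ℝ)) ⊗ₖ
      (1 : Matrix (Bool × Fin b) (Bool × Fin b) ℝ)) ((w, i), l) ((w, i), l) = 0
    rw [Matrix.kroneckerMap_apply, Matrix.kroneckerMap_apply, d_W0]
    ring
  · show ((E1 n m ⊗ₖ bip k) ⊗ₖ
      (1 : Matrix (Bool × Fin b) (Bool × Fin b) ℝ)) ((w, i), l) ((w, i), l) = 0
    rw [Matrix.kroneckerMap_apply, Matrix.kroneckerMap_apply, bip_self]
    ring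
  · show ((W2 n m ⊗ₖ (1 : Matrix (Bool × Fin k) (Bool × Fin k) ℝ)) ⊗ₖ
      (1 : Matrix (Bool × Fin b) (Bool × Fin b) ℝ) +
      ((1 : Matrix (U n × Fin m) (U n × Fin m) ℝ) ⊗ₖ
      (1 : Matrix (Bool × Fin k) (Bool × Fin k) ℝ)) ⊗ₖ bip b) ((w, i), l) ((w, i), l) = 0
    rw [Matrix.add_apply, Matrix.kroneckerMap_apply, Matrix.kroneckerMap_apply,
      Matrix.kroneckerMap_apply, d_W2, bip_self]
    ring

theorem MM_row0 (x : Vt n m k b) :
    ∑ y, MM n m k b 0 x y = (2 * ((n : ℝ) - 1) + 1) * m - 1 := by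
  obtain ⟨⟨w, i⟩, l⟩ := x
  show ∑ y, ((W0 n m ⊗ₖ (1 : Matrix (Bool × Fin k) (Bool × Fin k) ℝ)) ⊗ₖ
      (1 : Matrix (Bool × Fin b) (Bool × Fin b) ℝ)) ((w, i), l) y = _
  rw [row_kron, row_kron, row_one, row_one, row_W0]
  ring

theorem MM_row1 (x : Vt n m k b) : ∑ y, MM n m k b 1 x y = k * m := by
  obtain ⟨⟨w, i⟩, l⟩ := x
  show ∑ y, ((E1 n m ⊗ₖ bip k) ⊗ₖ
      (1 : Matrix (Bool × Fin b) (Bool × Fin b) ℝ)) ((w, i), l) y = _
  rw [row_kron, row_kron, row_one, bip_row, row_E1]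
  ring

theorem MM_row2 (x : Vt n m k b) : ∑ y, MM n m k b 2 x y = 2 * ((n : ℝ) - 1) ^ 2 * m + b := by
  obtain ⟨⟨w, i⟩, l⟩ := x
  show ∑ y, ((W2 n m ⊗ₖ (1 : Matrix (Bool × Fin k) (Bool × Fin k) ℝ)) ⊗ₖ
      (1 : Matrix (Bool × Fin b) (Bool × Fin b) ℝ) +
      ((1 : Matrix (U n × Fin m) (U n × Fin m) ℝ) ⊗ₖ
      (1 : Matrix (Bool × Fin k) (Bool × Fin k) ℝ)) ⊗ₖ bip b) ((w, i), l) y = _
  simp only [Matrix.add_apply, sum_add_distrib]
  rw [row_kron, row_kron, row_kron, row_kron, row_one, row_one, row_W2, row_one, bip_row]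
  ring

theorem MM_t0 (x : Vt n m k b) :
    ((MM n m k b 0 + MM n m k b 1 + MM n m k b 2) * MM n m k b 0 *
      (MM n m k b 0 + MM n m k b 1 + MM n m k b 2)) x x =
      (m : ℝ) ^ 2 * (1 + 4 * ((n : ℝ) - 1) + 6 * ((n : ℝ) - 1) ^ 2 + 2 * ((n : ℝ) - 1) ^ 3) -
      m * (2 * ((n : ℝ) - 1) ^ 2 + 6 * ((n : ℝ) - 1) + 3) + 2 + k * (m * (m - 1)) := by
  obtain ⟨x, l⟩ := x
  rw [MM_sum]
  show ((NX n m k ⊗ₖ (1 : Matrix (Bool × Fin b) (Bool × Fin b) ℝ) +
      (1 : Matrix ((U n × Fin m) × (Bool × Fin k)) ((U n × Fin m) × (Bool × Fin k)) ℝ) ⊗ₖ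
        bip b) *
      ((W0 n m ⊗ₖ (1 : Matrix (Bool × Fin k) (Bool × Fin k) ℝ)) ⊗ₖ
      (1 : Matrix (Bool × Fin b) (Bool × Fin b) ℝ)) *
      (NX n m k ⊗ₖ (1 : Matrix (Bool × Fin b) (Bool × Fin b) ℝ) +
      (1 : Matrix ((U n × Fin m) × (Bool × Fin k)) ((U n × Fin m) × (Bool × Fin k)) ℝ) ⊗ₖ
        bip b)) (x, l) (x, l) = _
  rw [third, second0]
  rintro ⟨w, i⟩
  rw [Matrix.kroneckerMap_apply, d_W0, zero_mul]

theorem MM_t1 (x : Vt n m k b) :
    ((MM n m k b 0 + MM n m k b 1 + MM n m k b 2) * MM n m k b 1 *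
      (MM n m k b 0 + MM n m k b 1 + MM n m k b 2)) x x = 2 * k * (m * (m - 1)) := by
  obtain ⟨x, l⟩ := x
  rw [MM_sum]
  show ((NX n m k ⊗ₖ (1 : Matrix (Bool × Fin b) (Bool × Fin b) ℝ) +
      (1 : Matrix ((U n × Fin m) × (Bool × Fin k)) ((U n × Fin m) × (Bool × Fin k)) ℝ) ⊗ₖ
        bip b) *
      ((E1 n m ⊗ₖ bip k) ⊗ₖ (1 : Matrix (Bool × Fin b) (Bool × Fin b) ℝ)) *
      (NX n m k ⊗ₖ (1 : Matrix (Bool × Fin b) (Bool × Fin b) ℝ) +
      (1 : Matrix ((U n × Fin m) × (Bool × Fin k)) ((U n × Fin m) × (Bool × Fin k)) ℝ) ⊗ₖ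
        bip b)) (x, l) (x, l) = _
  rw [third, second1]
  rintro ⟨w, i⟩
  rw [Matrix.kroneckerMap_apply, bip_self, mul_zero]

theorem MM_t2 (x : Vt n m k b) :
    ((MM n m k b 0 + MM n m k b 1 + MM n m k b 2) * MM n m k b 2 *
      (MM n m k b 0 + MM n m k b 1 + MM n m k b 2)) x x =
      (m : ℝ) ^ 2 * (2 * ((n : ℝ) - 1) ^ 2 + 4 * ((n : ℝ) - 1) ^ 3) -
      m * (4 * ((n : ℝ) - 1) ^ 2) := by
  obtain ⟨x, l⟩ := x
  rw [MM_sum]
  have e : MM n m k b 2 = (W2 n m ⊗ₖ (1 : Matrix (Bool × Fin k) (Bool × Fin k) ℝ)) ⊗ₖ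
      (1 : Matrix (Bool × Fin b) (Bool × Fin b) ℝ) +
      (1 : Matrix ((U n × Fin m) × (Bool × Fin k)) ((U n × Fin m) × (Bool × Fin k)) ℝ) ⊗ₖ
        bip b := by
    show (W2 n m ⊗ₖ (1 : Matrix (Bool × Fin k) (Bool × Fin k) ℝ)) ⊗ₖ
      (1 : Matrix (Bool × Fin b) (Bool × Fin b) ℝ) +
      ((1 : Matrix (U n × Fin m) (U n × Fin m) ℝ) ⊗ₖ
      (1 : Matrix (Bool × Fin k) (Bool × Fin k) ℝ)) ⊗ₖ bip b = _
    rw [Matrix.one_kronecker_one]
  have h : ∀ N' Y Z : Matrix (Vt n m k b) (Vt n m k b) ℝ,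
      N' * (Y + Z) * N' = N' * Y * N' + N' * Z * N' := by
    intro N' Y Z
    rw [mul_add, add_mul]
  rw [e, h, Matrix.add_apply, third, third', second2, add_zero]
  · exact d_NX
  · rintro ⟨w, i⟩
    rw [Matrix.kroneckerMap_apply, d_W2, zero_mul]

end final

/-- The flip sequences of the construction. -/
theorem lower_seq (q m : ℕ) (hq : 1 ≤ q) (hm : 2 * q ^ 3 + 8 * q ^ 2 + 6 * q + 2 ≤ m) :
    IsFlipSequence ![(2 * q + 1) * m - 1, (2 * q ^ 3 + 6 * q ^ 2 + 4 * q) * m,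
      2 * q ^ 2 * m + (m ^ 2 * (5 * q ^ 2 + 4 * q) - 1)] := by
  have hm1 : 1 ≤ m := by omega
  have hb : 1 ≤ m ^ 2 * (5 * q ^ 2 + 4 * q) := by
    apply Nat.one_le_iff_ne_zero.2
    positivity
  have ha : 1 ≤ (2 * q + 1) * m := by
    apply Nat.one_le_iff_ne_zero.2
    positivity
  have c0 : (((2 * q + 1) * m - 1 : ℕ) : ℝ) = (2 * q + 1) * m - 1 := by
    push_cast [Nat.cast_sub ha]
    ring
  have c2 : ((2 * q ^ 2 * m + (m ^ 2 * (5 * q ^ 2 + 4 * q) - 1) : ℕ) : ℝ) =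
      2 * q ^ 2 * m + (m ^ 2 * (5 * q ^ 2 + 4 * q) - 1) := by
    push_cast [Nat.cast_sub hb]
    ring
  have cb : ((m ^ 2 * (5 * q ^ 2 + 4 * q) - 1 : ℕ) : ℝ) =
      m ^ 2 * (5 * q ^ 2 + 4 * q) - 1 := by
    push_cast [Nat.cast_sub hb]
    ring
  have hq' : (1 : ℝ) ≤ q := by exact_mod_cast hq
  have hm' : 2 * (q : ℝ) ^ 3 + 8 * (q : ℝ) ^ 2 + 6 * q + 2 ≤ m := by exact_mod_cast hm
  have hm0 : (0 : ℝ) < m := by
    have : 0 < m := by omega
    exact_mod_cast this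
  refine ⟨?_, ?_, Vt (q + 1) m (2 * q ^ 3 + 6 * q ^ 2 + 4 * q)
    (m ^ 2 * (5 * q ^ 2 + 4 * q) - 1), inferInstance, ?_, ?_⟩
  · have h01 : (2 * q + 1) * m - 1 < (2 * q ^ 3 + 6 * q ^ 2 + 4 * q) * m := by
      have : (2 * q + 1) * m ≤ (2 * q ^ 3 + 6 * q ^ 2 + 4 * q) * m := by
        apply Nat.mul_le_mul_right
        nlinarith
      omega
    have h12 : (2 * q ^ 3 + 6 * q ^ 2 + 4 * q) * m <
        2 * q ^ 2 * m + (m ^ 2 * (5 * q ^ 2 + 4 * q) - 1) := by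
      have h1 : (((2 * q ^ 3 + 6 * q ^ 2 + 4 * q) * m : ℕ) : ℝ) <
          ((2 * q ^ 2 * m + (m ^ 2 * (5 * q ^ 2 + 4 * q) - 1) : ℕ) : ℝ) := by
        rw [c2]
        push_cast
        nlinarith [mul_le_mul_of_nonneg_left hm' hm0.le, sq_nonneg ((q : ℝ) - 1),
          mul_pos hm0 hm0, mul_nonneg hm0.le (by positivity : (0 : ℝ) ≤ (q : ℝ) ^ 3)]
      exact_mod_cast h1
    intro i j hij
    fin_cases i <;> fin_cases j
    · exact absurd hij (by decide)
    · exact h01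
    · exact h01.trans h12
    · exact absurd hij (by decide)
    · exact absurd hij (by decide)
    · exact h12
    · exact absurd hij (by decide)
    · exact absurd hij (by decide)
    · exact absurd hij (by decide)
  · intro j
    fin_cases j
    · show 0 < (2 * q + 1) * m - 1
      have : 3 * 2 ≤ (2 * q + 1) * m := Nat.mul_le_mul (by omega) (by omega)
      omega
    · show 0 < (2 * q ^ 3 + 6 * q ^ 2 + 4 * q) * m
      positivity
    · show 0 < 2 * q ^ 2 * m + (m ^ 2 * (5 * q ^ 2 + 4 * q) - 1)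
      have : 0 < 2 * q ^ 2 * m := by positivity
      omega
  · have hk : 0 < 2 * q ^ 3 + 6 * q ^ 2 + 4 * q := by positivity
    have hb' : 0 < m ^ 2 * (5 * q ^ 2 + 4 * q) - 1 := by
      have : 2 * 1 ≤ m ^ 2 * (5 * q ^ 2 + 4 * q) := by
        apply Nat.mul_le_mul
        · nlinarith
        · nlinarith
      omega
    exact ⟨(((⟨0, by omega⟩, fun _ => ⟨0, by omega⟩), ⟨0, by omega⟩), (true, ⟨0, hk⟩)),
      (true, ⟨0, hb'⟩)⟩
  · apply flip_of_matrices (MM (q + 1) m (2 * q ^ 3 + 6 * q ^ 2 + 4 * q)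
      (m ^ 2 * (5 * q ^ 2 + 4 * q) - 1)) _ MM_val MM_symm MM_diag
    · intro j x
      fin_cases j
      · show ∑ y, MM (q + 1) m _ _ 0 x y = (((2 * q + 1) * m - 1 : ℕ) : ℝ)
        rw [MM_row0, c0]
        push_cast
        ring
      · show ∑ y, MM (q + 1) m _ _ 1 x y = (((2 * q ^ 3 + 6 * q ^ 2 + 4 * q) * m : ℕ) : ℝ)
        rw [MM_row1]
        push_cast
        ring
      · show ∑ y, MM (q + 1) m _ _ 2 x y =
          ((2 * q ^ 2 * m + (m ^ 2 * (5 * q ^ 2 + 4 * q) - 1) : ℕ) : ℝ)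
        rw [MM_row2, c2, cb]
        push_cast
        ring
    · intro v
      rw [MM_t0, MM_t1, MM_t2]
      show 2 * (((2 * q ^ 3 + 6 * q ^ 2 + 4 * q) * m : ℕ) : ℝ) + _ <
          2 * (((2 * q + 1) * m - 1 : ℕ) : ℝ) + _ ∧
        2 * ((2 * q ^ 2 * m + (m ^ 2 * (5 * q ^ 2 + 4 * q) - 1) : ℕ) : ℝ) + _ <
          2 * (((2 * q ^ 3 + 6 * q ^ 2 + 4 * q) * m : ℕ) : ℝ) + _
      rw [c0, c2]
      push_cast
      constructor
      · nlinarith [mul_le_mul_of_nonneg_left hm' hm0.le]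
      · nlinarith

end Q131.Flip
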