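import Pool.Agent.Q131.FlipDefs

/-!
# The upper bound `a_3 ≤ (5/4) a_1 ^ 2 - 4`
-/

namespace Q131.Flip

open Finset Classical

section bridge
variable {V : Type*} {k : ℕ}

/-- Indicator of an edge of colour `j`. -/
noncomputable def ind (G : SimpleGraph V) (f : Sym2 V → Fin k) (j : Fin k) (x y : V) : ℝ :=
  if G.Adj x y ∧ f s(x, y) = j then 1 else 0

/-- Indicator of an edge. -/
noncomputable def adjI (G : SimpleGraph V) (x y : V) : ℝ := if G.Adj x y then 1 else 0

theorem ind_symm (G : SimpleGraph V) (f : Sym2 V → Fin k) (j : Fin k) (x y : V) :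
    ind G f j x y = ind G f j y x := by
  unfold ind
  rw [Sym2.eq_swap, G.adj_comm]

theorem adjI_symm (G : SimpleGraph V) (x y : V) : adjI G x y = adjI G y x := by
  unfold adjI
  rw [G.adj_comm]

theorem sum_ind (G : SimpleGraph V) (f : Sym2 V → Fin k) (x y : V) :
    ∑ j, ind G f j x y = adjI G x y := by
  unfold ind adjI
  by_cases h : G.Adj x y
  · simp [h]
  · simp [h]

theorem sum_ind_row [Fintype V] (G : SimpleGraph V) (f : Sym2 V → Fin k) (j : Fin k) (v : V) :
    ∑ y, ind G f j v y = colDeg G f v j := by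
  unfold ind colDeg
  rw [Finset.sum_boole, Set.ncard_eq_toFinset_card']
  congr 2
  ext y
  simp

/-- The number of edges in the closed neighbourhood as a sum. -/
theorem two_closedCount [Fintype V] (G : SimpleGraph V) (f : Sym2 V → Fin k) (v : V) (j : Fin k) :
    (2 : ℝ) * closedCount G f v j =
      2 * colDeg G f v j + ∑ x, ∑ y, adjI G v x * ind G f j x y * adjI G y v := by
  let H : SimpleGraph V :=
    { Adj := fun x y => G.Adj x y ∧ f s(x, y) = j ∧ (x = v ∨ G.Adj v x) ∧ (y = v ∨ G.Adj v y)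
      symm := ⟨fun x y h => ⟨h.1.symm, by rw [Sym2.eq_swap]; exact h.2.1, h.2.2.2, h.2.2.1⟩⟩
      loopless := ⟨fun x h => G.loopless.irrefl x h.1⟩ }
  have hE : closedCount G f v j = H.edgeFinset.card := by
    unfold closedCount
    rw [Set.ncard_eq_toFinset_card']
    congr 1
    ext e
    induction e using Sym2.ind with
    | _ x y =>
      simp only [Set.mem_toFinset, Set.mem_ofPred_eq, SimpleGraph.mem_edgeSet,
        SimpleGraph.mem_edgeFinset, Sym2.mem_iff, H]
      constructor
      · rintro ⟨h1, h2, h3⟩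
        exact ⟨h1, h2, h3 x (Or.inl rfl), h3 y (Or.inr rfl)⟩
      · rintro ⟨h1, h2, h3, h4⟩
        refine ⟨h1, h2, ?_⟩
        rintro z (rfl | rfl)
        · exact h3
        · exact h4
  have hsum := H.sum_degrees_eq_twice_card_edges
  have h1 : (2 : ℝ) * closedCount G f v j = ∑ x, ∑ y, if H.Adj x y then (1 : ℝ) else 0 := by
    rw [hE]
    have h2 : ((2 * H.edgeFinset.card : ℕ) : ℝ) = ((∑ x, H.degree x : ℕ) : ℝ) := by
      rw [hsum]
    push_cast at h2
    rw [h2]
    apply sum_congr rfl
    intro x _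
    rw [Finset.sum_boole, ← SimpleGraph.card_neighborFinset_eq_degree]
    congr 2
    ext y
    simp
  rw [h1]
  have h2 : ∀ x y, (if H.Adj x y then (1 : ℝ) else 0) =
      (if x = v then ind G f j v y else 0) + (if y = v then ind G f j v x else 0) +
        adjI G v x * ind G f j x y * adjI G y v := by
    intro x y
    by_cases hx : x = v
    · subst hx
      have e0 : adjI G x x = 0 := by simp [adjI]
      rw [e0, if_pos rfl, zero_mul, zero_mul, add_zero]
      have e1 : (if y = x then ind G f j x x else 0) = 0 := by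
        split_ifs
        · simp [ind]
        · rfl
      rw [e1, add_zero]
      unfold ind
      by_cases hadj : G.Adj x y ∧ f s(x, y) = j
      · rw [if_pos hadj, if_pos]
        exact ⟨hadj.1, hadj.2, Or.inl rfl, Or.inr hadj.1⟩
      · rw [if_neg hadj, if_neg]
        rintro ⟨k1, k2, -, -⟩
        exact hadj ⟨k1, k2⟩
    · by_cases hy : y = v
      · subst hy
        have e0 : adjI G y y = 0 := by simp [adjI]
        rw [e0, if_pos rfl, mul_zero, add_zero, if_neg hx, zero_add]
        unfold ind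
        by_cases hadj : G.Adj y x ∧ f s(y, x) = j
        · rw [if_pos hadj, if_pos]
          exact ⟨hadj.1.symm, by rw [Sym2.eq_swap]; exact hadj.2, Or.inr hadj.1, Or.inl rfl⟩
        · rw [if_neg hadj, if_neg]
          rintro ⟨k1, k2, -, -⟩
          exact hadj ⟨k1.symm, by rw [Sym2.eq_swap]; exact k2⟩
      · rw [if_neg hx, if_neg hy, zero_add, zero_add]
        unfold adjI ind
        by_cases h1 : G.Adj v x
        · by_cases h2 : G.Adj y v
          · rw [if_pos h1, if_pos h2, one_mul, mul_one]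
            by_cases hadj : G.Adj x y ∧ f s(x, y) = j
            · rw [if_pos hadj, if_pos]
              exact ⟨hadj.1, hadj.2, Or.inr h1, Or.inr h2.symm⟩
            · rw [if_neg hadj, if_neg]
              rintro ⟨k1, k2, -, -⟩
              exact hadj ⟨k1, k2⟩
          · rw [if_neg h2, mul_zero, if_neg]
            rintro ⟨-, -, -, k4⟩
            rcases k4 with k4 | k4
            · exact hy k4
            · exact h2 k4.symm
        · rw [if_neg h1, zero_mul, zero_mul, if_neg]
          rintro ⟨-, -, k3, -⟩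
          rcases k3 with k3 | k3
          · exact hx k3
          · exact h1 k3
  simp only [h2, sum_add_distrib]
  have e1 : ∑ x, ∑ y, (if x = v then ind G f j v y else 0) = (colDeg G f v j : ℝ) := by
    rw [Finset.sum_comm]
    simp only [Finset.sum_ite_eq', Finset.mem_univ, if_true]
    exact sum_ind_row G f j v
  have e2 : ∑ x, ∑ y, (if y = v then ind G f j v x else 0) = (colDeg G f v j : ℝ) := by
    simp only [Finset.sum_ite_eq', Finset.mem_univ, if_true]
    exact sum_ind_row G f j v
  rw [e1, e2]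
  ring

end bridge

section goodman
variable {V : Type*} [Fintype V]

/-- Goodman's inequality with a vertex weight `p ∈ {0, 1}`. -/
theorem goodman (p : V → ℝ) (q : V → V → ℝ) (hp : ∀ x, 0 ≤ p x)
    (hq0 : ∀ x y, 0 ≤ q x y) (hq1 : ∀ x y, q x y ≤ 1) (hqs : ∀ x y, q x y = q y x)
    (a : ℝ) (ha : ∑ x, p x = a) :
    2 * (∑ x, ∑ y, p x * q x y * p y) ^ 2 - a ^ 2 * (∑ x, ∑ y, p x * q x y * p y) ≤
      a * ∑ x, ∑ y, ∑ z, p x * p y * p z * (q x y * q y z * q z x) := by
  have ha0 : 0 ≤ a := by rw [← ha]; exact sum_nonneg (fun x _ => hp x)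
  let d : V → ℝ := fun x => ∑ y, q x y * p y
  have ho : ∑ x, ∑ y, p x * q x y * p y = ∑ x, p x * d x := by
    apply sum_congr rfl
    intro x _
    rw [mul_sum]
    apply sum_congr rfl
    intro y _
    ring
  have hcs : (∑ x, p x * d x) ^ 2 ≤ a * ∑ x, p x * d x ^ 2 := by
    have := Finset.sum_mul_sq_le_sq_mul_sq univ (fun x => Real.sqrt (p x))
      (fun x => Real.sqrt (p x) * d x)
    have e1 : ∀ x, Real.sqrt (p x) * (Real.sqrt (p x) * d x) = p x * d x := by
      intro x
      rw [← mul_assoc, Real.mul_self_sqrt (hp x)]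
    have e2 : ∀ x, Real.sqrt (p x) ^ 2 = p x := fun x => Real.sq_sqrt (hp x)
    have e3 : ∀ x, (Real.sqrt (p x) * d x) ^ 2 = p x * d x ^ 2 := by
      intro x
      rw [mul_pow, e2]
    simp only [e1, e2, e3, ha] at this
    exact this
  have hlow : ∑ x, ∑ y, p x * p y * q x y * (d x + d y - a) ≤
      ∑ x, ∑ y, ∑ z, p x * p y * p z * (q x y * q y z * q z x) := by
    apply sum_le_sum
    intro x _
    apply sum_le_sum
    intro y _
    have e : p x * p y * q x y * (d x + d y - a) =
        ∑ z, p x * p y * q x y * (p z * (q y z + q z x - 1)) := by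
      rw [← mul_sum]
      congr 1
      have e1 : d x = ∑ z, p z * q z x := by
        apply sum_congr rfl
        intro z _
        rw [hqs x z]
        ring
      have e2 : d y = ∑ z, p z * q y z := by
        apply sum_congr rfl
        intro z _
        ring
      rw [e1, e2, ← ha, ← sum_add_distrib, ← sum_sub_distrib]
      apply sum_congr rfl
      intro z _
      ring
    rw [e]
    apply sum_le_sum
    intro z _
    have h1 : q y z + q z x - 1 ≤ q y z * q z x := by
      nlinarith [hq1 y z, hq1 z x]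
    have h2 : 0 ≤ p x * p y * q x y * p z :=
      mul_nonneg (mul_nonneg (mul_nonneg (hp x) (hp y)) (hq0 x y)) (hp z)
    calc p x * p y * q x y * (p z * (q y z + q z x - 1))
        = (p x * p y * q x y * p z) * (q y z + q z x - 1) := by ring
      _ ≤ (p x * p y * q x y * p z) * (q y z * q z x) := mul_le_mul_of_nonneg_left h1 h2
      _ = p x * p y * p z * (q x y * q y z * q z x) := by ring
  have heq : ∑ x, ∑ y, p x * p y * q x y * (d x + d y - a) =
      2 * ∑ x, p x * d x ^ 2 - a * ∑ x, p x * d x := by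
    have e1 : ∑ x, ∑ y, p x * p y * q x y * d x = ∑ x, p x * d x ^ 2 := by
      apply sum_congr rfl
      intro x _
      have : ∀ y, p x * p y * q x y * d x = (p x * d x) * (q x y * p y) := by
        intro y
        ring
      simp only [this]
      rw [← mul_sum]
      show p x * d x * d x = _
      ring
    have e2 : ∑ x, ∑ y, p x * p y * q x y * d y = ∑ x, p x * d x ^ 2 := by
      rw [sum_comm]
      apply sum_congr rfl
      intro y _
      have : ∀ x, p x * p y * q x y * d y = (p y * d y) * (q y x * p x) := by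
        intro x
        rw [hqs x y]
        ring
      simp only [this]
      rw [← mul_sum]
      show p y * d y * d y = _
      ring
    have e3 : ∑ x, ∑ y, p x * p y * q x y * a = a * ∑ x, p x * d x := by
      rw [← ho, mul_sum]
      apply sum_congr rfl
      intro x _
      rw [mul_sum]
      apply sum_congr rfl
      intro y _
      ring
    have : ∀ x y, p x * p y * q x y * (d x + d y - a) =
        p x * p y * q x y * d x + p x * p y * q x y * d y - p x * p y * q x y * a := by
      intro x y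
      ring
    simp only [this, sum_sub_distrib, sum_add_distrib]
    rw [e1, e2, e3]
    ring
  rw [ho]
  calc 2 * (∑ x, p x * d x) ^ 2 - a ^ 2 * ∑ x, p x * d x
      ≤ 2 * (a * ∑ x, p x * d x ^ 2) - a ^ 2 * ∑ x, p x * d x := by linarith
    _ = a * (2 * ∑ x, p x * d x ^ 2 - a * ∑ x, p x * d x) := by ring
    _ ≤ _ := mul_le_mul_of_nonneg_left (heq ▸ hlow) ha0

/-- Cyclic rotation of triple sums. -/
theorem rot (X Y Z : V → V → ℝ) : ∑ v, ∑ x, ∑ y, X v x * Y x y * Z y v =
    ∑ v, ∑ x, ∑ y, Y v x * Z x y * X y v := by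
  calc ∑ v, ∑ x, ∑ y, X v x * Y x y * Z y v = ∑ x, ∑ v, ∑ y, X v x * Y x y * Z y v := sum_comm
    _ = ∑ x, ∑ y, ∑ v, X v x * Y x y * Z y v := sum_congr rfl (fun _ _ => sum_comm)
    _ = _ := by
      apply sum_congr rfl
      intro x _
      apply sum_congr rfl
      intro y _
      apply sum_congr rfl
      intro v _
      ring

/-- The main inequality. -/
theorem main_ineq (P Q : V → V → ℝ) (hP : ∀ x y, P x y = 0 ∨ P x y = 1)
    (hQ : ∀ x y, Q x y = 0 ∨ Q x y = 1) (hPQ : ∀ x y, P x y + Q x y ≤ 1)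
    (hPs : ∀ x y, P x y = P y x) (hQs : ∀ x y, Q x y = Q y x)
    (hd : ∀ x, P x x + Q x x = 0) (a : ℝ) (ha : 0 < a) (hrow : ∀ x, ∑ y, P x y = a) :
    2 * (∑ v, ∑ x, ∑ y, P v x * P x y * P y v) + 3 * (∑ v, ∑ x, ∑ y, P v x * Q x y * P y v)
      - (∑ v, ∑ x, ∑ y, Q v x * Q x y * Q y v) ≤
      (Fintype.card V : ℝ) * (5 / 2 * a ^ 2 - 2 * a) := by
  have hP0 : ∀ x y, 0 ≤ P x y := by
    intro x y
    rcases hP x y with h | h <;> rw [h]
    norm_num
  have hP1 : ∀ x y, P x y ≤ 1 := by
    intro x y
    rcases hP x y with h | h <;> rw [h]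
    norm_num
  have hQ0 : ∀ x y, 0 ≤ Q x y := by
    intro x y
    rcases hQ x y with h | h <;> rw [h]
    norm_num
  have hQ1 : ∀ x y, Q x y ≤ 1 := by
    intro x y
    rcases hQ x y with h | h <;> rw [h]
    norm_num
  let o : V → ℝ := fun v => ∑ x, ∑ y, P v x * Q x y * P y v
  let t : V → ℝ := fun v => ∑ x, ∑ y, ∑ z, P v x * P v y * P v z * (Q x y * Q y z * Q z x)
  -- closed pairs
  have h1 : ∀ v, ∑ x, ∑ y, P v x * P x y * P y v + o v ≤ a ^ 2 - a := by
    intro v
    have e1 : ∑ x, ∑ y, P v x * P x y * P y v + o v =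
        ∑ x, ∑ y, P v x * (P x y + Q x y) * P v y := by
      rw [← sum_add_distrib]
      apply sum_congr rfl
      intro x _
      rw [← sum_add_distrib]
      apply sum_congr rfl
      intro y _
      rw [hPs y v]
      ring
    rw [e1]
    have e2 : ∀ x y, P v x * (P x y + Q x y) * P v y ≤
        P v x * P v y - if x = y then P v x else 0 := by
      intro x y
      by_cases hxy : x = y
      · subst hxy
        rw [if_pos rfl, hd x]
        rcases hP v x with h | h <;> rw [h] <;> norm_num
      · rw [if_neg hxy, sub_zero]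
        have := mul_nonneg (hP0 v x) (hP0 v y)
        calc P v x * (P x y + Q x y) * P v y = (P v x * P v y) * (P x y + Q x y) := by ring
          _ ≤ (P v x * P v y) * 1 := mul_le_mul_of_nonneg_left (hPQ x y) this
          _ = P v x * P v y := mul_one _
    calc ∑ x, ∑ y, P v x * (P x y + Q x y) * P v y
        ≤ ∑ x, ∑ y, (P v x * P v y - if x = y then P v x else 0) :=
          sum_le_sum (fun x _ => sum_le_sum (fun y _ => e2 x y))
      _ = ∑ x, (P v x * a - P v x) := by
          apply sum_congr rfl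
          intro x _
          rw [sum_sub_distrib, ← mul_sum, hrow]
          simp
      _ = a ^ 2 - a := by
          rw [sum_sub_distrib, ← sum_mul, hrow]
          ring
  -- Goodman
  have h2 : ∀ v, 2 * (o v) ^ 2 - a ^ 2 * o v ≤ a * t v := by
    intro v
    have := goodman (P v) Q (hP0 v) hQ0 hQ1 hQs a (hrow v)
    have e : ∀ x y, P v x * Q x y * P v y = P v x * Q x y * P y v := by
      intro x y
      rw [hPs y v]
    simp only [e] at this
    exact this
  -- sharing
  have h3 : ∑ v, t v ≤ a * ∑ v, ∑ x, ∑ y, Q v x * Q x y * Q y v := by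
    have e : ∑ v, t v = ∑ x, ∑ y, ∑ z, (∑ v, P v x * P v y * P v z) * (Q x y * Q y z * Q z x) := by
      show ∑ v, ∑ x, ∑ y, ∑ z, P v x * P v y * P v z * (Q x y * Q y z * Q z x) = _
      rw [sum_comm]
      apply sum_congr rfl
      intro x _
      rw [sum_comm]
      apply sum_congr rfl
      intro y _
      rw [sum_comm]
      apply sum_congr rfl
      intro z _
      rw [sum_mul]
    rw [e, mul_sum]
    apply sum_le_sum
    intro x _
    rw [mul_sum]
    apply sum_le_sum
    intro y _
    rw [mul_sum]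
    apply sum_le_sum
    intro z _
    have hc : ∑ v, P v x * P v y * P v z ≤ a := by
      rw [← hrow x]
      apply sum_le_sum
      intro v _
      rw [hPs x v]
      calc P v x * P v y * P v z = P v x * (P v y * P v z) := by ring
        _ ≤ P v x * 1 := mul_le_mul_of_nonneg_left
            (mul_le_one₀ (hP1 v y) (hP0 v z) (hP1 v z)) (hP0 v x)
        _ = P v x := mul_one _
    exact mul_le_mul_of_nonneg_right hc (mul_nonneg (mul_nonneg (hQ0 x y) (hQ0 y z)) (hQ0 z x))
  -- combine
  have h4 : ∑ v, (2 * (o v) ^ 2 - a ^ 2 * o v) ≤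
      a ^ 2 * ∑ v, ∑ x, ∑ y, Q v x * Q x y * Q y v := by
    calc ∑ v, (2 * (o v) ^ 2 - a ^ 2 * o v) ≤ ∑ v, a * t v := sum_le_sum (fun v _ => h2 v)
      _ = a * ∑ v, t v := by rw [mul_sum]
      _ ≤ a * (a * ∑ v, ∑ x, ∑ y, Q v x * Q x y * Q y v) := mul_le_mul_of_nonneg_left h3 ha.le
      _ = _ := by ring
  have h5 : ∑ v, (∑ x, ∑ y, P v x * P x y * P y v + o v) ≤ ∑ _v : V, (a ^ 2 - a) :=
    sum_le_sum (fun v _ => h1 v)
  rw [sum_add_distrib, sum_const, card_univ, nsmul_eq_mul] at h5
  have h6 : ∑ v, (2 * a ^ 2 * o v - (2 * (o v) ^ 2)) ≤ ∑ _v : V, a ^ 4 / 2 := by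
    apply sum_le_sum
    intro v _
    nlinarith [sq_nonneg (2 * o v - a ^ 2)]
  rw [sum_const, card_univ, nsmul_eq_mul] at h6
  have e7 : ∑ v, (2 * a ^ 2 * o v - (2 * (o v) ^ 2)) =
      a ^ 2 * ∑ v, o v - ∑ v, (2 * (o v) ^ 2 - a ^ 2 * o v) := by
    rw [mul_sum, ← sum_sub_distrib]
    apply sum_congr rfl
    intro v _
    ring
  rw [e7] at h6
  show 2 * (∑ v, ∑ x, ∑ y, P v x * P x y * P y v) + 3 * (∑ v, o v) -
    (∑ v, ∑ x, ∑ y, Q v x * Q x y * Q y v) ≤ _
  have ha2 : 0 < a ^ 2 := by positivity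
  have h8 : a ^ 2 * (∑ v, o v - ∑ v, ∑ x, ∑ y, Q v x * Q x y * Q y v) ≤
      a ^ 2 * ((Fintype.card V : ℝ) * (a ^ 2 / 2)) := by nlinarith
  have h9 := le_of_mul_le_mul_left h8 ha2
  nlinarith

end goodman

/-- The upper bound for three-colour flip sequences. -/
theorem upper {a : Fin 3 → ℕ} (h : IsFlipSequence a) :
    4 * (a 2 : ℝ) ≤ 5 * (a 0 : ℝ) ^ 2 - 16 := by
  obtain ⟨hmono, hpos, V, hfin, hne, G, f, hdeg, hflip⟩ := h
  have : Fintype V := Fintype.ofFinite V
  let P : V → V → ℝ := ind G f 0
  let Q : V → V → ℝ := fun x y => ind G f 1 x y + ind G f 2 x y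
  have hA : ∀ x y, adjI G x y = P x y + Q x y := by
    intro x y
    rw [← sum_ind G f x y, Fin.sum_univ_three]
    show _ = ind G f 0 x y + (ind G f 1 x y + ind G f 2 x y)
    ring
  have hA1 : ∀ x y, adjI G x y ≤ 1 := by
    intro x y
    unfold adjI
    split_ifs <;> norm_num
  have hP : ∀ x y, P x y = 0 ∨ P x y = 1 := by
    intro x y
    show ind G f 0 x y = 0 ∨ ind G f 0 x y = 1
    unfold ind
    split_ifs
    · exact Or.inr rfl
    · exact Or.inl rfl
  have hQ : ∀ x y, Q x y = 0 ∨ Q x y = 1 := by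
    intro x y
    show ind G f 1 x y + ind G f 2 x y = 0 ∨ ind G f 1 x y + ind G f 2 x y = 1
    unfold ind
    by_cases h1 : G.Adj x y ∧ f s(x, y) = 1
    · have h2 : ¬ (G.Adj x y ∧ f s(x, y) = 2) := by
        rintro ⟨-, h2⟩
        rw [h1.2] at h2
        exact absurd h2 (by decide)
      rw [if_pos h1, if_neg h2]
      right
      norm_num
    · by_cases h2 : G.Adj x y ∧ f s(x, y) = 2
      · rw [if_neg h1, if_pos h2]
        right
        norm_num
      · rw [if_neg h1, if_neg h2]
        left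
        norm_num
  have hPs : ∀ x y, P x y = P y x := ind_symm G f 0
  have hQs : ∀ x y, Q x y = Q y x := by
    intro x y
    show ind G f 1 x y + ind G f 2 x y = ind G f 1 y x + ind G f 2 y x
    rw [ind_symm G f 1, ind_symm G f 2]
  have hd : ∀ x, P x x + Q x x = 0 := by
    intro x
    rw [← hA]
    simp [adjI]
  have ha : (0 : ℝ) < a 0 := by exact_mod_cast hpos 0
  have hrow : ∀ x, ∑ y, P x y = (a 0 : ℝ) := by
    intro x
    show ∑ y, ind G f 0 x y = _
    rw [sum_ind_row, hdeg]
  have hmain := main_ineq P Q hP hQ (fun x y => by rw [← hA]; exact hA1 x y) hPs hQs hd (a 0)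
    ha hrow
  -- the local inequalities
  have hloc : ∀ v, (2 * a 1 + 2 * a 2 + 6 : ℝ) +
      ∑ x, ∑ y, adjI G v x * Q x y * adjI G y v ≤
      4 * a 0 + 2 * ∑ x, ∑ y, adjI G v x * P x y * adjI G y v := by
    intro v
    have h01 := hflip v 0 1 (by decide)
    have h12 := hflip v 1 2 (by decide)
    have k0 := two_closedCount G f v 0
    have k1 := two_closedCount G f v 1
    have k2 := two_closedCount G f v 2
    rw [hdeg] at k0 k1 k2
    have h01' : (closedCount G f v 1 : ℝ) + 1 ≤ closedCount G f v 0 := by exact_mod_cast h01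
    have h12' : (closedCount G f v 2 : ℝ) + 1 ≤ closedCount G f v 1 := by exact_mod_cast h12
    have e : ∑ x, ∑ y, adjI G v x * Q x y * adjI G y v =
        ∑ x, ∑ y, adjI G v x * ind G f 1 x y * adjI G y v +
        ∑ x, ∑ y, adjI G v x * ind G f 2 x y * adjI G y v := by
      rw [← sum_add_distrib]
      apply sum_congr rfl
      intro x _
      rw [← sum_add_distrib]
      apply sum_congr rfl
      intro y _
      show adjI G v x * (ind G f 1 x y + ind G f 2 x y) * adjI G y v = _
      ring
    rw [e]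
    have e0 : ∑ x, ∑ y, adjI G v x * P x y * adjI G y v =
      ∑ x, ∑ y, adjI G v x * ind G f 0 x y * adjI G y v := rfl
    rw [e0]
    linarith
  have hsum := sum_le_sum (fun v (_ : v ∈ (univ : Finset V)) => hloc v)
  simp only [sum_add_distrib, sum_const, ← mul_sum, card_univ, nsmul_eq_mul] at hsum
  -- expand the triple sums
  have T : ∀ M : V → V → ℝ, ∑ v, ∑ x, ∑ y, adjI G v x * M x y * adjI G y v =
      ∑ v, ∑ x, ∑ y, P v x * M x y * P y v + ∑ v, ∑ x, ∑ y, P v x * M x y * Q y v +
      ∑ v, ∑ x, ∑ y, Q v x * M x y * P y v + ∑ v, ∑ x, ∑ y, Q v x * M x y * Q y v := by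
    intro M
    simp only [← sum_add_distrib]
    apply sum_congr rfl
    intro v _
    apply sum_congr rfl
    intro x _
    apply sum_congr rfl
    intro y _
    rw [hA, hA]
    ring
  rw [T P, T Q] at hsum
  have r1 := rot P P Q
  have r2 := rot Q P P
  have r3 := rot Q P Q
  have r4 := rot P Q Q
  have hn : (0 : ℝ) < Fintype.card V := by exact_mod_cast Fintype.card_pos
  have h10 : (Fintype.card V : ℝ) * (2 * a 1 + 2 * a 2 + 6) ≤
      (Fintype.card V : ℝ) * (4 * a 0 + (5 / 2 * (a 0 : ℝ) ^ 2 - 2 * a 0)) := by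
    nlinarith
  have h11 := le_of_mul_le_mul_left h10 hn
  have h12 : (a 0 : ℝ) + 1 ≤ a 1 := by
    exact_mod_cast hmono (show (0 : Fin 3) < 1 by decide)
  linarith

end Q131.Flip
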