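import Mathlib

open Set TopologicalSpace Metric

noncomputable section

namespace Q131.IrrDist

/-- The Euclidean plane. -/
abbrev Pl := EuclideanSpace ℝ (Fin 2)

/-- the point `(3k, 0)` -/
def ctr (k : ℕ) : Pl := EuclideanSpace.single 0 (3 * (k : ℝ))

/-- disjoint discs -/
def D (k : ℕ) : Set Pl := ball (ctr k) 1

lemma dist_ctr (j k : ℕ) : dist (ctr j) (ctr k) = 3 * |(j : ℝ) - k| := by
  unfold ctr
  rw [EuclideanSpace.dist_single_same, Real.dist_eq, ← mul_sub, abs_mul]
  norm_num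

lemma D_disj {j k : ℕ} (h : j ≠ k) {x : Pl} (hj : x ∈ D j) : x ∉ D k := by
  intro hk
  have h1 : dist (ctr j) (ctr k) ≤ dist x (ctr j) + dist x (ctr k) := dist_triangle_left _ _ _
  have h2 : dist x (ctr j) < 1 := hj
  have h3 : dist x (ctr k) < 1 := hk
  rw [dist_ctr] at h1
  have h4 : (1 : ℝ) ≤ |(j : ℝ) - k| := by
    rcases lt_or_gt_of_ne h with h5 | h5
    · have : (j : ℝ) + 1 ≤ k := by exact_mod_cast h5
      rw [abs_sub_comm, abs_of_nonneg (by linarith)]
      linarith
    · have : (k : ℝ) + 1 ≤ j := by exact_mod_cast h5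
      rw [abs_of_nonneg (by linarith)]
      linarith
  linarith

lemma D_open (k : ℕ) : IsOpen (D k) := isOpen_ball

lemma D_nonempty (k : ℕ) : (D k).Nonempty := ⟨ctr k, mem_ball_self one_pos⟩

/-- the complement of the discs -/
def C : Set Pl := {x | ∀ k, x ∉ D k}

/-- points of the `k`-th disc at rational distance from `p` -/
def R (k : ℕ) (p : Pl) : Set Pl := {x | x ∈ D k ∧ ∃ q : ℚ, dist x p = q}

/-- Points at rational distance from `p` are dense. -/
lemma rat_dense (p : Pl) {U : Set Pl} (hU : IsOpen U) (hne : U.Nonempty) :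
    ∃ x ∈ U, ∃ q : ℚ, dist x p = q := by
  obtain ⟨y, hy⟩ := hne
  obtain ⟨r, hr, hball⟩ := Metric.isOpen_iff.1 hU y hy
  by_cases hyp : y = p
  · exact ⟨y, hy, 0, by simp [hyp]⟩
  · have hd : 0 < dist y p := dist_pos.2 hyp
    obtain ⟨q, hq1, hq2⟩ := exists_rat_btwn (show dist y p < dist y p + min r (dist y p) / 2 by
      have := lt_min hr hd
      linarith)
    set t : ℝ := (q : ℝ) / dist y p with ht
    refine ⟨p + t • (y - p), hball ?_, q, ?_⟩
    · rw [mem_ball, dist_eq_norm]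
      have h1 : p + t • (y - p) - y = (t - 1) • (y - p) := by
        rw [sub_smul, one_smul]; abel
      have h0 : ‖y - p‖ = dist y p := (dist_eq_norm y p).symm
      rw [h1, norm_smul, h0, Real.norm_eq_abs]
      have h2 : t - 1 = (q - dist y p) / dist y p := by rw [ht]; field_simp
      rw [h2, abs_div, abs_of_pos hd, div_mul_cancel₀ _ hd.ne', abs_of_pos (by linarith)]
      have : min r (dist y p) ≤ r := min_le_left _ _
      linarith
    · have h0 : ‖y - p‖ = dist y p := (dist_eq_norm y p).symm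
      rw [dist_eq_norm, add_sub_cancel_left, norm_smul, h0, Real.norm_eq_abs,
        abs_of_pos (by rw [ht]; exact div_pos (by linarith) hd), ht, div_mul_cancel₀ _ hd.ne']

lemma R_nonempty (k : ℕ) (p : Pl) : (R k p).Nonempty := by
  obtain ⟨x, hx, hq⟩ := rat_dense p (D_open k) (D_nonempty k)
  exact ⟨x, hx, hq⟩

lemma C_nonempty : C.Nonempty := by
  refine ⟨EuclideanSpace.single 1 (5 : ℝ), fun k hk => ?_⟩
  have h1 : dist (EuclideanSpace.single 1 (5 : ℝ) : Pl) (ctr k) < 1 := hk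
  have h2 : dist ((EuclideanSpace.single 1 (5 : ℝ) : Pl) 1) ((ctr k) 1) ≤
      dist (EuclideanSpace.single 1 (5 : ℝ) : Pl) (ctr k) := by
    rw [EuclideanSpace.dist_eq]
    apply Real.le_sqrt_of_sq_le
    rw [Fin.sum_univ_two]
    have := sq_nonneg (dist ((EuclideanSpace.single 1 (5 : ℝ) : Pl) 0) ((ctr k) 0))
    linarith
  have h3 : dist ((EuclideanSpace.single 1 (5 : ℝ) : Pl) 1) ((ctr k) 1) = 5 := by
    unfold ctr
    simp [Real.dist_eq]
  linarith

/-- A sequence in a nonempty subset of the plane that is dense in it. -/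
lemma exists_seq (A : Set Pl) (hA : A.Nonempty) :
    ∃ f : ℕ → Pl, (∀ n, f n ∈ A) ∧ ∀ U : Set Pl, IsOpen U → (U ∩ A).Nonempty → ∃ n, f n ∈ U := by
  have : Nonempty A := hA.to_subtype
  refine ⟨fun n => (denseSeq A n : Pl), fun n => (denseSeq A n).2, fun U hU ⟨a, haU, haA⟩ => ?_⟩
  have hd : DenseRange (denseSeq A) := denseRange_denseSeq A
  have hU' : IsOpen ((fun x : A => (x : Pl)) ⁻¹' U) := hU.preimage continuous_subtype_val
  obtain ⟨n, hn⟩ := hd.exists_mem_open hU' ⟨⟨a, haA⟩, haU⟩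
  exact ⟨n, hn⟩

def e : ℕ → Pl := Classical.choose (exists_seq C C_nonempty)
lemma e_mem (n : ℕ) : e n ∈ C := (Classical.choose_spec (exists_seq C C_nonempty)).1 n
lemma e_dense {U : Set Pl} (hU : IsOpen U) (h : (U ∩ C).Nonempty) : ∃ n, e n ∈ U :=
  (Classical.choose_spec (exists_seq C C_nonempty)).2 U hU h

def g (k : ℕ) (p : Pl) : ℕ → Pl := Classical.choose (exists_seq (R k p) (R_nonempty k p))
lemma g_mem (k : ℕ) (p : Pl) (n : ℕ) : g k p n ∈ R k p :=
  (Classical.choose_spec (exists_seq (R k p) (R_nonempty k p))).1 n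
lemma g_dense (k : ℕ) (p : Pl) {U : Set Pl} (hU : IsOpen U) (h : (U ∩ D k).Nonempty) :
    ∃ n, g k p n ∈ U := by
  have h1 : (U ∩ R k p).Nonempty := by
    obtain ⟨x, hx, hq⟩ := rat_dense p (hU.inter (D_open k)) h
    exact ⟨x, hx.1, hx.2, hq⟩
  exact (Classical.choose_spec (exists_seq (R k p) (R_nonempty k p))).2 U hU h1

/-- the sequence, by strong recursion: index `n` codes a pair `(a, b)`; for `a = 0` take the
`b`-th point of the complement, for `a = k + 1` the `b`-th point of the disc `D k` at rational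
distance from the `k`-th term. -/
def xs (n : ℕ) : Pl :=
  if h : (Nat.unpair n).1 = 0 then e (Nat.unpair n).2
  else
    have : (Nat.unpair n).1 - 1 < n := by
      have h1 : (Nat.unpair n).1 ≤ n := Nat.unpair_left_le n
      omega
    g ((Nat.unpair n).1 - 1) (xs ((Nat.unpair n).1 - 1)) (Nat.unpair n).2
termination_by n

lemma xs_zero (b : ℕ) : xs (Nat.pair 0 b) = e b := by
  rw [xs]
  simp [Nat.unpair_pair]

lemma xs_succ (k b : ℕ) : xs (Nat.pair (k + 1) b) = g k (xs k) b := by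
  rw [xs]
  simp [Nat.unpair_pair]

lemma xs_cases (n : ℕ) : (∃ b, xs n = e b) ∨ (∃ k b, k < n ∧ xs n = g k (xs k) b) := by
  have h := Nat.pair_unpair n
  rcases Nat.eq_zero_or_pos (Nat.unpair n).1 with h0 | h0
  · left
    refine ⟨(Nat.unpair n).2, ?_⟩
    rw [← xs_zero, ← h0, h]
  · right
    obtain ⟨k, hk⟩ : ∃ k, (Nat.unpair n).1 = k + 1 := ⟨(Nat.unpair n).1 - 1, by omega⟩
    refine ⟨k, (Nat.unpair n).2, ?_, ?_⟩
    · have h1 : (Nat.unpair n).1 ≤ n := Nat.unpair_left_le n
      omega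
    · rw [← xs_succ, ← hk, h]

/-- The `k`-th term is not in the `k`-th disc. -/
lemma xs_notMem (k : ℕ) : xs k ∉ D k := by
  rcases xs_cases k with ⟨b, hb⟩ | ⟨j, b, hj, hb⟩
  · rw [hb]; exact e_mem b k
  · rw [hb]
    exact D_disj hj.ne (g_mem j (xs j) b).1

/-- All terms in the `k`-th disc are at rational distance from the `k`-th term. -/
lemma xs_rat (k n : ℕ) (h : xs n ∈ D k) : ∃ q : ℚ, dist (xs n) (xs k) = q := by
  rcases xs_cases n with ⟨b, hb⟩ | ⟨j, b, hj, hb⟩
  · exact absurd h (by rw [hb]; exact e_mem b k)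
  · have h1 := g_mem j (xs j) b
    rw [← hb] at h1
    have : j = k := by
      by_contra hne
      exact D_disj hne h1.1 h
    subst this
    exact h1.2

lemma xs_dense : DenseRange xs := by
  rw [DenseRange, dense_iff_inter_open]
  intro U hU hne
  by_cases h : ∃ k, (U ∩ D k).Nonempty
  · obtain ⟨k, hk⟩ := h
    obtain ⟨b, hb⟩ := g_dense k (xs k) hU hk
    exact ⟨_, hb, ⟨Nat.pair (k + 1) b, xs_succ k b⟩⟩
  · push Not at h
    obtain ⟨x, hx⟩ := hne
    have hxC : x ∈ C := fun k hk => by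
      have := h k
      exact (this ▸ (⟨hx, hk⟩ : x ∈ U ∩ D k) : x ∈ (∅ : Set Pl))
    obtain ⟨b, hb⟩ := e_dense hU ⟨x, hx, hxC⟩
    exact ⟨_, hb, ⟨Nat.pair 0 b, xs_zero b⟩⟩

/-- The key property of the set of terms. -/
lemma key (p : Pl) (hp : p ∈ range xs) :
    ∃ B : Set Pl, IsOpen B ∧ B.Nonempty ∧ p ∉ B ∧ ∀ x ∈ range xs, x ∈ B → ∃ q : ℚ, dist x p = q := by
  obtain ⟨k, rfl⟩ := hp
  refine ⟨D k, D_open k, D_nonempty k, xs_notMem k, ?_⟩
  rintro _ ⟨n, rfl⟩ hn
  exact xs_rat k n hn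

lemma range_infinite : (range xs).Infinite := by
  intro hf
  have h1 : range xs = univ := by
    have := xs_dense.closure_range
    rwa [hf.isClosed.closure_eq] at this
  rw [h1] at hf
  exact Set.infinite_univ hf

/-- There is an injective dense sequence in the plane such that every dense subsequence has two
distinct terms at rational distance. -/
theorem main : ∃ x : ℕ → Pl, Function.Injective x ∧ DenseRange x ∧
    ∀ φ : ℕ → ℕ, StrictMono φ → DenseRange (x ∘ φ) →
      ∃ k l, x (φ k) ≠ x (φ l) ∧ ∃ q : ℚ, dist (x (φ k)) (x (φ l)) = q := by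
  have : Infinite (range xs) := range_infinite.to_subtype
  have : Countable (range xs) := (countable_range xs).to_subtype
  obtain ⟨hd⟩ := nonempty_denumerable (range xs)
  let eq : ℕ ≃ range xs := (Denumerable.eqv (range xs)).symm
  refine ⟨fun n => (eq n : Pl), ?_, ?_, ?_⟩
  · intro a b hab
    exact eq.injective (Subtype.ext hab)
  · have : range (fun n => (eq n : Pl)) = range xs := by
      ext y
      constructor
      · rintro ⟨n, rfl⟩; exact (eq n).2
      · intro hy
        exact ⟨eq.symm ⟨y, hy⟩, by simp⟩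
    rw [DenseRange, this]
    exact xs_dense
  · intro φ _ hφ
    obtain ⟨B, hBo, hBn, hpB, hB⟩ := key (eq (φ 0) : Pl) (eq (φ 0)).2
    obtain ⟨k, hk⟩ := hφ.exists_mem_open hBo hBn
    refine ⟨k, 0, ?_, hB _ (eq (φ k)).2 hk⟩
    intro h
    have h' : (eq (φ k) : Pl) = (eq (φ 0) : Pl) := h
    apply hpB
    rw [← h']
    exact hk

end Q131.IrrDist
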