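import Mathlib

/-!
# The L-domination game (definitions)

Two players alternately choose vertices of a finite graph `G`.  If `S` is the set of the vertices
chosen so far, then `v` is a legal choice iff `v ∉ S` and some `w` in the closed neighbourhood
`N[v]` is adjacent to no vertex of `S`.  The game ends when there is no legal choice.  Dominator
wants few moves, Staller wants many moves.
-/

namespace Q131.LG

open Finset

section
variable {V : Type*} [Fintype V] [DecidableEq V]

/-- The legal choices in the L-domination game on `G`, when `S` is the set of the vertices chosen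
so far: the vertices `v ∉ S` such that `N[v]` contains a vertex `w` with no neighbour in `S`. -/
noncomputable def legal (G : SimpleGraph V) (S : Finset V) : Finset V := by
  classical
  exact Finset.univ.filter fun v => v ∉ S ∧ ∃ w, (w = v ∨ G.Adj v w) ∧ ∀ u ∈ S, ¬ G.Adj u w

theorem mem_legal {G : SimpleGraph V} {S : Finset V} {v : V} :
    v ∈ legal G S ↔ v ∉ S ∧ ∃ w, (w = v ∨ G.Adj v w) ∧ ∀ u ∈ S, ¬ G.Adj u w := by
  simp [legal]

/-- The number of moves of the rest of the L-domination game on `G` under optimal play, when `S`
is the set of the vertices chosen so far and the next move is made by Dominator (`dom = true`),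
who minimises the number of moves, or by Staller (`dom = false`), who maximises it. -/
noncomputable def moves (G : SimpleGraph V) (dom : Bool) (S : Finset V) : ℕ :=
  if h : (legal G S).attach.Nonempty then
    if dom then
      1 + (legal G S).attach.inf' h (fun v => moves G false (insert v.1 S))
    else
      1 + (legal G S).attach.sup' h (fun v => moves G true (insert v.1 S))
  else 0
termination_by (Finset.univ \ S).card
decreasing_by
  all_goals
    apply Finset.card_lt_card
    rw [Finset.ssubset_iff_of_subset
      (Finset.sdiff_subset_sdiff (Finset.Subset.refl _) (Finset.subset_insert _ _))]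
    exact ⟨v.1, by simpa using (mem_legal.1 v.2).1, by simp⟩

/-- `γ_Lg(G)`: the number of moves of the L-domination game on `G` when both players play
optimally and Dominator moves first. -/
noncomputable def gammaLg (G : SimpleGraph V) : ℕ := moves G true ∅

/-- The tree with the vertices `0, ..., 10` which consists of the centre `0` with three pendant
paths `0 - 1 - 4`, `0 - 2 - 5`, `0 - 3 - 6`, of a path `7 - 8 - 9 - 10` and of the edge `0 - 8`. -/
def gadget : SimpleGraph (Fin 11) :=
  SimpleGraph.fromEdgeSet {s(0, 1), s(0, 2), s(0, 3), s(1, 4), s(2, 5), s(3, 6),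
    s(7, 8), s(8, 9), s(9, 10), s(0, 8)}

/-- The graph obtained from `G` by identifying each vertex of `G` with the centre `0` of its own
copy of `gadget`. -/
def attachGadgets (G : SimpleGraph V) : SimpleGraph (V × Fin 11) where
  Adj x y := (x.1 = y.1 ∧ gadget.Adj x.2 y.2) ∨ (x.2 = 0 ∧ y.2 = 0 ∧ G.Adj x.1 y.1)
  symm := ⟨fun _ _ h => h.imp (fun h => ⟨h.1.symm, h.2.symm⟩) fun h => ⟨h.2.1, h.1, h.2.2.symm⟩⟩
  loopless := ⟨fun _ h => h.elim (fun h => gadget.loopless.irrefl _ h.2)
    fun h => G.loopless.irrefl _ h.2.2⟩

end

end Q131.LG
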