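import Pool.Agent.Q131.LGDefs

/-!
# The L-domination game on the graphs `attachGadgets G`

Staller's strategy: a (doubled) potential is attached to each pendant path of length two and to
each path with four vertices.
-/

namespace Q131.LG

open Finset

section
variable {V : Type*} [Fintype V] [DecidableEq V]

theorem moves_true_ge {G : SimpleGraph V} {S : Finset V} {k : ℕ} (hne : (legal G S).Nonempty)
    (h : ∀ v ∈ legal G S, k ≤ moves G false (insert v S)) : k + 1 ≤ moves G true S := by
  rw [moves]
  have h1 : (legal G S).attach.Nonempty := by simpa using hne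
  rw [dif_pos h1]
  simp only [if_true]
  rw [add_comm]
  apply Nat.add_le_add_left
  rw [Finset.le_inf'_iff]
  intro v _
  exact h v.1 v.2

theorem moves_false_ge {G : SimpleGraph V} {S : Finset V} {k : ℕ} {v : V} (hv : v ∈ legal G S)
    (h : k ≤ moves G true (insert v S)) : k + 1 ≤ moves G false S := by
  rw [moves]
  have h1 : (legal G S).attach.Nonempty := by simpa using ⟨v, hv⟩
  rw [dif_pos h1]
  simp only [Bool.false_eq_true, if_false]
  rw [add_comm]
  apply Nat.add_le_add_left
  exact le_trans h (Finset.le_sup' (fun v : {x // x ∈ legal G S} => moves G true (insert v.1 S))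
    (Finset.mem_attach _ ⟨v, hv⟩))

theorem card_lt {G : SimpleGraph V} {S : Finset V} {v : V} (hv : v ∈ legal G S) :
    (Finset.univ \ insert v S).card < (Finset.univ \ S).card := by
  apply Finset.card_lt_card
  rw [Finset.ssubset_iff_of_subset
    (Finset.sdiff_subset_sdiff (Finset.Subset.refl _) (Finset.subset_insert _ _))]
  exact ⟨v, by simpa using (mem_legal.1 hv).1, by simp⟩

end

/-! ### Potentials -/

/-- Twice the potential of a pendant path `0 - s - l`; the arguments say whether the centre, `s`
and `l` have been chosen. -/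
def q (f s l : Bool) : ℕ :=
  match f, s, l with
  | false, false, false => 4
  | false, true, false => 1
  | true, false, false => 3
  | true, true, false => 0
  | _, false, true => 2
  | _, true, true => 0

/-- Twice the potential of the path `a - b - c - d`; the arguments say whether the centre, `a`,
`b`, `c` and `d` have been chosen. -/
def r (f a b c d : Bool) : ℕ :=
  match a, b, c, d with
  | false, false, false, false => if f then 6 else 7
  | true, false, false, false => 6
  | false, true, false, false => 3
  | true, true, false, false => 3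
  | false, false, true, false => 3
  | true, false, true, false => 3
  | _, true, true, _ => 0
  | false, false, false, true => 5
  | true, false, false, true => 4
  | false, true, false, true => 2
  | true, true, false, true => 2
  | false, false, true, true => 3
  | true, false, true, true => 2

theorem q_s : ∀ f l : Bool, q f false l ≤ q f true l + 3 := by decide
theorem q_l : ∀ f s : Bool, q f s false ≤ q f s true + 3 := by decide
theorem q_f : ∀ s l : Bool, q false s l ≤ q true s l + 1 := by decide
theorem q_odd : ∀ f s l : Bool, q f s l % 2 = 1 →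
    l = false ∧ (s = false ∨ f = false) ∧ q f s l ≤ q f s true + 1 := by decide
theorem q_even : ∀ f s l : Bool, q f s l ≠ 0 → q f s l % 2 = 0 →
    (l = false ∧ s = false ∧ q f s l ≤ q f s true + 2) ∨
    (s = false ∧ q f s l ≤ q f true l + 2) := by decide

theorem r_a : ∀ f b c d : Bool, r f false b c d ≤ r f true b c d + 3 := by decide
theorem r_b : ∀ f a c d : Bool, r f a false c d ≤ r f a true c d + 3 ∨
    (a = false ∧ c = false ∧ f = false ∧ r f a false c d ≤ r f true true c d + 4) := by decide
theorem r_c : ∀ f a b d : Bool, r f a b false d ≤ r f a b true d + 3 ∨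
    (a = false ∧ b = false ∧ r f a b false d ≤ r f true b true d + 4) := by decide
theorem r_d : ∀ f a b c : Bool, r f a b c false ≤ r f a b c true + 3 := by decide
theorem r_f : ∀ a b c d : Bool, r false a b c d ≤ r true a b c d ∨
    (a = false ∧ b = false ∧ r false a b c d ≤ r true true b c d + 1) := by decide
theorem r_odd : ∀ f a b c d : Bool, r f a b c d % 2 = 1 →
    (a = false ∧ (b = false ∨ (c = false ∧ f = false)) ∧ r f a b c d ≤ r f true b c d + 1) ∨
    (d = false ∧ (c = false ∨ b = false) ∧ r f a b c d ≤ r f a b c true + 1) := by decide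
theorem r_even : ∀ f a b c d : Bool, r f a b c d ≠ 0 → r f a b c d % 2 = 0 →
    (a = false ∧ b = false ∧ r f a b c d ≤ r f true b c d + 2) ∨
    (d = false ∧ c = false ∧ r f a b c d ≤ r f a b c true + 2) ∨
    (b = false ∧ r f a b c d ≤ r f a true c d + 2) ∨
    (c = false ∧ r f a b c d ≤ r f a b true d + 2) := by decide

/-- Twice the potential of the state of a copy of the gadget. -/
def phi (g : Fin 11 → Bool) : ℕ :=
  q (g 0) (g 1) (g 4) + q (g 0) (g 2) (g 5) + q (g 0) (g 3) (g 6) +
    r (g 0) (g 7) (g 8) (g 9) (g 10)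

/-- Adjacency in the gadget. -/
def gb (a b : Fin 11) : Bool :=
  decide ((a, b) ∈ ([(0, 1), (0, 2), (0, 3), (1, 4), (2, 5), (3, 6), (7, 8), (8, 9), (9, 10), (0, 8),
    (1, 0), (2, 0), (3, 0), (4, 1), (5, 2), (6, 3), (8, 7), (9, 8), (10, 9), (8, 0)] :
      List (Fin 11 × Fin 11)))

theorem gb_iff : ∀ a b : Fin 11, gadget.Adj a b ↔ gb a b = true := by
  intro a b
  unfold gadget
  rw [SimpleGraph.fromEdgeSet_adj]
  simp only [Set.mem_insert_iff, Set.mem_singleton_iff]
  revert a b
  decide

/-- A sufficient condition for the legality of the choice `v` in a copy of the gadget: some `w`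
other than the centre is in `N[v]` and has no chosen neighbour. -/
def LL (g : Fin 11 → Bool) (v : Fin 11) : Prop :=
  g v = false ∧ ∃ w : Fin 11, w ≠ 0 ∧ (w = v ∨ gb v w = true) ∧ ∀ u, gb u w = true → g u = false

/-- The new state after the choice of `v`. -/
def up (g : Fin 11 → Bool) (v : Fin 11) : Fin 11 → Bool := Function.update g v true

theorem up_same (g : Fin 11 → Bool) (v : Fin 11) : up g v v = true := by simp [up]

theorem up_ne (g : Fin 11 → Bool) {v w : Fin 11} (h : w ≠ v) : up g v w = g w := by
  simp [up, h]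

/-- Neighbours in the gadget. -/
theorem nb1 : ∀ u : Fin 11, gb u 1 = true → u = 0 ∨ u = 4 := by decide
theorem nb2 : ∀ u : Fin 11, gb u 2 = true → u = 0 ∨ u = 5 := by decide
theorem nb3 : ∀ u : Fin 11, gb u 3 = true → u = 0 ∨ u = 6 := by decide
theorem nb4 : ∀ u : Fin 11, gb u 4 = true → u = 1 := by decide
theorem nb5 : ∀ u : Fin 11, gb u 5 = true → u = 2 := by decide
theorem nb6 : ∀ u : Fin 11, gb u 6 = true → u = 3 := by decide
theorem nb7 : ∀ u : Fin 11, gb u 7 = true → u = 8 := by decide
theorem nb8 : ∀ u : Fin 11, gb u 8 = true → u = 0 ∨ u = 7 ∨ u = 9 := by decide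
theorem nb9 : ∀ u : Fin 11, gb u 9 = true → u = 8 ∨ u = 10 := by decide
theorem nb10 : ∀ u : Fin 11, gb u 10 = true → u = 9 := by decide

/-- Dominator's choices: the potential drops by at most 3, or Staller has the answer 7. -/
theorem dom_step (g : Fin 11 → Bool) (v : Fin 11) (hv : g v = false) :
    phi g ≤ phi (up g v) + 3 ∨
    (LL (up g v) 7 ∧ phi g ≤ phi (up (up g v) 7) + 4) := by
  fin_cases v
  · -- centre
    have h0 : g 0 = false := hv
    have e1 := q_f (g 1) (g 4)
    have e2 := q_f (g 2) (g 5)
    have e3 := q_f (g 3) (g 6)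
    rcases r_f (g 7) (g 8) (g 9) (g 10) with e4 | ⟨h7, h8, e4⟩
    · left
      simp only [phi, up, Function.update_apply]
      simp [h0]
      omega
    · right
      refine ⟨⟨?_, 7, by decide, Or.inl rfl, ?_⟩, ?_⟩
      · simp [up, h7]
      · intro u hu
        rw [nb7 u hu]
        simp [up, h8]
      · simp only [phi, up, Function.update_apply]
        simp [h0]
        omega
  · left
    have h0 : g 1 = false := hv
    have e1 := q_s (g 0) (g 4)
    simp only [phi, up, Function.update_apply]
    simp [h0]
    omega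
  · left
    have h0 : g 2 = false := hv
    have e1 := q_s (g 0) (g 5)
    simp only [phi, up, Function.update_apply]
    simp [h0]
    omega
  · left
    have h0 : g 3 = false := hv
    have e1 := q_s (g 0) (g 6)
    simp only [phi, up, Function.update_apply]
    simp [h0]
    omega
  · left
    have h0 : g 4 = false := hv
    have e1 := q_l (g 0) (g 1)
    simp only [phi, up, Function.update_apply]
    simp [h0]
    omega
  · left
    have h0 : g 5 = false := hv
    have e1 := q_l (g 0) (g 2)
    simp only [phi, up, Function.update_apply]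
    simp [h0]
    omega
  · left
    have h0 : g 6 = false := hv
    have e1 := q_l (g 0) (g 3)
    simp only [phi, up, Function.update_apply]
    simp [h0]
    omega
  · left
    have h0 : g 7 = false := hv
    have e1 := r_a (g 0) (g 8) (g 9) (g 10)
    simp only [phi, up, Function.update_apply]
    simp [h0]
    omega
  · have h0 : g 8 = false := hv
    rcases r_b (g 0) (g 7) (g 9) (g 10) with e1 | ⟨ha, hc, hf, e1⟩
    · left
      simp only [phi, up, Function.update_apply]
      simp [h0]
      omega
    · right
      refine ⟨⟨?_, 8, by decide, Or.inr (by decide), ?_⟩, ?_⟩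
      · simp [up, ha]
      · intro u hu
        rcases nb8 u hu with h | h | h
        · rw [h]; simp [up, hf]
        · rw [h]; simp [up, ha]
        · rw [h]; simp [up, hc]
      · simp only [phi, up, Function.update_apply]
        simp [h0]
        omega
  · have h0 : g 9 = false := hv
    rcases r_c (g 0) (g 7) (g 8) (g 10) with e1 | ⟨ha, hb, e1⟩
    · left
      simp only [phi, up, Function.update_apply]
      simp [h0]
      omega
    · right
      refine ⟨⟨?_, 7, by decide, Or.inl rfl, ?_⟩, ?_⟩
      · simp [up, ha]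
      · intro u hu
        rw [nb7 u hu]
        simp [up, hb]
      · simp only [phi, up, Function.update_apply]
        simp [h0]
        omega
  · left
    have h0 : g 10 = false := hv
    have e1 := r_d (g 0) (g 7) (g 8) (g 9)
    simp only [phi, up, Function.update_apply]
    simp [h0]
    omega

/-- A choice of Staller in the pendant path `0 - s - l`. -/
theorem leg_step (g : Fin 11 → Bool) (s l : Fin 11) (hs : (s, l) = (1, 4) ∨ (s, l) = (2, 5) ∨
    (s, l) = (3, 6)) (k : ℕ) :
    (g l = false → (g s = false ∨ g 0 = false) → q (g 0) (g s) (g l) ≤ q (g 0) (g s) true + k →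
      LL g l ∧ phi g ≤ phi (up g l) + k) ∧
    (g s = false → q (g 0) (g s) (g l) ≤ q (g 0) true (g l) + k →
      LL g s ∧ phi g ≤ phi (up g s) + k) := by
  rcases hs with h | h | h <;> obtain ⟨rfl, rfl⟩ := Prod.ext_iff.1 h <;> dsimp only
  · refine ⟨fun h1 h2 h3 => ⟨⟨h1, ?_⟩, ?_⟩, fun h1 h3 => ⟨⟨h1, 4, by decide, Or.inr (by decide), ?_⟩, ?_⟩⟩
    · rcases h2 with h2 | h2
      · exact ⟨4, by decide, Or.inl rfl, fun u hu => by rw [nb4 u hu]; exact h2⟩
      · exact ⟨1, by decide, Or.inr (by decide), fun u hu => by
          rcases nb1 u hu with h | h <;> rw [h] <;> assumption⟩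
    · simp only [phi, up, Function.update_apply]
      simp
      omega
    · intro u hu
      rw [nb4 u hu]
      exact h1
    · simp only [phi, up, Function.update_apply]
      simp
      omega
  · refine ⟨fun h1 h2 h3 => ⟨⟨h1, ?_⟩, ?_⟩, fun h1 h3 => ⟨⟨h1, 5, by decide, Or.inr (by decide), ?_⟩, ?_⟩⟩
    · rcases h2 with h2 | h2
      · exact ⟨5, by decide, Or.inl rfl, fun u hu => by rw [nb5 u hu]; exact h2⟩
      · exact ⟨2, by decide, Or.inr (by decide), fun u hu => by
          rcases nb2 u hu with h | h <;> rw [h] <;> assumption⟩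
    · simp only [phi, up, Function.update_apply]
      simp
      omega
    · intro u hu
      rw [nb5 u hu]
      exact h1
    · simp only [phi, up, Function.update_apply]
      simp
      omega
  · refine ⟨fun h1 h2 h3 => ⟨⟨h1, ?_⟩, ?_⟩, fun h1 h3 => ⟨⟨h1, 6, by decide, Or.inr (by decide), ?_⟩, ?_⟩⟩
    · rcases h2 with h2 | h2
      · exact ⟨6, by decide, Or.inl rfl, fun u hu => by rw [nb6 u hu]; exact h2⟩
      · exact ⟨3, by decide, Or.inr (by decide), fun u hu => by
          rcases nb3 u hu with h | h <;> rw [h] <;> assumption⟩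
    · simp only [phi, up, Function.update_apply]
      simp
      omega
    · intro u hu
      rw [nb6 u hu]
      exact h1
    · simp only [phi, up, Function.update_apply]
      simp
      omega

theorem step7 (g : Fin 11 → Bool) (k : ℕ) (ha : g 7 = false)
    (h : g 8 = false ∨ (g 9 = false ∧ g 0 = false))
    (hr : r (g 0) (g 7) (g 8) (g 9) (g 10) ≤ r (g 0) true (g 8) (g 9) (g 10) + k) :
    LL g 7 ∧ phi g ≤ phi (up g 7) + k := by
  refine ⟨⟨ha, ?_⟩, ?_⟩
  · rcases h with h | ⟨h1, h2⟩
    · exact ⟨7, by decide, Or.inl rfl, fun u hu => by rw [nb7 u hu]; exact h⟩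
    · exact ⟨8, by decide, Or.inr (by decide), fun u hu => by
        rcases nb8 u hu with h | h | h <;> rw [h] <;> assumption⟩
  · simp only [phi, up, Function.update_apply]
    simp
    omega

theorem step10 (g : Fin 11 → Bool) (k : ℕ) (hd : g 10 = false)
    (h : g 9 = false ∨ g 8 = false)
    (hr : r (g 0) (g 7) (g 8) (g 9) (g 10) ≤ r (g 0) (g 7) (g 8) (g 9) true + k) :
    LL g 10 ∧ phi g ≤ phi (up g 10) + k := by
  refine ⟨⟨hd, ?_⟩, ?_⟩
  · rcases h with h | h
    · exact ⟨10, by decide, Or.inl rfl, fun u hu => by rw [nb10 u hu]; exact h⟩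
    · exact ⟨9, by decide, Or.inr (by decide), fun u hu => by
        rcases nb9 u hu with h' | h' <;> rw [h'] <;> assumption⟩
  · simp only [phi, up, Function.update_apply]
    simp
    omega

theorem step8 (g : Fin 11 → Bool) (k : ℕ) (hb : g 8 = false)
    (hr : r (g 0) (g 7) (g 8) (g 9) (g 10) ≤ r (g 0) (g 7) true (g 9) (g 10) + k) :
    LL g 8 ∧ phi g ≤ phi (up g 8) + k := by
  refine ⟨⟨hb, 7, by decide, Or.inr (by decide), fun u hu => by rw [nb7 u hu]; exact hb⟩, ?_⟩
  simp only [phi, up, Function.update_apply]
  simp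
  omega

theorem step9 (g : Fin 11 → Bool) (k : ℕ) (hc : g 9 = false)
    (hr : r (g 0) (g 7) (g 8) (g 9) (g 10) ≤ r (g 0) (g 7) (g 8) true (g 10) + k) :
    LL g 9 ∧ phi g ≤ phi (up g 9) + k := by
  refine ⟨⟨hc, 10, by decide, Or.inr (by decide), fun u hu => by rw [nb10 u hu]; exact hc⟩, ?_⟩
  simp only [phi, up, Function.update_apply]
  simp
  omega

/-- Staller's choices if the potential is odd. -/
theorem stal_odd (g : Fin 11 → Bool) (h : phi g % 2 = 1) :
    ∃ v, LL g v ∧ phi g ≤ phi (up g v) + 1 := by
  by_cases h1 : q (g 0) (g 1) (g 4) % 2 = 1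
  · obtain ⟨a1, a2, a3⟩ := q_odd _ _ _ h1
    exact ⟨4, (leg_step g 1 4 (by simp) 1).1 a1 a2 a3⟩
  by_cases h2 : q (g 0) (g 2) (g 5) % 2 = 1
  · obtain ⟨a1, a2, a3⟩ := q_odd _ _ _ h2
    exact ⟨5, (leg_step g 2 5 (by simp) 1).1 a1 a2 a3⟩
  by_cases h3 : q (g 0) (g 3) (g 6) % 2 = 1
  · obtain ⟨a1, a2, a3⟩ := q_odd _ _ _ h3
    exact ⟨6, (leg_step g 3 6 (by simp) 1).1 a1 a2 a3⟩
  have h4 : r (g 0) (g 7) (g 8) (g 9) (g 10) % 2 = 1 := by
    unfold phi at h
    omega
  rcases r_odd _ _ _ _ _ h4 with ⟨a1, a2, a3⟩ | ⟨a1, a2, a3⟩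
  · exact ⟨7, step7 g 1 a1 a2 a3⟩
  · exact ⟨10, step10 g 1 a1 a2 a3⟩

/-- Staller's choices if the potential is even and positive. -/
theorem stal_even (g : Fin 11 → Bool) (h0 : phi g ≠ 0) :
    ∃ v, LL g v ∧ phi g ≤ phi (up g v) + 2 := by
  by_cases h : phi g % 2 = 1
  · obtain ⟨v, h1, h2⟩ := stal_odd g h
    exact ⟨v, h1, by omega⟩
  have leg : ∀ s l : Fin 11, ((s, l) = (1, 4) ∨ (s, l) = (2, 5) ∨ (s, l) = (3, 6)) →
      q (g 0) (g s) (g l) ≠ 0 → ∃ v, LL g v ∧ phi g ≤ phi (up g v) + 2 := by
    intro s l hs hq
    by_cases ho : q (g 0) (g s) (g l) % 2 = 1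
    · obtain ⟨a1, a2, a3⟩ := q_odd _ _ _ ho
      exact ⟨l, (leg_step g s l hs 2).1 a1 a2 (by omega)⟩
    · rcases q_even _ _ _ hq (by omega) with ⟨a1, a2, a3⟩ | ⟨a1, a3⟩
      · exact ⟨l, (leg_step g s l hs 2).1 a1 (Or.inl a2) a3⟩
      · exact ⟨s, (leg_step g s l hs 2).2 a1 a3⟩
  by_cases h1 : q (g 0) (g 1) (g 4) ≠ 0
  · exact leg 1 4 (by simp) h1
  by_cases h2 : q (g 0) (g 2) (g 5) ≠ 0
  · exact leg 2 5 (by simp) h2
  by_cases h3 : q (g 0) (g 3) (g 6) ≠ 0
  · exact leg 3 6 (by simp) h3
  have h4 : r (g 0) (g 7) (g 8) (g 9) (g 10) ≠ 0 := by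
    unfold phi at h0
    omega
  have h5 : r (g 0) (g 7) (g 8) (g 9) (g 10) % 2 = 0 := by
    unfold phi at h
    omega
  rcases r_even _ _ _ _ _ h4 h5 with ⟨a1, a2, a3⟩ | ⟨a1, a2, a3⟩ | ⟨a1, a3⟩ | ⟨a1, a3⟩
  · exact ⟨7, step7 g 2 a1 (Or.inl a2) a3⟩
  · exact ⟨10, step10 g 2 a1 (Or.inl a2) a3⟩
  · exact ⟨8, step8 g 2 a1 a3⟩
  · exact ⟨9, step9 g 2 a1 a3⟩

/-! ### The whole graph -/

section
variable {V : Type*} [Fintype V] [DecidableEq V] {G : SimpleGraph V}

/-- The state of the copy `i` of the gadget. -/
def comp (S : Finset (V × Fin 11)) (i : V) : Fin 11 → Bool := fun k => decide ((i, k) ∈ S)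

omit [Fintype V] in
theorem comp_insert_same (S : Finset (V × Fin 11)) (i : V) (a : Fin 11) :
    comp (insert (i, a) S) i = up (comp S i) a := by
  funext b
  unfold comp up
  by_cases h : b = a
  · subst h
    simp
  · rw [Function.update_of_ne h]
    simp [h]

omit [Fintype V] in
theorem comp_insert_other (S : Finset (V × Fin 11)) {i j : V} (h : j ≠ i) (a : Fin 11) :
    comp (insert (i, a) S) j = comp S j := by
  funext b
  simp [comp, h]

theorem legal_of_LL {S : Finset (V × Fin 11)} {i : V} {v : Fin 11} (h : LL (comp S i) v) :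
    (i, v) ∈ legal (attachGadgets G) S := by
  rw [mem_legal]
  obtain ⟨h1, w, hw0, hw, hu⟩ := h
  refine ⟨by simpa [comp] using h1, (i, w), ?_, ?_⟩
  · rcases hw with hw | hw
    · left; rw [hw]
    · right; exact Or.inl ⟨rfl, (gb_iff _ _).2 hw⟩
  · rintro ⟨j, u⟩ hS hadj
    rcases hadj with ⟨hj, hadj⟩ | ⟨_, h0, _⟩
    · have hj' : j = i := hj
      subst hj'
      have := hu u ((gb_iff _ _).1 hadj)
      simp [comp] at this
      exact this hS
    · exact hw0 h0

/-- The doubled potential. -/
def Phi (S : Finset (V × Fin 11)) : ℕ := ∑ i, phi (comp S i)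

theorem Phi_insert (S : Finset (V × Fin 11)) (i : V) (a : Fin 11) :
    Phi (insert (i, a) S) + phi (comp S i) = Phi S + phi (up (comp S i) a) := by
  unfold Phi
  rw [← Finset.add_sum_erase _ _ (Finset.mem_univ i), ← Finset.add_sum_erase (a := i)
    (s := Finset.univ) (f := fun i => phi (comp S i)) (h := Finset.mem_univ i)]
  rw [comp_insert_same]
  have : ∑ x ∈ Finset.univ.erase i, phi (comp (insert (i, a) S) x) =
      ∑ x ∈ Finset.univ.erase i, phi (comp S x) := by
    apply Finset.sum_congr rfl
    intro x hx
    rw [comp_insert_other S (Finset.ne_of_mem_erase hx)]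
  rw [this]
  ring

/-- Staller can force at least `⌊Phi / 2⌋` moves if Dominator is to move and at least
`⌈Phi / 2⌉` moves if Staller is to move. -/
theorem main (k : ℕ) : ∀ S : Finset (V × Fin 11), (Finset.univ \ S).card ≤ k →
    Phi S / 2 ≤ moves (attachGadgets G) true S ∧
      (Phi S + 1) / 2 ≤ moves (attachGadgets G) false S := by
  induction k with
  | zero =>
    intro S hS
    have hPhi : Phi S = 0 := by
      unfold Phi
      apply Finset.sum_eq_zero
      intro i _
      by_contra hne
      obtain ⟨v, hv, _⟩ := stal_even _ hne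
      have := card_lt (legal_of_LL (G := G) hv)
      omega
    rw [hPhi]
    simp
  | succ k ih =>
    intro S hS
    constructor
    · -- Dominator moves
      by_cases h2 : Phi S / 2 = 0
      · rw [h2]
        exact Nat.zero_le _
      have hne : (legal (attachGadgets G) S).Nonempty := by
        by_contra hne
        apply h2
        have : Phi S = 0 := by
          unfold Phi
          apply Finset.sum_eq_zero
          intro i _
          by_contra hne2
          obtain ⟨v, hv, _⟩ := stal_even _ hne2
          exact hne ⟨_, legal_of_LL (G := G) hv⟩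
        rw [this]
      obtain ⟨n, hn⟩ : ∃ n, Phi S / 2 = n + 1 := ⟨Phi S / 2 - 1, by omega⟩
      rw [hn]
      apply moves_true_ge hne
      rintro ⟨i, a⟩ hv
      have hcard := card_lt hv
      have ha : comp S i a = false := by
        simpa [comp] using (mem_legal.1 hv).1
      have hP := Phi_insert S i a
      rcases dom_step (comp S i) a ha with h4 | ⟨h3, h4⟩
      · have := (ih (insert (i, a) S) (by omega)).2
        omega
      · rw [← comp_insert_same] at h3
        have hb' := legal_of_LL (G := G) h3
        have hcard2 := card_lt hb'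
        have hP2 := Phi_insert (insert (i, a) S) i 7
        rw [comp_insert_same] at hP2
        have h5 := (ih (insert (i, 7) (insert (i, a) S)) (by omega)).1
        by_cases hq0 : n = 0
        · rw [hq0]
          exact Nat.zero_le _
        obtain ⟨t, ht⟩ : ∃ t, n = t + 1 := ⟨n - 1, by omega⟩
        rw [ht]
        apply moves_false_ge hb'
        omega
    · -- Staller moves
      by_cases hodd : ∃ i, phi (comp S i) % 2 = 1
      · obtain ⟨i, hi⟩ := hodd
        obtain ⟨a, ha, h4⟩ := stal_odd _ hi
        have hv := legal_of_LL (G := G) ha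
        have hcard := card_lt hv
        have hP := Phi_insert S i a
        have h5 := (ih (insert (i, a) S) (by omega)).1
        have h6 := moves_false_ge hv h5
        refine le_trans ?_ h6
        omega
      · push Not at hodd
        by_cases h0 : ∃ i, phi (comp S i) ≠ 0
        · obtain ⟨i, hi⟩ := h0
          obtain ⟨a, ha, h4⟩ := stal_even _ hi
          have hv := legal_of_LL (G := G) ha
          have hcard := card_lt hv
          have hP := Phi_insert S i a
          have h5 := (ih (insert (i, a) S) (by omega)).1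
          have h6 := moves_false_ge hv h5
          refine le_trans ?_ h6
          have heven : Phi S % 2 = 0 := by
            unfold Phi
            rw [← Nat.dvd_iff_mod_eq_zero]
            apply Finset.dvd_sum
            intro j _
            have := hodd j
            omega
          omega
        · push Not at h0
          have : Phi S = 0 := by
            unfold Phi
            exact Finset.sum_eq_zero fun i _ => h0 i
          rw [this]
          simp

/-- `γ_Lg` of the graph obtained by attaching gadgets to `G` is at least `⌊19 |V| / 2⌋`. -/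
theorem gammaLg_attach (G : SimpleGraph V) :
    19 * Fintype.card V / 2 ≤ gammaLg (attachGadgets G) := by
  have h := (main (G := G) _ ∅ le_rfl).1
  have hP : Phi (∅ : Finset (V × Fin 11)) = 19 * Fintype.card V := by
    unfold Phi
    have : ∀ i ∈ (Finset.univ : Finset V), phi (comp (∅ : Finset (V × Fin 11)) i) = 19 := by
      intro i _
      simp [phi, comp, q, r]
    rw [Finset.sum_congr rfl this]
    simp [mul_comm]
  rw [hP] at h
  exact h

end

end Q131.LG
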