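import Pool.Agent.Q131.LGProof

/-!
# Attaching gadgets to a tree gives a tree
-/

namespace Q131.LG

open Finset

instance : DecidableRel gadget.Adj := fun a b => decidable_of_iff _ (gb_iff a b).symm

theorem gadget_degree_sum : ∑ k : Fin 11, (Finset.univ.filter fun l => gb k l = true).card = 20 := by
  decide

variable {V : Type*} [Fintype V] [DecidableEq V]

theorem attach_connected {G : SimpleGraph V} (h : G.Connected) : (attachGadgets G).Connected := by
  have h1 : ∀ i j : V, (attachGadgets G).Reachable (i, 0) (j, 0) := by
    intro i j
    obtain ⟨w⟩ := h.preconnected i j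
    let f : G →g attachGadgets G := ⟨fun i => (i, 0), fun {a b} hab => Or.inr ⟨rfl, rfl, hab⟩⟩
    exact ⟨w.map f⟩
  have adj : ∀ (i : V) (a b : Fin 11), gb a b = true →
      (attachGadgets G).Reachable (i, a) (i, b) := fun i a b hab =>
    SimpleGraph.Adj.reachable (Or.inl ⟨rfl, (gb_iff a b).2 hab⟩)
  have h2 : ∀ (i : V) (k : Fin 11), (attachGadgets G).Reachable (i, k) (i, 0) := by
    intro i k
    have r1 := adj i 1 0 (by decide)
    have r2 := adj i 2 0 (by decide)
    have r3 := adj i 3 0 (by decide)
    have r8 := adj i 8 0 (by decide)
    have r9 := (adj i 9 8 (by decide)).trans r8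
    fin_cases k
    · exact SimpleGraph.Reachable.refl _
    · exact r1
    · exact r2
    · exact r3
    · exact (adj i 4 1 (by decide)).trans r1
    · exact (adj i 5 2 (by decide)).trans r2
    · exact (adj i 6 3 (by decide)).trans r3
    · exact (adj i 7 8 (by decide)).trans r8
    · exact r8
    · exact r9
    · exact (adj i 10 9 (by decide)).trans r9
  haveI := h.nonempty
  haveI : Nonempty (V × Fin 11) := ⟨(Classical.arbitrary V, 0)⟩
  refine ⟨?_⟩
  rintro ⟨i, k⟩ ⟨j, l⟩
  exact ((h2 i k).trans (h1 i j)).trans (h2 j l).symm

theorem attach_isTree {G : SimpleGraph V} (h : G.IsTree) : (attachGadgets G).IsTree := by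
  classical
  rw [SimpleGraph.isTree_iff_connected_and_card]
  refine ⟨attach_connected h.connected, ?_⟩
  have hG := (SimpleGraph.isTree_iff_connected_and_card.1 h).2
  have hdeg : ∀ x : V × Fin 11, (attachGadgets G).degree x =
      (Finset.univ.filter fun l => gb x.2 l = true).card + if x.2 = 0 then G.degree x.1 else 0 := by
    rintro ⟨i, k⟩
    have e : (attachGadgets G).neighborFinset (i, k) =
        (Finset.univ.filter fun l => gb k l = true).map ⟨fun l => (i, l), fun a b hab => by
          simpa using hab⟩ ∪
        (if k = 0 then (G.neighborFinset i).map ⟨fun j => (j, (0 : Fin 11)), fun a b hab => by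
          simpa using hab⟩ else ∅) := by
      ext ⟨j, l⟩
      rw [SimpleGraph.mem_neighborFinset, Finset.mem_union]
      constructor
      · rintro (⟨h1, h2⟩ | ⟨h1, h2, h3⟩)
        · left
          have h1' : i = j := h1
          subst h1'
          simpa using (gb_iff _ _).1 h2
        · right
          have h1' : k = 0 := h1
          have h2' : l = 0 := h2
          subst h1'
          subst h2'
          simpa using h3
      · rintro (h1 | h1)
        · left
          simp only [Finset.mem_map, Finset.mem_filter, Finset.mem_univ, true_and,
            Function.Embedding.coeFn_mk, Prod.mk.injEq] at h1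
          obtain ⟨l', h2, h3, h4⟩ := h1
          subst h4
          exact ⟨h3, (gb_iff _ _).2 h2⟩
        · by_cases hk : k = 0
          · rw [if_pos hk] at h1
            simp only [Finset.mem_map, SimpleGraph.mem_neighborFinset,
              Function.Embedding.coeFn_mk, Prod.mk.injEq] at h1
            obtain ⟨j', h2, h3, h4⟩ := h1
            subst h3
            exact Or.inr ⟨hk, h4.symm, h2⟩
          · rw [if_neg hk] at h1
            simp at h1
    have hdisj : Disjoint ((Finset.univ.filter fun l => gb k l = true).map
        ⟨fun l => (i, l), fun a b hab => by simpa using hab⟩)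
        (if k = 0 then (G.neighborFinset i).map ⟨fun j => (j, (0 : Fin 11)), fun a b hab => by
          simpa using hab⟩ else ∅) := by
      rw [Finset.disjoint_left]
      rintro ⟨j, l⟩ h1 h2
      simp only [Finset.mem_map, Finset.mem_filter, Finset.mem_univ, true_and,
        Function.Embedding.coeFn_mk, Prod.mk.injEq] at h1
      obtain ⟨l', _, h3, _⟩ := h1
      by_cases hk : k = 0
      · rw [if_pos hk] at h2
        simp only [Finset.mem_map, SimpleGraph.mem_neighborFinset,
          Function.Embedding.coeFn_mk, Prod.mk.injEq] at h2
        obtain ⟨j', h4, h5, _⟩ := h2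
        subst h5
        subst h3
        exact G.loopless.irrefl _ h4
      · rw [if_neg hk] at h2
        simp at h2
    rw [← SimpleGraph.card_neighborFinset_eq_degree, e, Finset.card_union_of_disjoint hdisj,
      Finset.card_map]
    congr 1
    by_cases hk : k = 0
    · simp [hk]
    · simp [hk]
  have hsum := SimpleGraph.sum_degrees_eq_twice_card_edges (attachGadgets G)
  have hsumG := SimpleGraph.sum_degrees_eq_twice_card_edges G
  have h20 : ∑ x : V × Fin 11, (attachGadgets G).degree x = 20 * Fintype.card V +
      ∑ i : V, G.degree i := by
    rw [Finset.sum_congr rfl fun x _ => hdeg x, Finset.sum_add_distrib]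
    congr 1
    · rw [Fintype.sum_prod_type]
      simp only [gadget_degree_sum]
      simp [mul_comm]
    · rw [Fintype.sum_prod_type]
      apply Finset.sum_congr rfl
      intro i _
      simp
  rw [Nat.card_eq_fintype_card, Nat.card_eq_fintype_card] at hG ⊢
  rw [← SimpleGraph.edgeFinset_card] at hG ⊢
  rw [Fintype.card_prod, Fintype.card_fin]
  omega

/-- Every finite nonempty type carries a tree. -/
theorem exists_tree (V : Type) [Nonempty V] : ∃ T : SimpleGraph V, T.IsTree := by
  obtain ⟨T, _, hT⟩ := (SimpleGraph.connected_top (V := V)).exists_isTree_le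
  exact ⟨T, hT⟩

end Q131.LG
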