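import Mathlib

/-!
# The rank three matroid of a partial linear space

`Ln i` are sets of points, two different points are in at most one of them. The independent sets
are the sets of at most three points, except the triples contained in some `Ln i`.
-/

namespace Pool.Agent.Q131.LineMatroid

open Set

variable {α ι : Type}

/-- Two different points are in at most one of the sets `Ln i`. -/
def Linear (Ln : ι → Set α) : Prop :=
  ∀ i j x y, x ≠ y → x ∈ Ln i → y ∈ Ln i → x ∈ Ln j → y ∈ Ln j → i = j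

/-- Independent sets. -/
def Ind (Ln : ι → Set α) (I : Set α) : Prop :=
  I.encard ≤ 3 ∧ (I.encard = 3 → ¬ ∃ i, I ⊆ Ln i)

theorem ind_of_le_two {Ln : ι → Set α} {I : Set α} (h : I.encard ≤ 2) : Ind Ln I := by
  refine ⟨h.trans (by norm_num), fun h3 => ?_⟩
  rw [h3] at h
  exact absurd h (by norm_num)

theorem ind_empty (Ln : ι → Set α) : Ind Ln ∅ := ind_of_le_two (by simp)

theorem ind_subset {Ln : ι → Set α} {I J : Set α} (hJ : Ind Ln J) (h : I ⊆ J) : Ind Ln I := by
  refine ⟨(encard_le_encard h).trans hJ.1, fun h3 => ?_⟩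
  have hfin : I.Finite := finite_of_encard_le_coe (k := 3) h3.le
  have : I = J := hfin.eq_of_subset_of_encard_le h (by rw [h3]; exact hJ.1)
  subst this
  exact hJ.2 h3

theorem ind_aug {Ln : ι → Set α} (hL : Linear Ln) {I J : Set α} (hI : Ind Ln I)
    (hJ : Ind Ln J) (h : I.encard < J.encard) : ∃ e ∈ J, e ∉ I ∧ Ind Ln (insert e I) := by
  classical
  obtain ⟨e, heJ, heI⟩ : ∃ e ∈ J, e ∉ I := by
    by_contra hc
    push Not at hc
    exact absurd (encard_le_encard (show J ⊆ I from hc)) (not_le.mpr h)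
  have hI2 : I.encard ≤ 2 := by
    have h1 : I.encard < 3 := lt_of_lt_of_le h hJ.1
    have : I.encard + 1 ≤ 3 := by
      rwa [ENat.add_one_le_iff (ne_top_of_lt h1)]
    have h2 : I.encard + 1 ≤ 2 + 1 := by
      calc I.encard + 1 ≤ 3 := this
        _ = 2 + 1 := by norm_num
    exact (ENat.add_le_add_iff_right (by norm_num)).mp h2
  rcases hI2.lt_or_eq with hlt | heq
  · refine ⟨e, heJ, heI, ind_of_le_two ?_⟩
    rw [encard_insert_of_notMem heI]
    have h1 : I.encard + 1 ≤ 2 := by rwa [ENat.add_one_le_iff (ne_top_of_lt hlt)]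
    exact h1
  · have hJ3 : J.encard = 3 := by
      apply le_antisymm hJ.1
      rw [heq] at h
      have : (2 : ℕ∞) + 1 ≤ J.encard := by rwa [ENat.add_one_le_iff (by norm_num)]
      calc (3 : ℕ∞) = 2 + 1 := by norm_num
        _ ≤ _ := this
    by_contra hc
    push Not at hc
    obtain ⟨x, y, hxy, rfl⟩ := encard_eq_two.mp heq
    have key : ∀ e ∈ J, e ∉ ({x, y} : Set α) → ∃ i, e ∈ Ln i ∧ x ∈ Ln i ∧ y ∈ Ln i := by
      intro e he he'
      have h1 := hc e he he'
      have h3 : (insert e ({x, y} : Set α)).encard = 3 := by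
        rw [encard_insert_of_notMem he', heq]; norm_num
      unfold Ind at h1
      push Not at h1
      obtain ⟨-, i, hi⟩ := h1 h3.le
      exact ⟨i, hi (by simp), hi (by simp), hi (by simp)⟩
    obtain ⟨i, -, hxi, hyi⟩ := key e heJ heI
    refine hJ.2 hJ3 ⟨i, fun z hz => ?_⟩
    by_cases hz' : z ∈ ({x, y} : Set α)
    · rcases hz' with rfl | rfl
      · exact hxi
      · exact hyi
    · obtain ⟨j, hj, hxj, hyj⟩ := key z hz hz'
      rw [hL i j x y hxy hxi hyi hxj hyj]
      exact hj

/-- The matroid. -/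
def mat (Ln : ι → Set α) (hL : Linear Ln) : Matroid α :=
  (IndepMatroid.ofBddAugment Set.univ (Ind Ln) (ind_empty Ln) (fun _ _ => ind_subset)
    (fun _ _ => ind_aug hL) ⟨3, fun _ h => h.1⟩ (fun _ _ => subset_univ _)).matroid

variable {Ln : ι → Set α} {hL : Linear Ln}

@[simp] theorem mat_indep {I : Set α} : (mat Ln hL).Indep I ↔ Ind Ln I := Iff.rfl

@[simp] theorem mat_E : (mat Ln hL).E = Set.univ := rfl

theorem rank_three (h : ∃ I, I.encard = 3 ∧ ¬ ∃ i, I ⊆ Ln i) : (mat Ln hL).eRank = 3 := by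
  obtain ⟨I, h3, hI⟩ := h
  rw [Matroid.eRank_def]
  apply le_antisymm
  · rw [Matroid.eRk_le_iff]
    exact fun J _ hJ => hJ.1
  · rw [Matroid.le_eRk_iff]
    exact ⟨I, subset_univ _, ⟨h3.le, fun _ => hI⟩, h3⟩

/-- Lines with at least two points are flats of rank two. -/
theorem flat_line (i : ι) (h2 : ∃ x ∈ Ln i, ∃ y ∈ Ln i, x ≠ y) :
    (mat Ln hL).IsFlat (Ln i) ∧ (mat Ln hL).eRk (Ln i) = 2 := by
  have hrk : (mat Ln hL).eRk (Ln i) = 2 := by
    apply le_antisymm
    · rw [Matroid.eRk_le_iff]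
      intro J hJ hJI
      rw [mat_indep] at hJI
      by_contra hc
      push Not at hc
      have : (2 : ℕ∞) + 1 ≤ J.encard := by rwa [ENat.add_one_le_iff (by norm_num)]
      have h3 : J.encard = 3 := le_antisymm hJI.1 (by
        calc (3 : ℕ∞) = 2 + 1 := by norm_num
          _ ≤ _ := this)
      exact hJI.2 h3 ⟨i, hJ⟩
    · obtain ⟨x, hx, y, hy, hxy⟩ := h2
      rw [Matroid.le_eRk_iff]
      refine ⟨{x, y}, ?_, ?_, encard_pair hxy⟩
      · rintro z (rfl | rfl)
        · exact hx
        · exact hy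
      · exact ind_of_le_two (encard_pair hxy).le
  refine ⟨⟨fun I X hI hX => ?_, subset_univ _⟩, hrk⟩
  have hI2 : I.encard = 2 := by rw [hI.encard_eq_eRk, hrk]
  obtain ⟨x, y, hxy, rfl⟩ := encard_eq_two.mp hI2
  intro z hz
  by_contra hzi
  have hxi : x ∈ Ln i := hI.subset (by simp)
  have hyi : y ∈ Ln i := hI.subset (by simp)
  have hz' : z ∉ ({x, y} : Set α) := by
    rintro (rfl | rfl)
    · exact hzi hxi
    · exact hzi hyi
  have h3 : (insert z ({x, y} : Set α)).encard = 3 := by
    rw [encard_insert_of_notMem hz', encard_pair hxy]; norm_num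
  have hind : (mat Ln hL).Indep (insert z {x, y}) := by
    refine ⟨h3.le, fun _ => ?_⟩
    rintro ⟨j, hj⟩
    have : i = j := hL i j x y hxy hxi hyi (hj (by simp)) (hj (by simp))
    subst this
    exact hzi (hj (by simp))
  have := hX.mem_of_insert_indep hz hind
  exact hz' this

/-- Pairs which are in no line are flats of rank two. -/
theorem flat_pair {x y : α} (hxy : x ≠ y) (hno : ∀ i, x ∈ Ln i → y ∉ Ln i) :
    (mat Ln hL).IsFlat {x, y} ∧ (mat Ln hL).eRk {x, y} = 2 := by
  have hind : (mat Ln hL).Indep {x, y} := ind_of_le_two (encard_pair hxy).le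
  have hrk : (mat Ln hL).eRk {x, y} = 2 := by rw [hind.eRk_eq_encard, encard_pair hxy]
  refine ⟨⟨fun I X hI hX => ?_, subset_univ _⟩, hrk⟩
  have hI' : {x, y} = I := (hind.eq_of_isBasis hI).symm
  subst hI'
  intro z hz
  by_contra hz'
  have h3 : (insert z ({x, y} : Set α)).encard = 3 := by
    rw [encard_insert_of_notMem hz', encard_pair hxy]; norm_num
  have hind' : (mat Ln hL).Indep (insert z {x, y}) := by
    refine ⟨h3.le, fun _ => ?_⟩
    rintro ⟨j, hj⟩
    exact hno j (hj (by simp)) (hj (by simp))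
  exact hz' (hX.mem_of_insert_indep hz hind')

/-- `N` is isomorphic to the uniform matroid `U_{2,m}` (for `m ≥ 2`). -/
def IsLine (N : Matroid α) (m : ℕ) : Prop :=
  N.E.encard = m ∧ ∀ X ⊆ N.E, N.Indep X ↔ X.encard ≤ 2

/-- No long line as a minor. -/
theorem no_line (m : ℕ) (hm : 3 ≤ m) (hlen : ∀ i, (Ln i).encard < m)
    (hdeg : ∀ p, {i | p ∈ Ln i}.encard + {x | x ≠ p ∧ ∀ i, p ∈ Ln i → x ∉ Ln i}.encard < m)
    (N : Matroid α) (hN : N.IsMinor (mat Ln hL)) : ¬ IsLine N m := by
  classical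
  rintro ⟨hE, hI⟩
  obtain ⟨C, D, rfl⟩ := hN
  set M := mat Ln hL with hM
  obtain ⟨J, hJ⟩ := M.exists_isBasis' C
  have hcon : ∀ I, (M.contract C).Indep I ↔ M.Indep (I ∪ J) ∧ Disjoint C I := by
    intro I
    exact hJ.contract_indep_iff
  set E := ((M.contract C).delete D).E with hEdef
  have hE' : E = (M.E \ C) \ D := rfl
  have hCE : Disjoint C E := by
    rw [hE']
    exact disjoint_left.mpr fun z hz hz' => hz'.1.2 hz
  have hN : ∀ X ⊆ E, (M.Indep (X ∪ J)) ↔ X.encard ≤ 2 := by
    intro X hX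
    rw [← hI X hX, Matroid.delete_indep_iff, hcon]
    have hd : Disjoint X D := by
      rw [hE'] at hX
      exact (subset_sdiff.mp hX).2
    have hd' : Disjoint C X := hCE.mono_right hX
    simp only [hd, hd', and_true]
  have hE3 : 3 ≤ E.encard := by rw [hE]; exact_mod_cast hm
  obtain ⟨T, hTE, hT3⟩ := exists_subset_encard_eq hE3
  obtain ⟨u, v, w, huv, huw, hvw, rfl⟩ := encard_eq_three.mp hT3
  have hu : u ∈ E := hTE (by simp)
  have hv : v ∈ E := hTE (by simp)
  have hpairE : ({u, v} : Set α) ⊆ E := by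
    rintro z (rfl | rfl)
    · exact hu
    · exact hv
  have hJ1 : J.encard ≤ 1 := by
    have h1 := (hN _ hpairE).mpr (encard_pair huv).le
    have hdis : Disjoint ({u, v} : Set α) J := (hCE.mono_left hJ.subset).symm.mono_left hpairE
    have h3 : (({u, v} : Set α) ∪ J).encard ≤ 3 := h1.1
    rw [encard_union_eq hdis, encard_pair huv] at h3
    have : (2 : ℕ∞) + J.encard ≤ 2 + 1 := by
      calc (2 : ℕ∞) + J.encard ≤ 3 := h3
        _ = 2 + 1 := by norm_num
    exact (ENat.add_le_add_iff_left (by norm_num)).mp this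
  rcases encard_le_one_iff_eq.mp hJ1 with rfl | ⟨p, rfl⟩
  · -- nothing is contracted: all points are on a line
    have hline : ∀ x ∈ E, x ≠ u → x ≠ v → ∃ i, x ∈ Ln i ∧ u ∈ Ln i ∧ v ∈ Ln i := by
      intro x hx hxu hxv
      have hsub : insert x ({u, v} : Set α) ⊆ E := insert_subset hx hpairE
      have hcard : (insert x ({u, v} : Set α)).encard = 3 := by
        rw [encard_insert_of_notMem (by simp [hxu, hxv]), encard_pair huv]; norm_num
      have h1 := hN _ hsub
      rw [hcard, union_empty] at h1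
      have h4 : ¬ Ind Ln (insert x ({u, v} : Set α)) := by
        intro h
        exact absurd (h1.mp h) (by norm_num)
      unfold Ind at h4
      push Not at h4
      obtain ⟨-, i, hi⟩ := h4 hcard.le
      exact ⟨i, hi (by simp), hi (by simp), hi (by simp)⟩
    obtain ⟨i, -, hui, hvi⟩ := hline w (hTE (by simp)) huw.symm hvw.symm
    have hsub : E ⊆ Ln i := by
      intro z hz
      by_cases hzu : z = u
      · rw [hzu]; exact hui
      by_cases hzv : z = v
      · rw [hzv]; exact hvi
      obtain ⟨j, hj, huj, hvj⟩ := hline z hz hzu hzv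
      rw [hL i j u v huv hui hvi huj hvj]
      exact hj
    have := (encard_le_encard hsub).trans_lt (hlen i)
    rw [hE] at this
    exact lt_irrefl _ this
  · have hpC : p ∈ C := hJ.subset (by simp)
    have hpE : ∀ x ∈ E, x ≠ p := by
      rintro x hx rfl
      exact disjoint_left.mp hCE hpC hx
    have hno : ∀ x ∈ E, ∀ y ∈ E, x ≠ y → ¬ ∃ i, x ∈ Ln i ∧ y ∈ Ln i ∧ p ∈ Ln i := by
      rintro x hx y hy hxy ⟨i, hxi, hyi, hpi⟩
      have hsub : ({x, y} : Set α) ⊆ E := by
        rintro z (rfl | rfl)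
        · exact hx
        · exact hy
      have h1 := (hN _ hsub).mpr (encard_pair hxy).le
      have hcard : (({x, y} : Set α) ∪ {p}).encard = 3 := by
        rw [encard_union_eq, encard_pair hxy, encard_singleton]
        · norm_num
        · rw [disjoint_singleton_right]
          rintro (h | h)
          · exact hpE x hx h.symm
          · exact hpE y hy h.symm
      refine h1.2 hcard ⟨i, ?_⟩
      rintro z ((rfl | rfl) | rfl)
      · exact hxi
      · exact hyi
      · exact hpi
    let A : Set α := {x ∈ E | ∃ i, p ∈ Ln i ∧ x ∈ Ln i}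
    let B : Set α := {x ∈ E | ¬ ∃ i, p ∈ Ln i ∧ x ∈ Ln i}
    have hAB : E ⊆ A ∪ B := by
      intro x hx
      by_cases h : ∃ i, p ∈ Ln i ∧ x ∈ Ln i
      · exact Or.inl ⟨hx, h⟩
      · exact Or.inr ⟨hx, h⟩
    have hA : A.encard ≤ {i | p ∈ Ln i}.encard := by
      rcases A.eq_empty_or_nonempty with hemp | ⟨x0, hx0⟩
      · rw [hemp]; simp
      obtain ⟨i0, -⟩ := hx0.2
      have hch : ∀ x : α, ∃ i : ι, x ∈ A → p ∈ Ln i ∧ x ∈ Ln i := by
        intro x
        by_cases h : x ∈ A
        · obtain ⟨i, hi⟩ := h.2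
          exact ⟨i, fun _ => hi⟩
        · exact ⟨i0, fun h' => absurd h' h⟩
      choose f hf using hch
      refine encard_le_encard_of_injOn (f := f) (fun x hx => (hf x hx).1) ?_
      intro x hx y hy hxy
      by_contra hne
      exact hno x hx.1 y hy.1 hne ⟨f x, (hf x hx).2, hxy ▸ (hf y hy).2, (hf x hx).1⟩
    have hB : B.encard ≤ {x | x ≠ p ∧ ∀ i, p ∈ Ln i → x ∉ Ln i}.encard := by
      apply encard_le_encard
      rintro x ⟨hx, hx'⟩
      refine ⟨hpE x hx, fun i hi hxi => hx' ⟨i, hi, hxi⟩⟩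
    have h1 : E.encard ≤ A.encard + B.encard :=
      (encard_le_encard hAB).trans (encard_union_le A B)
    have h2 := (h1.trans (add_le_add hA hB)).trans_lt (hdeg p)
    rw [hE] at h2
    exact lt_irrefl _ h2

end Pool.Agent.Q131.LineMatroid
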