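import Pool.Agent.Q110.QS.HighIn

set_option autoImplicit false

/-! # Large-index point-degrees of intersecting families of subspaces -/

open Module Finset
open scoped Classical

namespace Pool.Agent.Q131.PtDeg

open Q110.QS

universe u v

theorem br_lt_pow {q m : ℕ} (hq : 2 ≤ q) : br q m < q ^ m := by
  have h := br_mul q m
  have hq' : (2 : ℤ) ≤ q := by exact_mod_cast hq
  have h0 : (0 : ℤ) ≤ br q m := Int.natCast_nonneg _
  have : (br q m : ℤ) < (q : ℤ) ^ m := by nlinarith
  exact_mod_cast this

theorem br_lt_br {q a b : ℕ} (hq : 1 ≤ q) (hab : a < b) : br q a < br q b := by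
  have h1 : br q a < br q (a + 1) := by
    unfold br
    rw [sum_range_succ]
    have : 0 < q ^ a := pow_pos (by omega) _
    omega
  exact h1.trans_le (br_mono hab)

section numeric
variable (K : Type u) [Field K] [Finite K]

omit [Finite K] in
theorem gauss_zero (a : ℕ) : gauss K a 0 = 1 := by
  unfold gauss
  rw [Nat.card_eq_one_iff_unique]
  constructor
  · constructor
    rintro ⟨W, hW⟩ ⟨W', hW'⟩
    apply Subtype.ext
    simp only
    rw [Submodule.finrank_eq_zero.1 hW, Submodule.finrank_eq_zero.1 hW']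
  · exact ⟨⟨⊥, finrank_bot K (Fin a → K)⟩⟩

/-- The number of hyperplanes. -/
theorem gauss_pred (m : ℕ) : gauss K (m + 1) m = br (Nat.card K) (m + 1) := by
  induction m with
  | zero =>
    rw [gauss_zero]
    simp [br]
  | succ m ih =>
    have h := gauss_mul K (m + 1) m
    rw [ih] at h
    have hp : 0 < br (Nat.card K) (m + 1) := br_pos (by omega)
    exact Nat.eq_of_mul_eq_mul_right hp h

theorem gauss_three {n k : ℕ} (hk : 3 ≤ k) (hn : 3 * k ≤ n) :
    br (Nat.card K) k * br (Nat.card K) k * gauss K (n - 3) (k - 3) ≤ gauss K (n - 2) (k - 2) := by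
  have hq := two_le_card K
  have h := gauss_step K (M := k) (k := k) (i := 2) (n := n) (by omega) (by omega)
  refine le_trans ?_ h
  refine Nat.mul_le_mul_right _ (Nat.mul_le_mul_right _ ?_)
  have h1 := (br_lt_pow (q := Nat.card K) (m := k) hq).le
  calc br (Nat.card K) k ≤ Nat.card K ^ k := h1
    _ = 1 * Nat.card K ^ k := (one_mul _).symm
    _ ≤ (Nat.card K - 1) * Nat.card K ^ k := Nat.mul_le_mul_right _ (by omega)

/-- The Gaussian binomial coefficient, the product of the `(q^(a-j) - 1) / (q^(b-j) - 1)`,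
`j < b`; it is `0` for `b > a`. -/
def qbinom (q a b : ℕ) : ℚ :=
  if b ≤ a then ∏ j ∈ range b, ((q : ℚ) ^ (a - j) - 1) / ((q : ℚ) ^ (b - j) - 1) else 0

theorem gauss_eq_qbinom (b : ℕ) : ∀ a : ℕ, b ≤ a →
    (gauss K a b : ℚ) = qbinom (Nat.card K) a b := by
  have hq := two_le_card K
  have hq' : (2 : ℚ) ≤ Nat.card K := by exact_mod_cast hq
  have hbr : ∀ m : ℕ, (br (Nat.card K) m : ℚ) * ((Nat.card K : ℚ) - 1) =
      (Nat.card K : ℚ) ^ m - 1 := by
    intro m
    have := br_mul (Nat.card K) m
    exact_mod_cast congrArg (Int.cast : ℤ → ℚ) this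
  induction b with
  | zero =>
    intro a _
    rw [gauss_zero, qbinom, if_pos (Nat.zero_le _)]
    simp
  | succ b ih =>
    intro a ha
    obtain ⟨a, rfl⟩ : ∃ a', a = a' + 1 := ⟨a - 1, by omega⟩
    have h1 := ih a (by omega)
    have h2 := gauss_mul K a b
    have h2' : (gauss K (a + 1) (b + 1) : ℚ) * br (Nat.card K) (b + 1) =
        br (Nat.card K) (a + 1) * gauss K a b := by exact_mod_cast h2
    rw [qbinom, if_pos (by omega)] at h1
    rw [qbinom, if_pos ha, prod_range_succ']
    have h3 : ∏ j ∈ range b, ((Nat.card K : ℚ) ^ (a + 1 - (j + 1)) - 1) /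
        ((Nat.card K : ℚ) ^ (b + 1 - (j + 1)) - 1) = gauss K a b := by
      rw [h1]
      refine prod_congr rfl fun j _ => ?_
      rw [Nat.add_sub_add_right, Nat.add_sub_add_right]
    rw [h3, Nat.sub_zero, Nat.sub_zero, ← hbr, ← hbr]
    have hb0 : (br (Nat.card K) (b + 1) : ℚ) ≠ 0 := by
      have : 1 ≤ br (Nat.card K) (b + 1) := br_pos (by omega)
      exact_mod_cast (by omega : br (Nat.card K) (b + 1) ≠ 0)
    have hq1 : (Nat.card K : ℚ) - 1 ≠ 0 := by linarith
    field_simp
    linarith

end numeric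

section family
variable {K : Type u} [Field K] [Finite K] {V : Type v} [AddCommGroup V] [Module K V]
  [FiniteDimensional K V]

omit [Finite K] [FiniteDimensional K V] in
theorem exists_sub {W : Submodule K V} {m : ℕ} (h : m ≤ finrank K W) :
    ∃ W' : Submodule K V, W' ≤ W ∧ finrank K W' = m := by
  obtain ⟨f, hf⟩ := exists_linearIndependent_of_le_finrank h
  have hf' : LinearIndependent K (fun j => (f j : V)) :=
    hf.map' W.subtype (Submodule.ker_subtype W)
  refine ⟨Submodule.span K (Set.range fun j => (f j : V)), ?_, ?_⟩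
  · rw [Submodule.span_le]
    rintro _ ⟨j, rfl⟩
    exact (f j).2
  · rw [finrank_span_eq_card hf', Fintype.card_fin]

/-- The hyperplanes of `U` which contain the point `P` but not the point `X`. -/
theorem card_hyperplanes {k : ℕ} (hk : 1 ≤ k) {U P X : Submodule K V} (hU : finrank K U = k + 1)
    (hP : finrank K P = 1) (hX : finrank K X = 1) (hPU : P ≤ U) (hXU : X ≤ U) (hPX : ¬ X ≤ P) :
    (univ.filter fun G : Submodule K V => finrank K G = k ∧ P ≤ G ∧ G ≤ U ∧ ¬ X ≤ G).card ≤
      Nat.card K ^ (k - 1) := by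
  -- the points as subspaces of `U`
  have hfr : ∀ G : Submodule K V, G ≤ U → finrank K (G.comap U.subtype) = finrank K G := by
    intro G hG
    rw [← Submodule.finrank_map_subtype_eq, Submodule.map_comap_subtype, inf_eq_right.2 hG]
  have hle : ∀ G H : Submodule K V, G ≤ U → (G.comap U.subtype ≤ H.comap U.subtype ↔ G ≤ H) := by
    intro G H hG
    constructor
    · intro h
      have := Submodule.map_mono (f := U.subtype) h
      rw [Submodule.map_comap_subtype, Submodule.map_comap_subtype, inf_eq_right.2 hG] at this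
      exact this.trans inf_le_right
    · intro h
      exact Submodule.comap_mono h
  set P' := P.comap U.subtype with hP'
  set X' := X.comap U.subtype with hX'
  have hPr : finrank K P' = 1 := by rw [hP', hfr P hPU, hP]
  have hXr : finrank K X' = 1 := by rw [hX', hfr X hXU, hX]
  have hXP' : ¬ X' ≤ P' := by
    rw [hP', hX', hle X P hXU]
    exact hPX
  have hPXr : finrank K (P' ⊔ X' : Submodule K U) = 2 := by
    rw [finrank_sup_point hXr hXP', hPr]
  have hsub : above (P' ⊔ X') k ⊆ above P' k := by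
    intro W hW
    rw [mem_above] at hW ⊢
    exact ⟨hW.1, le_sup_left.trans hW.2⟩
  have hcard : (above P' k \ above (P' ⊔ X') k).card ≤ Nat.card K ^ (k - 1) := by
    rcases (by omega : k = 1 ∨ 2 ≤ k) with h1 | h2
    · subst h1
      have : (above P' 1 \ above (P' ⊔ X') 1).card ≤ (above P' 1).card :=
        card_le_card sdiff_subset
      refine this.trans ?_
      rw [card_above P' (by omega), hPr, hU]
      show gauss K (1 + 1 - 1) (1 - 1) ≤ _
      rw [show 1 + 1 - 1 = 1 by rfl, show 1 - 1 = 0 by rfl, gauss_zero]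
      simp
    · rw [card_sdiff_of_subset hsub, card_above P' (by omega), card_above (P' ⊔ X') (by omega),
        hPr, hPXr, hU]
      obtain ⟨m, rfl⟩ : ∃ m, k = m + 2 := ⟨k - 2, by omega⟩
      rw [show m + 2 + 1 - 1 = m + 1 + 1 by omega, show m + 2 - 1 = m + 1 by omega,
        show m + 2 + 1 - 2 = m + 1 by omega, show m + 2 - 2 = m by omega, gauss_pred, gauss_pred]
      unfold br
      rw [sum_range_succ _ (m + 1)]
      omega
  refine le_trans ?_ hcard
  refine card_le_card_of_injOn (fun G => G.comap U.subtype) ?_ ?_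
  · intro G hG
    rw [mem_coe, mem_filter] at hG
    obtain ⟨_, hG1, hG2, hG3, hG4⟩ := hG
    rw [mem_coe, mem_sdiff, mem_above, mem_above]
    refine ⟨⟨by rw [hfr G hG3, hG1], (hle P G hPU).2 hG2⟩, ?_⟩
    rintro ⟨_, h⟩
    exact hG4 ((hle X G hXU).1 (le_sup_right.trans h))
  · intro G hG H hH hGH
    rw [mem_coe, mem_filter] at hG hH
    have h1 : G.comap U.subtype = H.comap U.subtype := hGH
    have h2 := congrArg (Submodule.map U.subtype) h1
    rwa [Submodule.map_comap_subtype, Submodule.map_comap_subtype, inf_eq_right.2 hG.2.2.2.1,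
      inf_eq_right.2 hH.2.2.2.1] at h2

/-- The main estimate: few points have a large degree. -/
theorem few_high {F : Finset (Submodule K V)} {k i : ℕ} (hi : 4 ≤ i) (hik : i ≤ k)
    (hn : 3 * k ≤ finrank K V) (hF : ∀ W ∈ F, finrank K W = k)
    (hI : ∀ W ∈ F, ∀ W' ∈ F, W ⊓ W' ≠ ⊥) :
    ((pts (⊤ : Submodule K V)).filter fun P =>
      gauss K (finrank K V - 2) (k - 2) +
        Nat.card K ^ (k - 1) * gauss K (finrank K V - i - 1) (k - i) < deg F P).card <
      br (Nat.card K) (i + 1) := by
  set q := Nat.card K with hqdef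
  set n := finrank K V with hndef
  have hq : 2 ≤ q := two_le_card K
  set R := gauss K (n - 2) (k - 2) + q ^ (k - 1) * gauss K (n - i - 1) (k - i) with hR
  have hfilt : ∀ T : Submodule K V, finrank K T ≤ i →
      (∀ P : Submodule K V, finrank K P = 1 → R < deg F P → P ≤ T) →
      ((pts (⊤ : Submodule K V)).filter fun P => R < deg F P).card < br q (i + 1) := by
    intro T hT hall
    have h1 : ((pts (⊤ : Submodule K V)).filter fun P => R < deg F P) ⊆ pts T := by
      intro P hP
      rw [mem_filter, mem_pts] at hP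
      exact mem_pts.2 ⟨hP.1.1, hall P hP.1.1 hP.2⟩
    have h2 := card_le_card h1
    rw [card_pts] at h2
    exact (h2.trans (br_mono hT)).trans_lt (br_lt_br (by omega) (by omega))
  by_cases hT : ∃ P0 : Submodule K V, finrank K P0 = 1 ∧ Q110.QS.Trans F P0
  · obtain ⟨P0, hP0, hT0⟩ := hT
    refine hfilt P0 (by omega) ?_
    intro P hP hh
    by_contra hn'
    have hT0P : ∀ W ∈ F, P0 ≤ W := fun W hW => point_le_of_inf_ne hP0 (hT0 W hW)
    have hle : deg F P ≤ deg F (P0 ⊔ P) :=
      deg_mono_of (fun W hW hPW => sup_le (hT0P W hW) hPW)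
    have hr := finrank_sup_point hP hn'
    have := deg_le_above hF (U := P0 ⊔ P) (by omega)
    rw [hr, hP0] at this
    have h9 : gauss K (finrank K V - (1 + 1)) (k - (1 + 1)) = gauss K (n - 2) (k - 2) := rfl
    rw [h9] at this
    omega
  push Not at hT
  have h3 := gauss_three K (n := n) (k := k) (by omega) hn
  rw [← hqdef] at h3
  have hbr2 : br q 2 = q + 1 := by simp [br, sum_range_succ]; ring
  -- a point of large degree is on a transversal line
  have hline : ∀ P : Submodule K V, finrank K P = 1 → gauss K (n - 2) (k - 2) < deg F P →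
      ∃ l : Submodule K V, finrank K l = 2 ∧ Q110.QS.Trans F l ∧ P ≤ l := by
    intro P hP hh
    have hPT := hT P hP
    unfold Q110.QS.Trans at hPT
    push Not at hPT
    obtain ⟨W0, hW0, hWP⟩ := hPT
    by_contra hno
    push Not at hno
    have hb : ∀ Q ∈ pts W0, deg F (P ⊔ Q) ≤ br q k * gauss K (n - 3) (k - 3) := by
      intro Q hQ
      obtain ⟨hQ1, hQ2⟩ := mem_pts.1 hQ
      have hQP : ¬ Q ≤ P := by
        intro h
        have h1 : Q ≤ ⊥ := by
          rw [← hWP]
          exact le_inf hQ2 h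
        rw [le_bot_iff] at h1
        rw [h1, finrank_bot] at hQ1
        omega
      have hr := finrank_sup_point hQ1 hQP
      rw [hP] at hr
      exact deg_nontrans hF hI hr (by omega) (fun h => hno _ hr h le_sup_left)
    have hc := (cover (F := F) (U := P) (T := W0) (fun W hW _ => hI W hW W0 hW0)).trans
      (sum_le_card_nsmul _ _ _ hb)
    rw [card_pts, hF W0 hW0, ← hqdef, smul_eq_mul, ← mul_assoc] at hc
    omega
  by_cases hskew : ∃ l1 l2 : Submodule K V, finrank K l1 = 2 ∧ Q110.QS.Trans F l1 ∧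
      finrank K l2 = 2 ∧ Q110.QS.Trans F l2 ∧ l1 ⊓ l2 = ⊥
  · obtain ⟨l1, l2, hr1, hT1, hr2, hT2, h12⟩ := hskew
    have hr12 := Submodule.finrank_sup_add_finrank_inf_eq l1 l2
    rw [h12, finrank_bot] at hr12
    refine hfilt (l1 ⊔ l2) (by omega) ?_
    intro P hP hh
    by_contra hPn
    have hb : ∀ Q ∈ pts l1, deg F (P ⊔ Q) ≤ (q + 1) * gauss K (n - 3) (k - 3) := by
      intro Q hQ
      obtain ⟨hQ1, hQ2⟩ := mem_pts.1 hQ
      have hQP : ¬ Q ≤ P := by
        intro h
        apply hPn
        rw [← point_eq hQ1 hP h]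
        exact hQ2.trans le_sup_left
      have hr := finrank_sup_point hQ1 hQP
      rw [hP] at hr
      have hb2 : ∀ R' ∈ pts l2, deg F (P ⊔ Q ⊔ R') ≤ gauss K (n - 3) (k - 3) := by
        intro R' hR'
        obtain ⟨hR1, hR2⟩ := mem_pts.1 hR'
        have hRPQ : ¬ R' ≤ P ⊔ Q := by
          intro h
          have hRQ : R' ≠ Q := by
            rintro rfl
            have : R' ≤ ⊥ := by rw [← h12]; exact le_inf hQ2 hR2
            rw [le_bot_iff] at this
            rw [this, finrank_bot] at hR1
            omega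
          have hQR : Q ⊔ R' = P ⊔ Q := line_eq hQ1 hR1 hr le_sup_right h hRQ.symm
          apply hPn
          have h5 : P ≤ Q ⊔ R' := by rw [hQR]; exact le_sup_left
          exact h5.trans (sup_le (hQ2.trans le_sup_left) (hR2.trans le_sup_right))
        have hr3 := finrank_sup_point hR1 hRPQ
        have := deg_le_above hF (U := P ⊔ Q ⊔ R') (by omega)
        rwa [hr3, hr] at this
      have hc := (cover (F := F) (U := P ⊔ Q) (T := l2) (fun W hW _ => hT2 W hW)).trans
        (sum_le_card_nsmul _ _ _ hb2)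
      rwa [card_pts, hr2, ← hqdef, hbr2, smul_eq_mul] at hc
    have hc := (cover (F := F) (U := P) (T := l1) (fun W hW _ => hT1 W hW)).trans
      (sum_le_card_nsmul _ _ _ hb)
    rw [card_pts, hr1, ← hqdef, hbr2, smul_eq_mul, ← mul_assoc] at hc
    have hbk : q + 1 ≤ br q k := by
      rw [← hbr2]; exact br_mono (by omega)
    have h6 : (q + 1) * (q + 1) * gauss K (n - 3) (k - 3) ≤
        br q k * br q k * gauss K (n - 3) (k - 3) :=
      Nat.mul_le_mul_right _ (Nat.mul_le_mul hbk hbk)
    omega
  push Not at hskew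
  by_cases hex : ∃ l : Submodule K V, finrank K l = 2 ∧ Q110.QS.Trans F l
  swap
  · -- no transversal line
    refine hfilt ⊥ (by simp) ?_
    intro P hP hh
    obtain ⟨l, hl1, hl2, _⟩ := hline P hP (by omega)
    exact absurd ⟨l, hl1, hl2⟩ hex
  obtain ⟨l0, hl0, hTl0⟩ := hex
  rcases concurrent_or_coplanar {l : Submodule K V | finrank K l = 2 ∧ Q110.QS.Trans F l}
    ⟨l0, hl0, hTl0⟩ (fun l hl => hl.1)
    (fun l hl l' hl' => hskew l l' hl.1 hl.2 hl'.1 hl'.2) with
    ⟨X, hX, hcon⟩ | ⟨π, hπ, hcop⟩
  swap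
  · refine hfilt π (by omega) ?_
    intro P hP hh
    obtain ⟨l, hl2, hlT, hPl⟩ := hline P hP (by omega)
    exact hPl.trans (hcop l ⟨hl2, hlT⟩)
  -- all the transversal lines pass through `X`
  set W : Submodule K V := sSup {l : Submodule K V | finrank K l = 2 ∧ Q110.QS.Trans F l} with hW
  have hPW : ∀ P : Submodule K V, finrank K P = 1 → gauss K (n - 2) (k - 2) < deg F P → P ≤ W := by
    intro P hP hh
    obtain ⟨l, hl2, hlT, hPl⟩ := hline P hP hh
    exact hPl.trans (le_sSup ⟨hl2, hlT⟩)
  rcases (by omega : finrank K W ≤ i ∨ i + 1 ≤ finrank K W) with hWi | hWi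
  · exact hfilt W hWi (fun P hP hh => hPW P hP (by omega))
  refine hfilt X (by omega) ?_
  intro P hP hh
  by_contra hPX
  have hPne : P ≠ X := fun h => hPX h.le
  have hXP : ¬ X ≤ P := fun h => hPne (point_eq hX hP h).symm
  obtain ⟨W', hW'W, hW'r⟩ := exists_sub hWi
  -- the members which contain both `P` and `X`
  have hA : deg F (P ⊔ X) ≤ gauss K (n - 2) (k - 2) := by
    have hr := finrank_sup_point hX hXP
    have := deg_le_above hF (U := P ⊔ X) (by omega)
    rwa [hr, hP] at this
  -- the others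
  have hB : (F.filter fun G => P ≤ G ∧ ¬ X ≤ G).card ≤
      q ^ (k - 1) * gauss K (n - i - 1) (k - i) := by
    have hmaps : ∀ G ∈ F.filter (fun G => P ≤ G ∧ ¬ X ≤ G), G ⊔ X ∈ above W' (k + 1) := by
      intro G hG
      rw [mem_filter] at hG
      obtain ⟨hGF, _, hXG⟩ := hG
      refine mem_above.2 ⟨?_, ?_⟩
      · rw [finrank_sup_point hX hXG, hF G hGF]
      · refine hW'W.trans (sSup_le ?_)
        rintro l ⟨hl2, hlT⟩
        obtain ⟨Q, hQ, hQ'⟩ := exists_point (hlT G hGF)
        have hne : X ≠ Q := by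
          rintro rfl
          exact hXG (hQ'.trans inf_le_left)
        rw [← line_eq hX hQ hl2 (hcon l ⟨hl2, hlT⟩) (hQ'.trans inf_le_right) hne]
        exact sup_le le_sup_right ((hQ'.trans inf_le_left).trans le_sup_left)
    have h1 := card_le_mul_card_image_of_maps_to hmaps (q ^ (k - 1)) (by
      intro U hU
      rw [mem_above] at hU
      by_cases hU' : P ≤ U ∧ X ≤ U
      · refine le_trans (card_le_card ?_) (card_hyperplanes (by omega) hU.1 hP hX hU'.1 hU'.2 hXP)
        intro G hG
        rw [mem_filter, mem_filter] at hG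
        rw [mem_filter]
        refine ⟨mem_univ _, hF G hG.1.1, hG.1.2.1, ?_, hG.1.2.2⟩
        rw [← hG.2]
        exact le_sup_left
      · have : (filter (fun G => G ⊔ X = U) (F.filter fun G => P ≤ G ∧ ¬ X ≤ G)) = ∅ := by
          rw [Finset.filter_eq_empty_iff]
          intro G hG hGU
          rw [mem_filter] at hG
          apply hU'
          rw [← hGU]
          exact ⟨hG.2.1.trans le_sup_left, le_sup_right⟩
        rw [this, card_empty]
        exact Nat.zero_le _)
    rw [card_above W' (by omega), hW'r] at h1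
    rw [show n - i - 1 = n - (i + 1) by omega, show k - i = k + 1 - (i + 1) by omega]
    exact h1
  have hsplit : deg F P ≤ deg F (P ⊔ X) + (F.filter fun G => P ≤ G ∧ ¬ X ≤ G).card := by
    unfold deg
    rw [← card_union_of_disjoint]
    · refine card_le_card ?_
      intro G hG
      rw [mem_filter] at hG
      rw [mem_union, mem_filter, mem_filter]
      by_cases hXG : X ≤ G
      · exact Or.inl ⟨hG.1, sup_le hG.2 hXG⟩
      · exact Or.inr ⟨hG.1, hG.2, hXG⟩
    · rw [Finset.disjoint_left]
      intro G hG hG'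
      rw [mem_filter] at hG hG'
      exact hG'.2.2 (le_sup_right.trans hG.2)
  omega

end family

end Pool.Agent.Q131.PtDeg
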