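import Mathlib

/-!
# Digraphs without the strong 4-vertex tournament: sums of squares of out-degrees
-/

namespace Q131.R4

open Finset

/-- No copy of the strong tournament on four vertices (in a loopless relation the four vertices
are automatically distinct). -/
def NoR4 {V : Type*} (A : V → V → Prop) : Prop :=
  ∀ w x y z, A w x → A x y → A y z → A z w → A w y → A x z → False

section structural
variable {V : Type*}

/-- A vertex adjacent to all vertices of a directed triangle dominates it or is dominated by it. -/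
theorem triangle_vertex {A : V → V → Prop} (h4 : NoR4 A) {a b c v : V} (hab : A a b)
    (hbc : A b c) (hca : A c a) (h1 : A v a ∨ A a v) (h2 : A v b ∨ A b v) (h3 : A v c ∨ A c v) :
    (A v a ∧ A v b ∧ A v c ∧ ¬ A a v ∧ ¬ A b v ∧ ¬ A c v) ∨
    (A a v ∧ A b v ∧ A c v ∧ ¬ A v a ∧ ¬ A v b ∧ ¬ A v c) := by
  have k1 := h4 a v b c
  have k2 := h4 b v c a
  have k3 := h4 c v a b
  have l1 := h4 c a v b
  have l2 := h4 a b v c
  have l3 := h4 b c v a
  have m1 := h4 b v c a
  have m2 := h4 c v a b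
  have m3 := h4 a v b c
  by_cases p1 : A v a <;> by_cases p2 : A v b <;> by_cases p3 : A v c <;>
    by_cases q1 : A a v <;> by_cases q2 : A b v <;> by_cases q3 : A c v <;> simp_all

/-- A semicomplete digraph without `R4` has a source component with at most three vertices. -/
theorem source {A : V → V → Prop} (hl : ∀ x, ¬ A x x) (h4 : NoR4 A) (R : Finset V)
    (hR : R.Nonempty) (hsc : ∀ x ∈ R, ∀ y ∈ R, x ≠ y → A x y ∨ A y x) :
    ∃ K ⊆ R, K.Nonempty ∧ K.card ≤ 3 ∧ ∀ x ∈ K, ∀ y ∈ R, A y x → y ∈ K := by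
  classical
  let P : Finset V → Prop := fun K => K ⊆ R ∧ K.Nonempty ∧ ∀ x ∈ K, ∀ y ∈ R, A y x → y ∈ K
  have hP : ∃ n, ∃ K, P K ∧ K.card = n := ⟨_, R, ⟨subset_rfl, hR, fun _ _ y hy _ => hy⟩, rfl⟩
  obtain ⟨K, ⟨hKR, hKn, hKc⟩, hcard⟩ := Nat.find_spec hP
  have hmin : ∀ K', P K' → K.card ≤ K'.card := by
    intro K' hK'
    rw [hcard]
    exact Nat.find_min' hP ⟨K', hK', rfl⟩
  refine ⟨K, hKR, hKn, ?_, hKc⟩
  by_cases ht : ∃ a ∈ K, ∃ b ∈ K, ∃ c ∈ K, A a b ∧ A b c ∧ A c a
  · obtain ⟨a, ha, b, hb, c, hc, hab, hbc, hca⟩ := ht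
    have hT : ∀ v ∈ K, v ≠ a → v ≠ b → v ≠ c →
        (A v a ∧ A v b ∧ A v c ∧ ¬ A a v ∧ ¬ A b v ∧ ¬ A c v) ∨
        (A a v ∧ A b v ∧ A c v ∧ ¬ A v a ∧ ¬ A v b ∧ ¬ A v c) := by
      intro v hv va vb vc
      exact triangle_vertex h4 hab hbc hca (hsc v (hKR hv) a (hKR ha) va)
        (hsc v (hKR hv) b (hKR hb) vb) (hsc v (hKR hv) c (hKR hc) vc)
    let O : Finset V := K.filter (fun v => A v a ∧ A v b ∧ A v c ∧ ¬ A a v ∧ ¬ A b v ∧ ¬ A c v)
    let T : Finset V := {a, b, c}
    have hTK : T ⊆ K := by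
      intro x hx
      simp only [T, mem_insert, mem_singleton] at hx
      rcases hx with rfl | rfl | rfl <;> assumption
    have hOK : O ⊆ K := filter_subset _ _
    -- `T ∪ O` is closed
    have h1 : P (T ∪ O) := by
      refine ⟨(union_subset hTK hOK).trans hKR, ⟨a, by simp [T]⟩, ?_⟩
      intro x hx y hy hyx
      have hxK : x ∈ K := (union_subset hTK hOK) hx
      have hyK : y ∈ K := hKc x hxK y hy hyx
      by_cases hyT : y ∈ T
      · exact mem_union_left _ hyT
      · apply mem_union_right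
        have hyT' : y ≠ a ∧ y ≠ b ∧ y ≠ c := by
          simpa [T] using hyT
        rcases hT y hyK hyT'.1 hyT'.2.1 hyT'.2.2 with h | h
        · exact mem_filter.2 ⟨hyK, h⟩
        · exfalso
          rcases mem_union.1 hx with hxT | hxO
          · simp only [T, mem_insert, mem_singleton] at hxT
            rcases hxT with rfl | rfl | rfl
            · exact h.2.2.2.1 hyx
            · exact h.2.2.2.2.1 hyx
            · exact h.2.2.2.2.2 hyx
          · have hxO' := (mem_filter.1 hxO).2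
            exact h4 x a b y hxO'.1 hab h.2.1 hyx hxO'.2.1 h.1
    have h2 : T ∪ O = K :=
      eq_of_subset_of_card_le (union_subset hTK hOK) (hmin _ h1)
    have h3 : O = ∅ := by
      by_contra hne
      have hP3 : P O := by
        refine ⟨hOK.trans hKR, nonempty_iff_ne_empty.2 hne, ?_⟩
        intro x hx y hy hyx
        have hyK : y ∈ K := hKc x (hOK hx) y hy hyx
        rw [← h2] at hyK
        rcases mem_union.1 hyK with hyT | hyO
        · exfalso
          have hx' := (mem_filter.1 hx).2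
          simp only [T, mem_insert, mem_singleton] at hyT
          rcases hyT with rfl | rfl | rfl
          · exact hx'.2.2.2.1 hyx
          · exact hx'.2.2.2.2.1 hyx
          · exact hx'.2.2.2.2.2 hyx
        · exact hyO
      have h4' := hmin O hP3
      have h5 : O = K := eq_of_subset_of_card_le hOK h4'
      have h6 : a ∈ O := by rw [h5]; exact ha
      exact hl a (mem_filter.1 h6).2.1
    rw [← h2, h3, union_empty]
    exact card_le_three
  · -- no triangle
    have hall : ∀ a ∈ K, ∀ x ∈ K, a ≠ x → A a x := by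
      intro a ha x hx hax
      by_contra hn
      let B : Finset V := K.filter (fun x => A x a ∧ ¬ A a x)
      have hBK : B ⊆ K := filter_subset _ _
      have hxB : x ∈ B := by
        refine mem_filter.2 ⟨hx, ?_, hn⟩
        exact (hsc a (hKR ha) x (hKR hx) hax).resolve_left hn
      have hPB : P B := by
        refine ⟨hBK.trans hKR, ⟨x, hxB⟩, ?_⟩
        intro z hz y hy hyz
        have hz' := (mem_filter.1 hz).2
        have hyK : y ∈ K := hKc z (hBK hz) y hy hyz
        have hay : ¬ A a y := fun hay =>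
          ht ⟨a, ha, y, hyK, z, hBK hz, hay, hyz, hz'.1⟩
        have hya : y ≠ a := by
          rintro rfl
          exact hz'.2 hyz
        refine mem_filter.2 ⟨hyK, ?_, hay⟩
        exact (hsc y hy a (hKR ha) hya).resolve_right hay
      have h5 : B = K := eq_of_subset_of_card_le hBK (hmin B hPB)
      have h6 : a ∈ B := by rw [h5]; exact ha
      exact hl a (mem_filter.1 h6).2.1
    by_contra hc
    push Not at hc
    obtain ⟨a, ha, b, hb, c, hc', hab, hac, hbc⟩ := two_lt_card.1 (show 2 < K.card by omega)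
    exact ht ⟨a, ha, b, hb, c, hc', hall a ha b hb hab, hall b hb c hc' hbc,
      hall c hc' a ha (Ne.symm hac)⟩

end structural

/-- The extremal value. -/
def G (m : ℕ) : ℕ :=
  if m % 3 = 0 then 12 * (m / 3) ^ 3
  else if m % 3 = 1 then 3 * (m / 3) * (2 * (m / 3) + 1) ^ 2
  else 2 * (m / 3 + 1) * (6 * (m / 3) ^ 2 + 6 * (m / 3) + 1)

theorem G0 (q : ℕ) : G (3 * q) = 12 * q ^ 3 := by
  have h1 : 3 * q % 3 = 0 := by omega
  have h2 : 3 * q / 3 = q := by omega
  simp [G]

theorem G1 (q : ℕ) : G (3 * q + 1) = 3 * q * (2 * q + 1) ^ 2 := by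
  have h1 : (3 * q + 1) % 3 = 1 := by omega
  have h2 : (3 * q + 1) / 3 = q := by omega
  simp [G, h1, h2]

theorem G2 (q : ℕ) : G (3 * q + 2) = 2 * (q + 1) * (6 * q ^ 2 + 6 * q + 1) := by
  have h1 : (3 * q + 2) % 3 = 2 := by omega
  have h2 : (3 * q + 2) / 3 = q := by omega
  simp [G, h1, h2]

/-- Correction term. -/
def cc (m : ℕ) : ℤ := if m % 3 = 0 then 0 else if m % 3 = 1 then 3 * m + 1 else 6 * m + 2

theorem G_cc (m : ℕ) : 9 * (G m : ℤ) = 4 * (m : ℤ) ^ 3 - cc m := by
  have h : m % 3 = 0 ∨ m % 3 = 1 ∨ m % 3 = 2 := by omega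
  obtain ⟨q, hq⟩ : ∃ q, q = m / 3 := ⟨_, rfl⟩
  rcases h with h | h | h
  · have hm : m = 3 * q := by omega
    have hc : cc m = 0 := by simp [cc, h]
    rw [hc, hm, G0]
    push_cast
    ring
  · have hm : m = 3 * q + 1 := by omega
    have hc : cc m = 3 * m + 1 := by simp [cc, h]
    rw [hc, hm, G1]
    push_cast
    ring
  · have hm : m = 3 * q + 2 := by omega
    have hc : cc m = 6 * m + 2 := by simp [cc, h]
    rw [hc, hm, G2]
    push_cast
    ring

theorem cc_nonneg (m : ℕ) : 0 ≤ cc m := by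
  unfold cc
  split_ifs <;> positivity

theorem cc_le (m : ℕ) : cc m ≤ 6 * m + 2 := by
  unfold cc
  split_ifs <;> omega

/-- The loss of unbalanced parts. -/
theorem loss_le (s u v : ℤ) (hu : 0 ≤ u) (hv : 0 ≤ v) (hs : 2 * u + v ≤ s) :
    (u + 2 * v) * (v - u) * (2 * u + v) ≤ 2 * s * (u ^ 2 + u * v + v ^ 2) := by
  have e1 : (u + 2 * v) * (v - u) ≤ 2 * (u ^ 2 + u * v + v ^ 2) := by
    nlinarith [mul_nonneg hu hv]
  have e2 : (u + 2 * v) * (v - u) * (2 * u + v) ≤
      2 * (u ^ 2 + u * v + v ^ 2) * (2 * u + v) :=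
    mul_le_mul_of_nonneg_right e1 (by positivity)
  have e3 : 2 * (u ^ 2 + u * v + v ^ 2) * (2 * u + v) ≤
      2 * (u ^ 2 + u * v + v ^ 2) * s :=
    mul_le_mul_of_nonneg_left hs (by positivity)
  linarith

theorem key_balanced (a r : ℕ) (ha : 0 < a) :
    cc (3 * a + r) - cc r ≤ 3 * (3 * (a : ℤ)) * (r : ℤ) ^ 2 := by
  have e1 : (3 * a + r) % 3 = r % 3 := by omega
  have h3 : r % 3 = 0 ∨ r % 3 = 1 ∨ r % 3 = 2 := by omega
  have ha' : (1 : ℤ) ≤ a := by exact_mod_cast ha
  unfold cc
  rw [e1]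
  rcases h3 with h | h | h
  · simp only [h, if_true]
    have : (0 : ℤ) ≤ 3 * (3 * (a : ℤ)) * (r : ℤ) ^ 2 := by positivity
    simpa using this
  · have hr1 : (1 : ℤ) ≤ r := by omega
    have hr2 : (1 : ℤ) ≤ (r : ℤ) ^ 2 := by nlinarith
    simp only [h]
    norm_num
    nlinarith
  · have hr1 : (2 : ℤ) ≤ r := by omega
    have hr2 : (4 : ℤ) ≤ (r : ℤ) ^ 2 := by nlinarith
    simp only [h]
    norm_num
    nlinarith

theorem key_one (s r N E cm cr : ℤ) (hs : 0 < s) (hr : 1 ≤ r) (hN : 1 ≤ N) (hE : E ≤ 2 * s * N)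
    (hcr : 0 ≤ cr) (hcm : cm ≤ 6 * s + 6 * r + 2) :
    cm - cr ≤ 3 * s * r ^ 2 + 6 * (s + 2 * r) * N - E := by
  have e4 : 3 * s * 1 ≤ 3 * s * r ^ 2 :=
    mul_le_mul_of_nonneg_left (by nlinarith) (by positivity)
  have e5 : (4 * s + 12 * r) * 1 ≤ (4 * s + 12 * r) * N :=
    mul_le_mul_of_nonneg_left hN (by positivity)
  nlinarith

theorem key_two (s N E cm : ℤ) (hs : 0 < s) (hN : 2 ≤ N) (hE : E ≤ 2 * s * N)
    (hcm : cm ≤ 6 * s + 2) : cm ≤ 6 * s * N - E := by
  have e5 : (4 * s) * 2 ≤ (4 * s) * N := mul_le_mul_of_nonneg_left hN (by positivity)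
  nlinarith

theorem key_all (a u v r : ℕ) (hs : 0 < 3 * a + 2 * u + v) :
    cc (3 * a + 2 * u + v + r) - cc r ≤
      3 * (3 * a + 2 * u + v : ℤ) * (r : ℤ) ^ 2 +
        6 * ((3 * a + 2 * u + v : ℤ) + 2 * r) * ((u : ℤ) ^ 2 + u * v + (v : ℤ) ^ 2) -
        ((u : ℤ) + 2 * v) * (v - u) * (2 * u + v) := by
  have hu0 : (0 : ℤ) ≤ u := by positivity
  have hv0 : (0 : ℤ) ≤ v := by positivity
  have ha0 : (0 : ℤ) ≤ a := by positivity
  have hs0 : (0 : ℤ) < 3 * a + 2 * u + v := by exact_mod_cast hs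
  have hE := loss_le (3 * a + 2 * u + v) u v hu0 hv0 (by linarith)
  have hcr := cc_nonneg r
  have hcm := cc_le (3 * a + 2 * u + v + r)
  push_cast at hcm
  by_cases huv : u = 0 ∧ v = 0
  · obtain ⟨rfl, rfl⟩ := huv
    have h := key_balanced a r (by omega)
    simpa using h
  · have hN : (1 : ℤ) ≤ u ^ 2 + u * v + v ^ 2 := by
      have : 0 < u ∨ 0 < v := by omega
      rcases this with h | h
      · have : (1 : ℤ) ≤ u := by exact_mod_cast h
        nlinarith [mul_nonneg hu0 hv0]
      · have : (1 : ℤ) ≤ v := by exact_mod_cast h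
        nlinarith [mul_nonneg hu0 hv0]
    by_cases hr : 1 ≤ r
    · exact key_one _ _ _ _ _ _ hs0 (by exact_mod_cast hr) hN hE hcr (by linarith)
    · have hr' : r = 0 := by omega
      subst hr'
      have hc0 : cc 0 = 0 := by simp [cc]
      rw [hc0]
      simp only [Nat.cast_zero, mul_zero, add_zero, sub_zero] at hcm ⊢
      have hz : (3 : ℤ) * (3 * a + 2 * u + v) * 0 ^ 2 = 0 := by ring
      rw [hz, zero_add]
      by_cases hN2 : (2 : ℤ) ≤ u ^ 2 + u * v + v ^ 2
      · exact key_two _ _ _ _ hs0 hN2 hE (by linarith)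
      · have hu1 : u ≤ 1 := by
          by_contra h
          push Not at h
          have : (2 : ℤ) ≤ u := by exact_mod_cast h
          nlinarith [mul_nonneg hu0 hv0]
        have hv1 : v ≤ 1 := by
          by_contra h
          push Not at h
          have : (2 : ℤ) ≤ v := by exact_mod_cast h
          nlinarith [mul_nonneg hu0 hv0]
        have hcases : (u = 0 ∧ v = 0) ∨ (u = 0 ∧ v = 1) ∨ (u = 1 ∧ v = 0) ∨ (u = 1 ∧ v = 1) := by
          omega
        rcases hcases with ⟨rfl, rfl⟩ | ⟨rfl, rfl⟩ | ⟨rfl, rfl⟩ | ⟨rfl, rfl⟩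
        · exact absurd ⟨rfl, rfl⟩ huv
        · have e6 : (3 * a + 2 * 0 + 1) % 3 = 1 := by omega
          have e7 : cc (3 * a + 2 * 0 + 1) = 3 * (3 * a + 1) + 1 := by
            simp only [cc, e6]
            norm_num
          rw [e7]
          push_cast
          linarith
        · have e6 : (3 * a + 2 * 1 + 0) % 3 = 2 := by omega
          have e7 : cc (3 * a + 2 * 1 + 0) = 6 * (3 * a + 2) + 2 := by
            simp only [cc, e6]
            norm_num
          rw [e7]
          push_cast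
          linarith
        · exfalso
          apply hN2
          norm_num

/-- The numerical inequality for sorted parts. -/
theorem numeric_sorted (a u v r : ℕ) (hs : 0 < 3 * a + 2 * u + v) :
    (a : ℤ) * ((a + u) + (a + u + v) + r) ^ 2 +
      (a + u) * (a + (a + u + v) + r) ^ 2 +
      (a + u + v) * (a + (a + u) + r) ^ 2 + G r ≤
      G (3 * a + 2 * u + v + r) := by
  have h1 := G_cc r
  have h2 := G_cc (3 * a + 2 * u + v + r)
  push_cast at h2
  have key := key_all a u v r hs
  nlinarith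

theorem numeric_nat_sorted (p1 p2 p3 r : ℕ) (h12 : p1 ≤ p2) (h23 : p2 ≤ p3)
    (hs : 0 < p1 + p2 + p3) :
    p1 * (p2 + p3 + r) ^ 2 + p2 * (p1 + p3 + r) ^ 2 + p3 * (p1 + p2 + r) ^ 2 + G r ≤
      G (p1 + p2 + p3 + r) := by
  obtain ⟨u, rfl⟩ := Nat.exists_eq_add_of_le h12
  obtain ⟨v, rfl⟩ := Nat.exists_eq_add_of_le h23
  have h := numeric_sorted p1 u v r (by omega)
  have e : p1 + (p1 + u) + (p1 + u + v) + r = 3 * p1 + 2 * u + v + r := by ring
  rw [e]
  exact_mod_cast h

theorem numeric (p1 p2 p3 r : ℕ) (hs : 0 < p1 + p2 + p3) :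
    p1 * (p2 + p3 + r) ^ 2 + p2 * (p1 + p3 + r) ^ 2 + p3 * (p1 + p2 + r) ^ 2 + G r ≤
      G (p1 + p2 + p3 + r) := by
  rcases le_total p1 p2 with h12 | h12 <;> rcases le_total p2 p3 with h23 | h23 <;>
    rcases le_total p1 p3 with h13 | h13
  · exact numeric_nat_sorted p1 p2 p3 r h12 h23 hs
  · exact numeric_nat_sorted p1 p2 p3 r h12 h23 hs
  · have h := numeric_nat_sorted p1 p3 p2 r h13 h23 (by omega)
    have e : p1 + p3 + p2 + r = p1 + p2 + p3 + r := by ring
    rw [e] at h
    calc _ = p1 * (p3 + p2 + r) ^ 2 + p3 * (p1 + p2 + r) ^ 2 + p2 * (p1 + p3 + r) ^ 2 + G r := by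
          ring
      _ ≤ _ := h
  · have h := numeric_nat_sorted p3 p1 p2 r h13 h12 (by omega)
    have e : p3 + p1 + p2 + r = p1 + p2 + p3 + r := by ring
    rw [e] at h
    calc _ = p3 * (p1 + p2 + r) ^ 2 + p1 * (p3 + p2 + r) ^ 2 + p2 * (p3 + p1 + r) ^ 2 + G r := by
          ring
      _ ≤ _ := h
  · have h := numeric_nat_sorted p2 p1 p3 r h12 h13 (by omega)
    have e : p2 + p1 + p3 + r = p1 + p2 + p3 + r := by ring
    rw [e] at h
    calc _ = p2 * (p1 + p3 + r) ^ 2 + p1 * (p2 + p3 + r) ^ 2 + p3 * (p2 + p1 + r) ^ 2 + G r := by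
          ring
      _ ≤ _ := h
  · have h := numeric_nat_sorted p2 p3 p1 r h23 h13 (by omega)
    have e : p2 + p3 + p1 + r = p1 + p2 + p3 + r := by ring
    rw [e] at h
    calc _ = p2 * (p3 + p1 + r) ^ 2 + p3 * (p2 + p1 + r) ^ 2 + p1 * (p2 + p3 + r) ^ 2 + G r := by
          ring
      _ ≤ _ := h
  · have h := numeric_nat_sorted p3 p2 p1 r h23 h12 (by omega)
    have e : p3 + p2 + p1 + r = p1 + p2 + p3 + r := by ring
    rw [e] at h
    calc _ = p3 * (p2 + p1 + r) ^ 2 + p2 * (p3 + p1 + r) ^ 2 + p1 * (p3 + p2 + r) ^ 2 + G r := by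
          ring
      _ ≤ _ := h
  · have h := numeric_nat_sorted p3 p2 p1 r h23 h12 (by omega)
    have e : p3 + p2 + p1 + r = p1 + p2 + p3 + r := by ring
    rw [e] at h
    calc _ = p3 * (p2 + p1 + r) ^ 2 + p2 * (p3 + p1 + r) ^ 2 + p1 * (p3 + p2 + r) ^ 2 + G r := by
          ring
      _ ≤ _ := h

section weighted
open scoped Classical
variable {V : Type*}

/-- The part of a source component. -/
theorem component (K : Finset V) (hK : K.Nonempty) (hc : K.card ≤ 3) (p : V → ℕ)
    (hp : ∀ x ∈ K, 0 < p x) (r : ℕ) :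
    ∑ i ∈ K, p i * ((∑ j ∈ K.erase i, p j) + r) ^ 2 + G r ≤ G (∑ i ∈ K, p i + r) := by
  have hcase : K.card = 1 ∨ K.card = 2 ∨ K.card = 3 := by
    have := card_pos.2 hK
    omega
  rcases hcase with h | h | h
  · obtain ⟨a, rfl⟩ := card_eq_one.1 h
    have ha := hp a (by simp)
    have := numeric (p a) 0 0 r (by omega)
    simpa using this
  · obtain ⟨a, b, hab, rfl⟩ := card_eq_two.1 h
    have ha := hp a (by simp)
    have := numeric (p a) (p b) 0 r (by omega)
    have e1 : ({a, b} : Finset V).erase a = {b} := by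
      ext x; simp only [mem_erase, mem_insert, mem_singleton]
      constructor
      · rintro ⟨h1, h2 | h2⟩
        · exact absurd h2 h1
        · exact h2
      · rintro rfl
        exact ⟨hab.symm, Or.inr rfl⟩
    have e2 : ({a, b} : Finset V).erase b = {a} := by
      ext x; simp only [mem_erase, mem_insert, mem_singleton]
      constructor
      · rintro ⟨h1, h2 | h2⟩
        · exact h2
        · exact absurd h2 h1
      · rintro rfl
        exact ⟨hab, Or.inl rfl⟩
    rw [sum_pair hab, sum_pair hab, e1, e2]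
    simpa using this
  · obtain ⟨a, b, c, hab, hac, hbc, rfl⟩ := card_eq_three.1 h
    have ha := hp a (by simp)
    have := numeric (p a) (p b) (p c) r (by omega)
    have hsum : ∀ f : V → ℕ, ∑ i ∈ ({a, b, c} : Finset V), f i = f a + f b + f c := by
      intro f
      rw [sum_insert (by simp [hab, hac]), sum_pair hbc]
      ring
    have herase : ∀ i ∈ ({a, b, c} : Finset V),
        p i + ∑ j ∈ ({a, b, c} : Finset V).erase i, p j = p a + p b + p c := by
      intro i hi
      rw [add_sum_erase _ _ hi, hsum]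
    have h1 := herase a (by simp)
    have h2 := herase b (by simp)
    have h3 := herase c (by simp)
    rw [hsum, hsum]
    have g1 : ∑ j ∈ ({a, b, c} : Finset V).erase a, p j = p b + p c := by omega
    have g2 : ∑ j ∈ ({a, b, c} : Finset V).erase b, p j = p a + p c := by omega
    have g3 : ∑ j ∈ ({a, b, c} : Finset V).erase c, p j = p a + p b := by omega
    rw [g1, g2, g3]
    exact this

/-- The weighted bound for semicomplete digraphs. -/
theorem weighted {A : V → V → Prop} (hl : ∀ x, ¬ A x x) (h4 : NoR4 A) (p : V → ℕ) :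
    ∀ (n : ℕ) (R : Finset V), R.card = n → (∀ x ∈ R, 0 < p x) →
      (∀ x ∈ R, ∀ y ∈ R, x ≠ y → A x y ∨ A y x) →
      ∑ i ∈ R, p i * (∑ j ∈ R with A i j, p j) ^ 2 ≤ G (∑ i ∈ R, p i) := by
  intro n
  induction n using Nat.strong_induction_on with
  | _ n ih =>
    intro R hn hp hsc
    by_cases hR : R.Nonempty
    · obtain ⟨K, hKR, hKn, hK3, hKc⟩ := source hl h4 R hR hsc
      have hlt : (R \ K).card < n := by
        rw [← hn]
        exact card_lt_card (sdiff_ssubset hKR hKn)
      have h1 := ih _ hlt (R \ K) rfl (fun x hx => hp x (mem_sdiff.1 hx).1)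
        (fun x hx y hy => hsc x (mem_sdiff.1 hx).1 y (mem_sdiff.1 hy).1)
      have h2 := component K hKn hK3 p (fun x hx => hp x (hKR hx)) (∑ i ∈ R \ K, p i)
      have hsum : ∑ i ∈ K, p i + ∑ i ∈ R \ K, p i = ∑ i ∈ R, p i := by
        rw [add_comm]
        exact sum_sdiff hKR
      have e1 : ∀ i ∈ R \ K, ∑ j ∈ R with A i j, p j = ∑ j ∈ R \ K with A i j, p j := by
        intro i hi
        congr 1
        ext j
        simp only [mem_filter, mem_sdiff]
        constructor
        · rintro ⟨hj, hij⟩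
          refine ⟨⟨hj, fun hjK => ?_⟩, hij⟩
          exact (mem_sdiff.1 hi).2 (hKc j hjK i (mem_sdiff.1 hi).1 hij)
        · rintro ⟨⟨hj, _⟩, hij⟩
          exact ⟨hj, hij⟩
      have e2 : ∀ i ∈ K, ∑ j ∈ R with A i j, p j ≤
          (∑ j ∈ K.erase i, p j) + ∑ j ∈ R \ K, p j := by
        intro i hi
        have h3 : (R.filter (fun j => A i j)) ⊆ (K.erase i) ∪ (R \ K) := by
          intro j hj
          have hj' := mem_filter.1 hj
          by_cases hjK : j ∈ K
          · apply mem_union_left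
            refine mem_erase.2 ⟨?_, hjK⟩
            rintro rfl
            exact hl _ hj'.2
          · exact mem_union_right _ (mem_sdiff.2 ⟨hj'.1, hjK⟩)
        refine (sum_le_sum_of_subset h3).trans (le_of_eq ?_)
        refine sum_union ?_
        rw [disjoint_left]
        intro x hx hx2
        exact (mem_sdiff.1 hx2).2 (mem_of_mem_erase hx)
      calc ∑ i ∈ R, p i * (∑ j ∈ R with A i j, p j) ^ 2
          = ∑ i ∈ K, p i * (∑ j ∈ R with A i j, p j) ^ 2 +
            ∑ i ∈ R \ K, p i * (∑ j ∈ R with A i j, p j) ^ 2 := by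
              rw [add_comm]
              exact (sum_sdiff hKR).symm
        _ ≤ ∑ i ∈ K, p i * ((∑ j ∈ K.erase i, p j) + ∑ j ∈ R \ K, p j) ^ 2 +
            ∑ i ∈ R \ K, p i * (∑ j ∈ R \ K with A i j, p j) ^ 2 := by
              apply add_le_add
              · apply sum_le_sum
                intro i hi
                exact Nat.mul_le_mul_left _ (Nat.pow_le_pow_left (e2 i hi) 2)
              · apply le_of_eq
                apply sum_congr rfl
                intro i hi
                rw [e1 i hi]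
        _ ≤ ∑ i ∈ K, p i * ((∑ j ∈ K.erase i, p j) + ∑ j ∈ R \ K, p j) ^ 2 +
            G (∑ i ∈ R \ K, p i) := by
              exact Nat.add_le_add_left h1 _
        _ ≤ G (∑ i ∈ K, p i + ∑ i ∈ R \ K, p i) := h2
        _ = G (∑ i ∈ R, p i) := by rw [hsum]
    · rw [not_nonempty_iff_eq_empty] at hR
      subst hR
      simp

end weighted

end Q131.R4
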