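import Pool.Agent.Q131.R4Proof

/-!
# Symmetrization and the upper bound
-/

namespace Q131.R4

open Finset
open scoped Classical

/-- Replace `u` by a copy of `v`. -/
def copy {V : Type*} (A : V → V → Prop) (u v : V) : V → V → Prop := fun x y =>
  A (if x = u then v else x) (if y = u then v else y)

theorem copy_noR4 {V : Type*} {A : V → V → Prop} (h4 : NoR4 A) (u v : V) : NoR4 (copy A u v) :=
  fun _ _ _ _ h1 h2 h3 h5 h6 h7 => h4 _ _ _ _ h1 h2 h3 h5 h6 h7

theorem copy_loopless {V : Type*} {A : V → V → Prop} (hl : ∀ x, ¬ A x x) (u v : V) :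
    ∀ x, ¬ copy A u v x x := fun _ => hl _

/-- Indicator. -/
noncomputable def ind (P : Prop) : ℤ := if P then 1 else 0

section
variable {V : Type*} [Fintype V]

/-- The out-degree. -/
noncomputable def out (A : V → V → Prop) (x : V) : ℕ := (univ.filter (fun y => A x y)).card

/-- The sum of the squares of the out-degrees. -/
noncomputable def f (A : V → V → Prop) : ℕ := ∑ x, (out A x) ^ 2

theorem out_eq (A : V → V → Prop) (x : V) : (out A x : ℤ) = ∑ y, ind (A x y) := by
  unfold out ind
  rw [card_filter]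
  push_cast
  rfl

theorem out_copy (A : V → V → Prop) (u v : V) (x : V) :
    (out (copy A u v) x : ℤ) = out A (if x = u then v else x) -
      ind (A (if x = u then v else x) u) + ind (A (if x = u then v else x) v) := by
  rw [out_eq, out_eq]
  have h2 : ∑ y, ind (copy A u v x y) = ∑ y, ind (A (if x = u then v else x)
      (if y = u then v else y)) := rfl
  rw [h2]
  generalize (if x = u then v else x) = z
  have h : ∑ y, (ind (A z (if y = u then v else y)) - ind (A z y)) =
      ind (A z v) - ind (A z u) := by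
    rw [sum_eq_single u]
    · simp
    · intro b _ hb
      simp [hb]
    · simp
  rw [sum_sub_distrib] at h
  linarith

theorem f_copy {A : V → V → Prop} (hl : ∀ x, ¬ A x x) {u v : V} (huv : ¬ A u v)
    (hvu : ¬ A v u) : (f (copy A u v) : ℤ) =
      ∑ x, ((out A x : ℤ) - ind (A x u) + ind (A x v)) ^ 2 - (out A u : ℤ) ^ 2 +
        (out A v : ℤ) ^ 2 := by
  unfold f
  push_cast
  have h : ∑ x, (((out (copy A u v) x : ℤ)) ^ 2 -
      ((out A x : ℤ) - ind (A x u) + ind (A x v)) ^ 2) =
      (out A v : ℤ) ^ 2 - (out A u : ℤ) ^ 2 := by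
    rw [sum_eq_single u]
    · rw [out_copy]
      simp [ind, hl, huv, hvu]
    · intro b _ hb
      rw [out_copy]
      simp [hb]
    · simp
  rw [sum_sub_distrib] at h
  linarith

/-- In an extremal digraph, nonadjacent vertices have the same in-neighbours and the same
out-degree. -/
theorem twins {A : V → V → Prop} (hl : ∀ x, ¬ A x x) (h4 : NoR4 A)
    (hmax : ∀ B : V → V → Prop, (∀ x, ¬ B x x) → NoR4 B → f B ≤ f A) {u v : V}
    (huv : ¬ A u v) (hvu : ¬ A v u) : (∀ x, A x u ↔ A x v) ∧ out A u = out A v := by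
  have h1 : (f (copy A u v) : ℤ) ≤ f A := by
    exact_mod_cast hmax _ (copy_loopless hl u v) (copy_noR4 h4 u v)
  have h2 : (f (copy A v u) : ℤ) ≤ f A := by
    exact_mod_cast hmax _ (copy_loopless hl v u) (copy_noR4 h4 v u)
  rw [f_copy hl huv hvu] at h1
  rw [f_copy hl hvu huv] at h2
  have hf : (f A : ℤ) = ∑ x, (out A x : ℤ) ^ 2 := by
    unfold f
    push_cast
    rfl
  have h3 : ∑ x, ((out A x : ℤ) - ind (A x u) + ind (A x v)) ^ 2 +
      ∑ x, ((out A x : ℤ) - ind (A x v) + ind (A x u)) ^ 2 =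
      2 * (f A : ℤ) + 2 * ∑ x, (ind (A x u) - ind (A x v)) ^ 2 := by
    rw [hf, mul_sum, mul_sum, ← sum_add_distrib, ← sum_add_distrib]
    apply sum_congr rfl
    intro x _
    ring
  have h4' : ∑ x, (ind (A x u) - ind (A x v)) ^ 2 ≤ 0 := by linarith
  have h5 : ∑ x, (ind (A x u) - ind (A x v)) ^ 2 = 0 :=
    le_antisymm h4' (sum_nonneg fun _ _ => sq_nonneg _)
  rw [sum_eq_zero_iff_of_nonneg (fun _ _ => sq_nonneg _)] at h5
  have h6 : ∀ x, ind (A x u) = ind (A x v) := by
    intro x
    have := h5 x (mem_univ x)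
    have := pow_eq_zero_iff (two_ne_zero) |>.1 this
    linarith
  refine ⟨?_, ?_⟩
  · intro x
    have h := h6 x
    unfold ind at h
    by_cases p : A x u <;> by_cases q : A x v <;> simp_all
  · have h7 : ∑ x, ((out A x : ℤ) - ind (A x u) + ind (A x v)) ^ 2 = f A := by
      rw [hf]
      apply sum_congr rfl
      intro x _
      rw [h6 x]
      ring
    have h8 : ∑ x, ((out A x : ℤ) - ind (A x v) + ind (A x u)) ^ 2 = f A := by
      rw [hf]
      apply sum_congr rfl
      intro x _
      rw [h6 x]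
      ring
    rw [h7] at h1
    rw [h8] at h2
    have h9 : (out A u : ℤ) ^ 2 = (out A v : ℤ) ^ 2 := by linarith
    have h10 : (out A u : ℤ) = (out A v : ℤ) := by
      have := (sq_eq_sq₀ (by positivity) (by positivity)).1 h9
      exact this
    exact_mod_cast h10

/-- The upper bound for extremal digraphs. -/
theorem upper_extremal {A : V → V → Prop} (hl : ∀ x, ¬ A x x) (h4 : NoR4 A)
    (hmax : ∀ B : V → V → Prop, (∀ x, ¬ B x x) → NoR4 B → f B ≤ f A) :
    f A ≤ G (Fintype.card V) := by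
  have htw := fun {u v : V} (h1 : ¬ A u v) (h2 : ¬ A v u) => twins hl h4 hmax h1 h2
  let S : Setoid V :=
    { r := fun x y => ¬ A x y ∧ ¬ A y x
      iseqv := by
        refine ⟨fun x => ⟨hl x, hl x⟩, fun h => ⟨h.2, h.1⟩, ?_⟩
        intro x y z hxy hyz
        refine ⟨?_, ?_⟩
        · intro hxz
          exact hxy.1 (((htw hyz.1 hyz.2).1 x).2 hxz)
        · intro hzx
          exact hyz.2 (((htw hxy.1 hxy.2).1 z).1 hzx) }
  let ρ : V → V := fun x => (Quotient.mk S x).out
  have hρ : ∀ x, ¬ A (ρ x) x ∧ ¬ A x (ρ x) := by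
    intro x
    have : S.r (ρ x) x := Quotient.mk_out (s := S) x
    exact this
  have hρ2 : ∀ x y, (¬ A x y ∧ ¬ A y x) → ρ x = ρ y := by
    intro x y h
    have : Quotient.mk S x = Quotient.mk S y := Quotient.sound h
    simp only [ρ, this]
  have hin : ∀ x y, A x y ↔ A x (ρ y) := fun x y => (htw (hρ y).2 (hρ y).1).1 x
  have hout : ∀ x, out A x = out A (ρ x) := fun x => (htw (hρ x).2 (hρ x).1).2
  have hidem : ∀ x, ρ (ρ x) = ρ x := fun x => hρ2 _ _ ⟨(hρ x).1, (hρ x).2⟩
  let R : Finset V := univ.image ρ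
  let p : V → ℕ := fun i => (univ.filter (fun x => ρ x = i)).card
  have hRfix : ∀ i ∈ R, ρ i = i := by
    intro i hi
    obtain ⟨x, _, rfl⟩ := mem_image.1 hi
    exact hidem x
  have hp : ∀ i ∈ R, 0 < p i := by
    intro i hi
    exact card_pos.2 ⟨i, mem_filter.2 ⟨mem_univ _, hRfix i hi⟩⟩
  have hsc : ∀ x ∈ R, ∀ y ∈ R, x ≠ y → A x y ∨ A y x := by
    intro x hx y hy hxy
    by_contra h
    push Not at h
    apply hxy
    rw [← hRfix x hx, ← hRfix y hy]
    exact hρ2 x y h
  have hcard : ∑ i ∈ R, p i = Fintype.card V := by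
    have := card_eq_sum_card_image ρ (univ : Finset V)
    rw [card_univ] at this
    exact this.symm
  have houtR : ∀ i, out A i = ∑ j ∈ R with A i j, p j := by
    intro i
    unfold out
    rw [card_eq_sum_card_fiberwise (f := ρ) (t := R.filter (fun j => A i j))]
    · apply sum_congr rfl
      intro j hj
      congr 1
      ext x
      simp only [mem_filter, mem_univ, true_and]
      constructor
      · exact fun h => h.2
      · intro h
        refine ⟨?_, h⟩
        rw [hin, h]
        exact (mem_filter.1 hj).2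
    · intro x hx
      have hx' := (mem_filter.1 (mem_coe.1 hx)).2
      refine mem_coe.2 (mem_filter.2 ⟨mem_image.2 ⟨x, mem_univ _, rfl⟩, ?_⟩)
      exact (hin i x).1 hx'
  have hf : f A = ∑ i ∈ R, p i * (∑ j ∈ R with A i j, p j) ^ 2 := by
    unfold f
    rw [← sum_fiberwise_of_maps_to (s := univ) (t := R) (g := ρ)
      (fun x _ => mem_image.2 ⟨x, mem_univ _, rfl⟩)]
    apply sum_congr rfl
    intro i hi
    rw [← houtR i]
    have : ∀ x ∈ (univ.filter (fun x => ρ x = i)), (out A x) ^ 2 = (out A i) ^ 2 := by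
      intro x hx
      rw [hout x, (mem_filter.1 hx).2]
    rw [sum_congr rfl this, sum_const, smul_eq_mul]
  rw [hf, ← hcard]
  exact weighted hl h4 p _ R rfl hp hsc

/-- The upper bound. -/
theorem upper (A : V → V → Prop) (hl : ∀ x, ¬ A x x) (h4 : NoR4 A) :
    f A ≤ G (Fintype.card V) := by
  let α := {A : V → V → Prop // (∀ x, ¬ A x x) ∧ NoR4 A}
  have : Nonempty α := ⟨⟨A, hl, h4⟩⟩
  obtain ⟨B, hB⟩ := Finite.exists_max (fun A : α => f A.1)
  have h1 : f A ≤ f B.1 := hB ⟨A, hl, h4⟩
  refine h1.trans (upper_extremal B.2.1 B.2.2 ?_)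
  intro C hC1 hC2
  exact hB ⟨C, hC1, hC2⟩

end

end Q131.R4
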