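import Mathlib

/-!
# Relaxation complexity and hiding sets: definitions
-/

namespace Q131.Relax

/-- An integer point as a real point. -/
def emb {d : ℕ} (p : Fin d → ℤ) : Fin d → ℝ := fun i => (p i : ℝ)

/-- The convex hull of a set of integer points. -/
def hull {d : ℕ} (X : Set (Fin d → ℤ)) : Set (Fin d → ℝ) := convexHull ℝ (emb '' X)

/-- `X` is lattice-convex: `conv(X) ∩ ℤ^d = X`. -/
def LatticeConvex {d : ℕ} (X : Set (Fin d → ℤ)) : Prop := ∀ p, emb p ∈ hull X → p ∈ X

/-- `X` is full-dimensional: its affine hull is `ℝ^d`. -/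
def FullDimensional {d : ℕ} (X : Set (Fin d → ℤ)) : Prop := affineSpan ℝ (emb '' X) = ⊤

/-- `X` is the set of integer points of a polyhedron given by `m` linear inequalities with real
coefficients. -/
def HasRelaxation {d : ℕ} (m : ℕ) (X : Set (Fin d → ℤ)) : Prop :=
  ∃ (A : Fin m → Fin d → ℝ) (b : Fin m → ℝ),
    ∀ p : Fin d → ℤ, p ∈ X ↔ ∀ j, ∑ i, A j i * (p i : ℝ) ≤ b j

/-- The relaxation complexity: the least number of linear inequalities of a relaxation. -/
noncomputable def rc {d : ℕ} (X : Set (Fin d → ℤ)) : ℕ := sInf {m | HasRelaxation m X}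

/-- A (finite) hiding set of `X`. -/
def IsHidingSet {d : ℕ} (X : Set (Fin d → ℤ)) (H : Finset (Fin d → ℤ)) : Prop :=
  (∀ p ∈ H, p ∉ X) ∧
    ∀ p ∈ H, ∀ q ∈ H, p ≠ q → (segment ℝ (emb p) (emb q) ∩ hull X).Nonempty

/-- The hiding set bound: the largest cardinality of a hiding set. -/
noncomputable def hidingBound {d : ℕ} (X : Set (Fin d → ℤ)) : ℕ :=
  sSup {n | ∃ H : Finset (Fin d → ℤ), IsHidingSet X H ∧ H.card = n}

end Q131.Relax
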