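import Pool.Agent.Q131.RelaxProof

/-!
# The lower bound `6 K` for the relaxation complexity
-/

namespace Q131.Relax

open Finset

/-- Membership for points over a base point which is not a corner. -/
theorem mem_full {K : ℕ} {p : Fin 5 → ℤ} (hB : Big K p)
    (hg : ∀ I : ℤ, 1 ≤ I → I ≤ K → ∀ t, 1 ≤ gap I t p) : p ∈ X K := by
  refine ⟨hB, fun I h1 h2 t => ?_⟩
  have := hg I h1 h2 t
  obtain ⟨_, _, _, _, h5, h6, h7, h8, _⟩ := hB
  exact ⟨by linarith, by linarith, by linarith, by linarith⟩

/-- Membership for points with fibre coordinates in `{0, 1}`. -/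
theorem mem_small {K : ℕ} {p : Fin 5 → ℤ} (hB : Big K p) (h0 : 0 ≤ p 0) (h1 : p 0 ≤ 1)
    (h2 : 0 ≤ p 1) (h3 : p 1 ≤ 1) : p ∈ X K := by
  refine ⟨hB, fun I hI1 hI2 t => ?_⟩
  obtain ⟨_, _, h4, h5, _, _, _, _, h9⟩ := hB
  have k1 := h9 (I - 1) (by linarith) (by linarith)
  have k2 := h9 I (by linarith) hI2
  have hg : 0 ≤ gap I t p := by
    unfold gap
    cases t
    · simp only [Bool.false_eq_true, if_false]
      linarith
    · simp only [if_true]
      linarith
  exact ⟨by linarith, by linarith, by linarith, by linarith⟩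

/-- The product of two consecutive integers is nonnegative. -/
theorem consec (m : ℤ) : 0 ≤ m * (m - 1) := by
  rcases le_or_gt m 0 with h | h
  · nlinarith
  · nlinarith

/-- The corner height. -/
def zc (t : Bool) : ℤ := if t then 2 else 0

/-- Points over corners. -/
def cpt (I : ℤ) (t : Bool) (a b : ℤ) : Fin 5 → ℤ := ![a, b, 2 * I, I * (I - 1), zc t]

theorem big_cpt {K : ℕ} {I : ℤ} (h1 : 1 ≤ I) (hK : I ≤ K) (t : Bool) {a b : ℤ}
    (ha : -1 ≤ a) (ha' : a ≤ 2) (hb : -1 ≤ b) (hb' : b ≤ 2) : Big K (cpt I t a b) := by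
  have e0 : cpt I t a b 0 = a := rfl
  have e1 : cpt I t a b 1 = b := rfl
  have e2 : cpt I t a b 2 = 2 * I := rfl
  have e3 : cpt I t a b 3 = I * (I - 1) := rfl
  have e4 : cpt I t a b 4 = zc t := rfl
  unfold Big
  rw [e0, e1, e2, e3, e4]
  have hz : 0 ≤ zc t ∧ zc t ≤ 2 := by cases t <;> simp [zc]
  refine ⟨by linarith, by nlinarith, hz.1, hz.2, ha, ha', hb, hb', ?_⟩
  intro i hi0 hiK
  unfold line
  rw [e2, e3]
  have := consec (I - i)
  nlinarith

/-- The five test points over a corner. -/
def cyc : Fin 5 → ℤ × ℤ := ![(-1, 0), (1, 2), (1, -1), (-1, 1), (2, 0)]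

/-- The test points. -/
def tp (I : ℤ) (t : Bool) (s : Fin 5) : Fin 5 → ℤ := cpt I t (cyc s).1 (cyc s).2

theorem cyc_range (s : Fin 5) : -1 ≤ (cyc s).1 ∧ (cyc s).1 ≤ 2 ∧ -1 ≤ (cyc s).2 ∧
    (cyc s).2 ≤ 2 := by
  fin_cases s <;> decide

theorem gap_cpt (I : ℤ) (t : Bool) (a b : ℤ) : gap I t (cpt I t a b) = 0 := by
  cases t
  · simp only [gap, line, cpt, zc, Bool.false_eq_true, if_false]
    simp
    ring
  · simp only [gap, line, cpt, zc, if_true]
    simp
    ring

theorem tp_not_mem {K : ℕ} {I : ℤ} (h1 : 1 ≤ I) (hK : I ≤ K) (t : Bool) (s : Fin 5) :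
    tp I t s ∉ X K := by
  intro h
  have h2 := h.2 I h1 hK t
  unfold Corner at h2
  unfold tp at h2
  rw [gap_cpt] at h2
  obtain ⟨k1, k2, k3, k4⟩ := h2
  have e0 : cpt I t (cyc s).1 (cyc s).2 0 = (cyc s).1 := rfl
  have e1 : cpt I t (cyc s).1 (cyc s).2 1 = (cyc s).2 := rfl
  rw [e0] at k1 k2
  rw [e1] at k3 k4
  fin_cases s <;> simp [cyc] at k1 k2 k3 k4

/-- Consecutive test points over the same corner are hidden. -/
theorem hidden_cyc {K : ℕ} {I : ℤ} (h1 : 1 ≤ I) (hK : I ≤ K) (t : Bool) (s : Fin 5) :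
    (segment ℝ (emb (tp I t s)) (emb (tp I t (s + 1))) ∩ hull (X K)).Nonempty := by
  have key : ∀ a b a' b' : ℤ, 0 ≤ a → a ≤ 1 → 0 ≤ b → b ≤ 1 → 0 ≤ a' → a' ≤ 1 → 0 ≤ b' →
      b' ≤ 1 → (cyc s).1 + (cyc (s + 1)).1 = a + a' → (cyc s).2 + (cyc (s + 1)).2 = b + b' →
      (segment ℝ (emb (tp I t s)) (emb (tp I t (s + 1))) ∩ hull (X K)).Nonempty := by
    intro a b a' b' k1 k2 k3 k4 k5 k6 k7 k8 e1 e2
    have m1 : cpt I t a b ∈ X K := mem_small
      (big_cpt h1 hK t (by linarith) (by linarith) (by linarith) (by linarith)) k1 k2 k3 k4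
    have m2 : cpt I t a' b' ∈ X K := mem_small
      (big_cpt h1 hK t (by linarith) (by linarith) (by linarith) (by linarith)) k5 k6 k7 k8
    apply hidden_of_sum m1 m2
    intro i
    fin_cases i
    · exact e1
    · exact e2
    · rfl
    · rfl
    · rfl
  fin_cases s
  · exact key 0 1 0 1 (by norm_num) (by norm_num) (by norm_num) (by norm_num) (by norm_num)
      (by norm_num) (by norm_num) (by norm_num) (by decide) (by decide)
  · exact key 1 0 1 1 (by norm_num) (by norm_num) (by norm_num) (by norm_num) (by norm_num)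
      (by norm_num) (by norm_num) (by norm_num) (by decide) (by decide)
  · exact key 0 0 0 0 (by norm_num) (by norm_num) (by norm_num) (by norm_num) (by norm_num)
      (by norm_num) (by norm_num) (by norm_num) (by decide) (by decide)
  · exact key 0 0 1 1 (by norm_num) (by norm_num) (by norm_num) (by norm_num) (by norm_num)
      (by norm_num) (by norm_num) (by norm_num) (by decide) (by decide)
  · exact key 0 0 1 0 (by norm_num) (by norm_num) (by norm_num) (by norm_num) (by norm_num)
      (by norm_num) (by norm_num) (by norm_num) (by decide) (by decide)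

/-- Points over the same base corner but different heights are hidden. -/
theorem hidden_vertical {K : ℕ} {I : ℤ} (h1 : 1 ≤ I) (hK : I ≤ K) (s s' : Fin 5) :
    (segment ℝ (emb (tp I false s)) (emb (tp I true s')) ∩ hull (X K)).Nonempty := by
  have key : ∀ a b : ℤ, -1 ≤ a → a ≤ 2 → -1 ≤ b → b ≤ 2 →
      (![a, b, 2 * I, I * (I - 1), 1] : Fin 5 → ℤ) ∈ X K := by
    intro a b k1 k2 k3 k4
    have hline : ∀ i, 0 ≤ line i (![a, b, 2 * I, I * (I - 1), 1] : Fin 5 → ℤ) := by
      intro i
      unfold line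
      simp
      have := consec (I - i)
      nlinarith
    apply mem_full
    · refine ⟨?_, ?_, ?_, ?_, ?_, ?_, ?_, ?_, ?_⟩
      · simp
        linarith
      · simp
        nlinarith
      · simp
      · simp
      · simpa using k1
      · simpa using k2
      · simpa using k3
      · simpa using k4
      · intro i _ _
        exact hline i
    · intro I' _ _ t
      have k1 := hline (I' - 1)
      have k2 := hline I'
      unfold gap
      cases t
      · simp only [Bool.false_eq_true, if_false]
        simp only [Matrix.cons_val]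
        linarith
      · simp only [if_true]
        simp only [Matrix.cons_val]
        linarith
  obtain ⟨c1, c2, c3, c4⟩ := cyc_range s
  obtain ⟨d1, d2, d3, d4⟩ := cyc_range s'
  apply hidden_of_sum (key _ _ c1 c2 c3 c4) (key _ _ d1 d2 d3 d4)
  intro i
  fin_cases i
  · rfl
  · rfl
  · rfl
  · rfl
  · rfl

/-- Points over different base corners are hidden. -/
theorem hidden_diff {K : ℕ} {I I' : ℤ} (h1 : 1 ≤ I) (hlt : I < I') (hK : I' ≤ K)
    (t t' : Bool) (s s' : Fin 5) :
    (segment ℝ (emb (tp I t s)) (emb (tp I' t' s')) ∩ hull (X K)).Nonempty := by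
  have hz : ∀ t : Bool, 0 ≤ zc t ∧ zc t ≤ 2 := by intro t; cases t <;> simp [zc]
  have keyA : ∀ a b : ℤ, -1 ≤ a → a ≤ 2 → -1 ≤ b → b ≤ 2 →
      (![a, b, 2 * I + 1, I * I, zc t] : Fin 5 → ℤ) ∈ X K := by
    intro a b k1 k2 k3 k4
    have hline : ∀ i, line i (![a, b, 2 * I + 1, I * I, zc t] : Fin 5 → ℤ) = (I - i) ^ 2 := by
      intro i
      unfold line
      simp
      ring
    apply mem_full
    · refine ⟨?_, ?_, ?_, ?_, ?_, ?_, ?_, ?_, ?_⟩
      · simp
        linarith
      · simp
        nlinarith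
      · simpa using (hz t).1
      · simpa using (hz t).2
      · simpa using k1
      · simpa using k2
      · simpa using k3
      · simpa using k4
      · intro i _ _
        rw [hline]
        positivity
    · intro J _ _ u
      have h3 : 1 ≤ (I - (J - 1)) ^ 2 + (I - J) ^ 2 := by
        have := consec (I - J + 1)
        nlinarith
      unfold gap
      rw [hline, hline]
      cases u
      · simp only [Bool.false_eq_true, if_false]
        simp only [Matrix.cons_val]
        linarith [(hz t).1]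
      · simp only [if_true]
        simp only [Matrix.cons_val]
        linarith [(hz t).2]
  have keyB : ∀ a b : ℤ, -1 ≤ a → a ≤ 2 → -1 ≤ b → b ≤ 2 →
      (![a, b, 2 * I' - 1, I' * (I' - 1) - I, zc t'] : Fin 5 → ℤ) ∈ X K := by
    intro a b k1 k2 k3 k4
    have hline : ∀ i, line i (![a, b, 2 * I' - 1, I' * (I' - 1) - I, zc t'] : Fin 5 → ℤ) =
        (I' - i) * (I' - i - 1) + (i - I) := by
      intro i
      unfold line
      simp
      ring
    have hnn : ∀ i : ℤ, 0 ≤ (I' - i) * (I' - i - 1) + (i - I) := by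
      intro i
      rcases le_or_gt I i with h | h
      · have := consec (I' - i)
        linarith
      · nlinarith
    apply mem_full
    · refine ⟨?_, ?_, ?_, ?_, ?_, ?_, ?_, ?_, ?_⟩
      · simp
        linarith
      · simp
        nlinarith
      · simpa using (hz t').1
      · simpa using (hz t').2
      · simpa using k1
      · simpa using k2
      · simpa using k3
      · simpa using k4
      · intro i _ _
        rw [hline]
        exact hnn i
    · intro J _ _ u
      have h3 : 1 ≤ ((I' - (J - 1)) * (I' - (J - 1) - 1) + ((J - 1) - I)) +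
          ((I' - J) * (I' - J - 1) + (J - I)) := by
        have e1 := hnn (J - 1)
        have e2 := hnn J
        have e3 : ((I' - (J - 1)) * (I' - (J - 1) - 1) + ((J - 1) - I)) +
          ((I' - J) * (I' - J - 1) + (J - I)) = 2 * ((I' - J) ^ 2 + (J - I)) - 1 := by ring
        omega
      unfold gap
      rw [hline, hline]
      cases u
      · simp only [Bool.false_eq_true, if_false]
        simp only [Matrix.cons_val]
        linarith [(hz t').1]
      · simp only [if_true]
        simp only [Matrix.cons_val]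
        linarith [(hz t').2]
  obtain ⟨c1, c2, c3, c4⟩ := cyc_range s
  obtain ⟨d1, d2, d3, d4⟩ := cyc_range s'
  apply hidden_of_sum (keyA _ _ c1 c2 c3 c4) (keyB _ _ d1 d2 d3 d4)
  intro i
  fin_cases i
  · rfl
  · rfl
  · show 2 * I + 2 * I' = (2 * I + 1) + (2 * I' - 1)
    ring
  · show I * (I - 1) + I' * (I' - 1) = I * I + (I' * (I' - 1) - I)
    ring
  · rfl

end Q131.Relax
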