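import Pool.Agent.Q131.RelaxLow

/-!
# The bounds `6 K ≤ rc (X K)` and `hidingBound (X K) ≤ 5 K + 9`
-/

namespace Q131.Relax

open Finset

/-- A proper colouring of the five-cycle uses at least three colours. -/
theorem three_le_cyc {α : Type*} [DecidableEq α] (f : Fin 5 → α) (h : ∀ s, f s ≠ f (s + 1)) :
    3 ≤ (univ.image f).card := by
  have h0 : f 0 ≠ f 1 := h 0
  have h1 : f 1 ≠ f 2 := h 1
  have h2 : f 2 ≠ f 3 := h 2
  have h3 : f 3 ≠ f 4 := h 3
  have h4 : f 4 ≠ f 0 := h 4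
  have hm : ∀ s, f s ∈ univ.image f := fun s => mem_image_of_mem f (mem_univ s)
  rw [Nat.succ_le_iff, two_lt_card]
  by_cases e1 : f 2 = f 0
  · by_cases e2 : f 3 = f 1
    · exact ⟨f 0, hm 0, f 1, hm 1, f 4, hm 4, h0, fun e => h4 e.symm, fun e => h3 (e2.trans e)⟩
    · exact ⟨f 1, hm 1, f 2, hm 2, f 3, hm 3, h1, fun e => e2 e.symm, h2⟩
  · exact ⟨f 0, hm 0, f 1, hm 1, f 2, hm 2, h0, fun e => e1 e.symm, h1⟩

/-- Every relaxation has at least `6 K` inequalities. -/
theorem six_le {K m : ℕ} (h : HasRelaxation m (X K)) : 6 * K ≤ m := by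
  classical
  obtain ⟨A, b, hA⟩ := h
  have hcol : ∀ p : Fin 5 → ℤ, p ∉ X K → ∃ j, b j < ∑ i, A j i * (p i : ℝ) := by
    intro p hp
    rw [hA] at hp
    push Not at hp
    exact hp
  have hnh : ∀ p q : Fin 5 → ℤ, ∀ j, b j < ∑ i, A j i * (p i : ℝ) →
      b j < ∑ i, A j i * (q i : ℝ) →
      ¬ (segment ℝ (emb p) (emb q) ∩ hull (X K)).Nonempty := by
    intro p q j hp hq
    exact not_hidden (fun x hx => (hA x).1 hx j) hp hq
  have hI : ∀ i : Fin K, (1 : ℤ) ≤ (i : ℤ) + 1 ∧ (i : ℤ) + 1 ≤ K := by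
    intro i
    have := i.2
    constructor <;> omega
  choose col hcol' using fun (c : (Fin K × Bool) × Fin 5) =>
    hcol (tp ((c.1.1 : ℤ) + 1) c.1.2 c.2) (tp_not_mem (hI c.1.1).1 (hI c.1.1).2 _ _)
  have hne : ∀ c c' : (Fin K × Bool) × Fin 5,
      (segment ℝ (emb (tp ((c.1.1 : ℤ) + 1) c.1.2 c.2))
        (emb (tp ((c'.1.1 : ℤ) + 1) c'.1.2 c'.2)) ∩ hull (X K)).Nonempty → col c ≠ col c' := by
    intro c c' hh e
    have k1 := hcol' c
    have k2 := hcol' c'
    rw [← e] at k2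
    exact hnh _ _ _ k1 k2 hh
  have hswap : ∀ x y : Fin 5 → ℝ, (segment ℝ x y ∩ hull (X K)).Nonempty →
      (segment ℝ y x ∩ hull (X K)).Nonempty := by
    intro x y hxy
    rwa [segment_symm] at hxy
  let S : Fin K × Bool → Finset (Fin m) := fun c => univ.image (fun s => col (c, s))
  have hS : ∀ c, 3 ≤ (S c).card := by
    intro c
    apply three_le_cyc
    intro s
    exact hne (c, s) (c, s + 1) (hidden_cyc (hI c.1).1 (hI c.1).2 _ _)
  have hdisj : ∀ c c', c ≠ c' → Disjoint (S c) (S c') := by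
    intro c c' hcc
    rw [Finset.disjoint_left]
    intro x hx hx'
    simp only [S, mem_image, mem_univ, true_and] at hx hx'
    obtain ⟨s, hs⟩ := hx
    obtain ⟨s', hs'⟩ := hx'
    refine hne (c, s) (c', s') ?_ (hs.trans hs'.symm)
    rcases lt_trichotomy (c.1 : ℕ) (c'.1 : ℕ) with hlt | heq | hgt
    · exact hidden_diff (hI c.1).1 (by omega) (hI c'.1).2 _ _ _ _
    · obtain ⟨i, t⟩ := c
      obtain ⟨i', t'⟩ := c'
      have hii : i = i' := Fin.ext heq
      subst hii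
      cases t
      · cases t'
        · exact absurd rfl hcc
        · exact hidden_vertical (hI i).1 (hI i).2 _ _
      · cases t'
        · exact hswap _ _ (hidden_vertical (hI i).1 (hI i).2 _ _)
        · exact absurd rfl hcc
    · exact hswap _ _ (hidden_diff (hI c'.1).1 (by omega) (hI c.1).2 _ _ _ _)
  have h1 : ∑ c, (S c).card ≤ m := by
    rw [← card_biUnion (fun c _ c' _ hcc => hdisj c c' hcc)]
    calc _ ≤ (univ : Finset (Fin m)).card := card_le_card (subset_univ _)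
      _ = m := by simp
  have h2 : ∑ _c : Fin K × Bool, 3 ≤ ∑ c, (S c).card := sum_le_sum (fun c _ => hS c)
  rw [sum_const, card_univ, Fintype.card_prod, Fintype.card_fin, Fintype.card_bool,
    smul_eq_mul] at h2
  omega

theorem rc_ge (K : ℕ) : 6 * K ≤ rc (X K) := by
  unfold rc
  have hne : {m | HasRelaxation m (X K)}.Nonempty := hasRelaxation K
  exact six_le (Nat.sInf_mem hne)

/-! ### The upper bound for hiding sets -/

/-- Eight inequalities valid on `{0,1}²`. -/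
def ineq : Fin 8 → ℤ × ℤ × ℤ :=
  ![(-3, -1, 4), (-3, 1, 3), (-1, -3, 4), (-1, 3, 1), (1, -3, 3), (1, 3, 0), (3, -1, 1),
    (3, 1, 0)]

/-- Value of an inequality. -/
def val (k : Fin 8) (a b : ℤ) : ℤ := (ineq k).1 * a + (ineq k).2.1 * b + (ineq k).2.2

/-- Not in `{0,1}²`. -/
def Out (a b : ℤ) : Prop := a = -1 ∨ a = 2 ∨ b = -1 ∨ b = 2

instance (a b : ℤ) : Decidable (Out a b) := by unfold Out; infer_instance

theorem tri_fin : ∀ a b a' b' a'' b'' : Fin 4,
    Out ((a : ℤ) - 1) ((b : ℤ) - 1) → Out ((a' : ℤ) - 1) ((b' : ℤ) - 1) →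
    Out ((a'' : ℤ) - 1) ((b'' : ℤ) - 1) → (a, b) ≠ (a', b') → (a, b) ≠ (a'', b'') →
    (a', b') ≠ (a'', b'') → ∃ k : Fin 8,
      (val k ((a : ℤ) - 1) ((b : ℤ) - 1) < 0 ∧ val k ((a' : ℤ) - 1) ((b' : ℤ) - 1) < 0) ∨
      (val k ((a : ℤ) - 1) ((b : ℤ) - 1) < 0 ∧ val k ((a'' : ℤ) - 1) ((b'' : ℤ) - 1) < 0) ∨
      (val k ((a' : ℤ) - 1) ((b' : ℤ) - 1) < 0 ∧ val k ((a'' : ℤ) - 1) ((b'' : ℤ) - 1) < 0) := by
  decide +kernel

theorem val_small (k : Fin 8) {a b : ℤ} (h0 : 0 ≤ a) (h1 : a ≤ 1) (h2 : 0 ≤ b) (h3 : b ≤ 1) :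
    0 ≤ val k a b := by
  fin_cases k <;> simp [val, ineq] <;> linarith

theorem val_full (k : Fin 8) {a b : ℤ} (h0 : -1 ≤ a) (h1 : a ≤ 2) (h2 : -1 ≤ b) (h3 : b ≤ 2) :
    -4 ≤ val k a b := by
  fin_cases k <;> simp [val, ineq] <;> linarith

/-- The lifted inequality. -/
theorem lift_valid {K : ℕ} {I : ℤ} (h1 : 1 ≤ I) (hK : I ≤ K) (t : Bool) (k : Fin 8)
    {p : Fin 5 → ℤ} (hp : p ∈ X K) : 0 ≤ val k (p 0) (p 1) + 4 * gap I t p := by
  have hc := hp.2 I h1 hK t
  obtain ⟨_, _, _, _, h5, h6, h7, h8, _⟩ := hp.1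
  unfold Corner at hc
  obtain ⟨c1, c2, c3, c4⟩ := hc
  have hg : 0 ≤ gap I t p := by omega
  rcases hg.eq_or_lt with e | e
  · rw [← e] at c1 c2 c3 c4 ⊢
    have := val_small k (a := p 0) (b := p 1) (by linarith) (by linarith) (by linarith)
      (by linarith)
    linarith
  · have := val_full k h5 h6 h7 h8
    linarith

/-- The lifted inequality as a linear functional. -/
theorem lift_aff (I : ℤ) (t : Bool) (k : Fin 8) : ∃ (w : Fin 5 → ℤ) (c : ℤ),
    ∀ p, aff w c p = val k (p 0) (p 1) + 4 * gap I t p := by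
  cases t
  · refine ⟨![(ineq k).1, (ineq k).2.1, 4 * -(2 * I - 1), 8, 4],
      (ineq k).2.2 + 8 * I ^ 2, fun p => ?_⟩
    simp only [aff, val, gap, line, Fin.sum_univ_five, Bool.false_eq_true, if_false]
    simp
    ring
  · refine ⟨![(ineq k).1, (ineq k).2.1, 4 * -(2 * I - 1), 8, -4],
      (ineq k).2.2 + 8 * I ^ 2 + 8, fun p => ?_⟩
    simp only [aff, val, gap, line, Fin.sum_univ_five, if_true]
    simp
    ring

/-- Description of the points at a corner. -/
def AtCorner (I : ℤ) (t : Bool) (p : Fin 5 → ℤ) : Prop :=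
  -1 ≤ p 0 ∧ p 0 ≤ 2 ∧ -1 ≤ p 1 ∧ p 1 ≤ 2 ∧ Out (p 0) (p 1) ∧ p 2 = 2 * I ∧
    p 3 = I * (I - 1) ∧ p 4 = zc t

theorem gap_atCorner {I : ℤ} {t : Bool} {p : Fin 5 → ℤ} (h : AtCorner I t p) :
    gap I t p = 0 := by
  obtain ⟨_, _, _, _, _, h2, h3, h4⟩ := h
  unfold gap line
  rw [h2, h3, h4]
  cases t
  · simp only [zc, Bool.false_eq_true, if_false]
    ring
  · simp only [zc, if_true]
    ring

/-- Class of a point. -/
theorem classify {K : ℕ} {p : Fin 5 → ℤ} (hp : p ∉ X K) :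
    ∃ j : Fin 8 ⊕ Fin (K + 1) ⊕ (Fin K × Bool),
      (∀ c, j = Sum.inl c → aff (wt K (Sum.inl c)) (ct K (Sum.inl c)) p < 0) ∧
      (∀ i, j = Sum.inr (Sum.inl i) →
        aff (wt K (Sum.inr (Sum.inl i))) (ct K (Sum.inr (Sum.inl i))) p < 0) ∧
      (∀ I t, j = Sum.inr (Sum.inr (I, t)) → AtCorner ((I : ℤ) + 1) t p) := by
  by_cases h1 : ∃ c, aff (wt K (Sum.inl c)) (ct K (Sum.inl c)) p < 0
  · obtain ⟨c, hc⟩ := h1
    refine ⟨Sum.inl c, ?_, ?_, ?_⟩
    · intro c' e
      cases e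
      exact hc
    · intro i e
      cases e
    · intro I t e
      cases e
  by_cases h2 : ∃ i, aff (wt K (Sum.inr (Sum.inl i))) (ct K (Sum.inr (Sum.inl i))) p < 0
  · obtain ⟨i, hi⟩ := h2
    refine ⟨Sum.inr (Sum.inl i), ?_, ?_, ?_⟩
    · intro c' e
      cases e
    · intro i' e
      cases e
      exact hi
    · intro I t e
      cases e
  push Not at h1 h2
  have hB : Big K p := by
    refine ⟨?_, ?_, ?_, ?_, ?_, ?_, ?_, ?_, ?_⟩
    · have := h1 0
      simp [aff, wt, ct, Fin.sum_univ_five] at this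
      linarith
    · have := h1 1
      simp [aff, wt, ct, Fin.sum_univ_five] at this
      linarith
    · have := h1 2
      simp [aff, wt, ct, Fin.sum_univ_five] at this
      linarith
    · have := h1 3
      simp [aff, wt, ct, Fin.sum_univ_five] at this
      linarith
    · have := h1 4
      simp [aff, wt, ct, Fin.sum_univ_five] at this
      linarith
    · have := h1 5
      simp [aff, wt, ct, Fin.sum_univ_five] at this
      linarith
    · have := h1 6
      simp [aff, wt, ct, Fin.sum_univ_five] at this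
      linarith
    · have := h1 7
      simp [aff, wt, ct, Fin.sum_univ_five] at this
      linarith
    · intro i hi0 hiK
      obtain ⟨n, rfl⟩ := Int.eq_ofNat_of_zero_le hi0
      have := h2 ⟨n, by omega⟩
      simp [aff, wt, ct, Fin.sum_univ_five] at this
      simp only [line]
      linarith
  have h3 : ∃ I : ℤ, 1 ≤ I ∧ I ≤ K ∧ ∃ t, ¬ Corner I t p := by
    by_contra hcon
    push Not at hcon
    exact hp ⟨hB, hcon⟩
  obtain ⟨I, hI1, hIK, t, hc⟩ := h3
  obtain ⟨n, hn⟩ := Int.eq_ofNat_of_zero_le (show (0 : ℤ) ≤ I - 1 by omega)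
  have hI : I = (n : ℤ) + 1 := by omega
  obtain ⟨_, _, z1, z2, h5, h6, h7, h8, h9⟩ := hB
  have l1 := h9 (I - 1) (by omega) (by omega)
  have l2 := h9 I (by omega) hIK
  have hz : 0 ≤ (if t then 2 - p 4 else p 4) := by
    cases t
    · simpa using z1
    · simpa using z2
  have hg : gap I t p = 0 := by
    by_contra hne
    have hg : 1 ≤ gap I t p := by
      have : gap I t p = line (I - 1) p + line I p + (if t then 2 - p 4 else p 4) := rfl
      omega
    exact hc ⟨by linarith, by linarith, by linarith, by linarith⟩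
  have e0 : gap I t p = line (I - 1) p + line I p + (if t then 2 - p 4 else p 4) := rfl
  have e1 : line (I - 1) p = 0 := by linarith
  have e2 : line I p = 0 := by linarith
  have e3 : (if t then 2 - p 4 else p 4) = 0 := by linarith
  have hx : p 2 = 2 * I := by
    unfold line at e1 e2
    linarith
  have hy : p 3 = I * (I - 1) := by
    unfold line at e2
    rw [hx] at e2
    linarith
  have hz' : p 4 = zc t := by
    cases t
    · simpa [zc] using e3
    · simp only [if_true] at e3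
      simp only [zc, if_true]
      linarith
  have hout : Out (p 0) (p 1) := by
    by_contra hn
    unfold Out at hn
    push Not at hn
    obtain ⟨n1, n2, n3, n4⟩ := hn
    apply hc
    unfold Corner
    rw [hg]
    refine ⟨by omega, by omega, by omega, by omega⟩
  refine ⟨Sum.inr (Sum.inr (⟨n, by omega⟩, t)), ?_, ?_, ?_⟩
  · intro c' e
    cases e
  · intro i' e
    cases e
  · intro I' t' e
    cases e
    have : ((n : ℤ) + 1) = I := hI.symm
    show AtCorner ((n : ℤ) + 1) t p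
    rw [this]
    exact ⟨h5, h6, h7, h8, hout, hx, hy, hz'⟩

theorem valid_of_mem {K : ℕ} (j : J K) : ∀ p ∈ X K, 0 ≤ aff (wt K j) (ct K j) p :=
  fun p hp => (mem_X_iff K p).1 hp j

/-- At most two points of a hiding set at one corner. -/
theorem corner_le_two {K : ℕ} {H : Finset (Fin 5 → ℤ)} (hH : IsHidingSet (X K) H) {I : ℤ}
    (hI1 : 1 ≤ I) (hIK : I ≤ K) (t : Bool) {C : Finset (Fin 5 → ℤ)} (hC : C ⊆ H)
    (hat : ∀ p ∈ C, AtCorner I t p) : C.card ≤ 2 := by
  by_contra hcard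
  push Not at hcard
  rw [two_lt_card] at hcard
  obtain ⟨p, hp, q, hq, r, hr, hpq, hpr, hqr⟩ := hcard
  have hkey : ∀ x ∈ C, ∀ y ∈ C, x ≠ y → ∀ k : Fin 8, val k (x 0) (x 1) < 0 →
      val k (y 0) (y 1) < 0 → False := by
    intro x hx y hy hxy k hkx hky
    obtain ⟨w, c, hw⟩ := lift_aff I t k
    apply not_hidden_int (X := X K) w c _ _ _ (hH.2 x (hC hx) y (hC hy) hxy)
    · intro z hz
      rw [hw]
      exact lift_valid hI1 hIK t k hz
    · rw [hw, gap_atCorner (hat x hx)]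
      linarith
    · rw [hw, gap_atCorner (hat y hy)]
      linarith
  have hrep : ∀ x ∈ C, ∃ a b : Fin 4, x 0 = (a : ℤ) - 1 ∧ x 1 = (b : ℤ) - 1 ∧
      Out ((a : ℤ) - 1) ((b : ℤ) - 1) := by
    intro x hx
    obtain ⟨k1, k2, k3, k4, k5, _⟩ := hat x hx
    obtain ⟨a, ha⟩ := Int.eq_ofNat_of_zero_le (show 0 ≤ x 0 + 1 by linarith)
    obtain ⟨b, hb⟩ := Int.eq_ofNat_of_zero_le (show 0 ≤ x 1 + 1 by linarith)
    have e1 : x 0 = (a : ℤ) - 1 := by linarith
    have e2 : x 1 = (b : ℤ) - 1 := by linarith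
    refine ⟨⟨a, by omega⟩, ⟨b, by omega⟩, e1, e2, ?_⟩
    rw [e1, e2] at k5
    exact k5
  have hne : ∀ x ∈ C, ∀ y ∈ C, x ≠ y → ∀ a b a' b' : Fin 4, x 0 = (a : ℤ) - 1 →
      x 1 = (b : ℤ) - 1 → y 0 = (a' : ℤ) - 1 → y 1 = (b' : ℤ) - 1 → (a, b) ≠ (a', b') := by
    intro x hx y hy hxy a b a' b' e1 e2 e3 e4 e
    rw [Prod.mk.injEq] at e
    obtain ⟨rfl, rfl⟩ := e
    apply hxy
    obtain ⟨_, _, _, _, _, x2, x3, x4⟩ := hat x hx
    obtain ⟨_, _, _, _, _, y2, y3, y4⟩ := hat y hy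
    funext i
    fin_cases i
    · exact e1.trans e3.symm
    · exact e2.trans e4.symm
    · exact x2.trans y2.symm
    · exact x3.trans y3.symm
    · exact x4.trans y4.symm
  obtain ⟨a, b, ea, eb, eo⟩ := hrep p hp
  obtain ⟨a', b', ea', eb', eo'⟩ := hrep q hq
  obtain ⟨a'', b'', ea'', eb'', eo''⟩ := hrep r hr
  obtain ⟨k, hk⟩ := tri_fin a b a' b' a'' b'' eo eo' eo''
    (hne p hp q hq hpq _ _ _ _ ea eb ea' eb') (hne p hp r hr hpr _ _ _ _ ea eb ea'' eb'')
    (hne q hq r hr hqr _ _ _ _ ea' eb' ea'' eb'')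
  rw [← ea, ← eb, ← ea', ← eb', ← ea'', ← eb''] at hk
  rcases hk with ⟨h1, h2⟩ | ⟨h1, h2⟩ | ⟨h1, h2⟩
  · exact hkey p hp q hq hpq k h1 h2
  · exact hkey p hp r hr hpr k h1 h2
  · exact hkey q hq r hr hqr k h1 h2

/-- Every hiding set has at most `5 K + 9` elements. -/
theorem hiding_le {K : ℕ} {H : Finset (Fin 5 → ℤ)} (hH : IsHidingSet (X K) H) :
    H.card ≤ 5 * K + 9 := by
  classical
  choose! cl hcl1 hcl2 hcl3 using fun (p : Fin 5 → ℤ) (hp : p ∉ X K) => classify hp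
  have hfib := card_eq_sum_card_fiberwise (s := H)
    (t := (univ : Finset (Fin 8 ⊕ Fin (K + 1) ⊕ (Fin K × Bool)))) (f := cl)
    (fun x _ => mem_coe.2 (mem_univ _))
  have hone : ∀ j : J K, ∀ C : Finset (Fin 5 → ℤ), C ⊆ H →
      (∀ p ∈ C, aff (wt K j) (ct K j) p < 0) → C.card ≤ 1 := by
    intro j C hC hv
    rw [card_le_one]
    intro p hp q hq
    by_contra hpq
    exact not_hidden_int (wt K j) (ct K j) (valid_of_mem j) (hv p hp) (hv q hq)
      (hH.2 p (hC hp) q (hC hq) hpq)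
  rw [hfib, Fintype.sum_sum_type, Fintype.sum_sum_type]
  have b1 : ∑ c : Fin 8, (H.filter (fun p => cl p = Sum.inl c)).card ≤ ∑ _c : Fin 8, 1 := by
    apply sum_le_sum
    intro c _
    apply hone (Sum.inl c) _ (filter_subset _ _)
    intro p hp
    rw [mem_filter] at hp
    exact hcl1 p (hH.1 p hp.1) c hp.2
  have b2 : ∑ i : Fin (K + 1), (H.filter (fun p => cl p = Sum.inr (Sum.inl i))).card ≤
      ∑ _i : Fin (K + 1), 1 := by
    apply sum_le_sum
    intro c _
    apply hone (Sum.inr (Sum.inl c)) _ (filter_subset _ _)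
    intro p hp
    rw [mem_filter] at hp
    exact hcl2 p (hH.1 p hp.1) c hp.2
  have b3 : ∑ c : Fin K × Bool, (H.filter (fun p => cl p = Sum.inr (Sum.inr c))).card ≤
      ∑ _c : Fin K × Bool, 2 := by
    apply sum_le_sum
    rintro ⟨I, t⟩ _
    apply corner_le_two hH (I := (I : ℤ) + 1) (by have := I.2; omega) (by have := I.2; omega) t
      (filter_subset _ _)
    intro p hp
    rw [mem_filter] at hp
    exact hcl3 p (hH.1 p hp.1) I t hp.2
  simp only [sum_const, card_univ, Fintype.card_fin, Fintype.card_prod, Fintype.card_bool,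
    smul_eq_mul, mul_one] at b1 b2 b3
  omega

theorem hidingBound_le (K : ℕ) : hidingBound (X K) ≤ 5 * K + 9 := by
  unfold hidingBound
  apply csSup_le
  · exact ⟨0, ∅, ⟨by simp, by simp⟩, rfl⟩
  · rintro n ⟨H, hH, rfl⟩
    exact hiding_le hH

/-! ### Finiteness and dimension -/

theorem finite_X {K : ℕ} (hK : 1 ≤ K) : (X K).Finite := by
  have hsub : X K ⊆ Set.Icc (![-1, -1, 0, 0, 0] : Fin 5 → ℤ)
      ![2, 2, ((K : ℤ) + 1) ^ 2 + (K : ℤ) * (K + 1), ((K : ℤ) + 1) ^ 2, 2] := by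
    rintro p ⟨⟨h1, h2, h3, h4, h5, h6, h7, h8, h9⟩, _⟩
    have l0 := h9 0 le_rfl (by positivity)
    have lK := h9 K (by positivity) le_rfl
    unfold line at l0 lK
    have hK' : (1 : ℤ) ≤ K := by exact_mod_cast hK
    rw [Set.mem_Icc]
    constructor
    · intro i
      fin_cases i
      · exact h5
      · exact h7
      · exact h1
      · show (0 : ℤ) ≤ p 3
        linarith
      · exact h3
    · intro i
      fin_cases i
      · exact h6
      · exact h8
      · show p 2 ≤ ((K : ℤ) + 1) ^ 2 + (K : ℤ) * (K + 1)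
        nlinarith
      · exact h2
      · exact h4
  exact (Set.finite_Icc _ _).subset hsub

theorem fullDimensional {K : ℕ} (hK : 1 ≤ K) : FullDimensional (X K) := by
  unfold FullDimensional
  have hK' : (1 : ℤ) ≤ K := by exact_mod_cast hK
  have hB : ∀ a b x y z : ℤ, 0 ≤ a → a ≤ 1 → 0 ≤ b → b ≤ 1 → 0 ≤ x → x ≤ 1 → 1 ≤ y → y ≤ 2 →
      0 ≤ z → z ≤ 1 → (![a, b, x, y, z] : Fin 5 → ℤ) ∈ X K := by
    intro a b x y z a0 a1 b0 b1 x0 x1 y0 y1 z0 z1
    apply mem_small
    · refine ⟨?_, ?_, ?_, ?_, ?_, ?_, ?_, ?_, ?_⟩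
      · simpa using x0
      · show y ≤ ((K : ℤ) + 1) ^ 2
        nlinarith
      · exact z0
      · show z ≤ 2
        linarith
      · show -1 ≤ a
        linarith
      · show a ≤ 2
        linarith
      · show -1 ≤ b
        linarith
      · show b ≤ 2
        linarith
      · intro i hi _
        show 0 ≤ y - i * x + i * (i + 1)
        nlinarith
    · exact a0
    · exact a1
    · exact b0
    · exact b1
  have ho : (![0, 0, 0, 1, 0] : Fin 5 → ℤ) ∈ X K := by apply hB <;> norm_num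
  have he : ∀ i : Fin 5, (fun j => (![0, 0, 0, 1, 0] : Fin 5 → ℤ) j + if j = i then 1 else 0) ∈
      X K := by
    intro i
    fin_cases i
    · convert hB 1 0 0 1 0 _ _ _ _ _ _ _ _ _ _ using 1
      · funext j; fin_cases j <;> rfl
      all_goals norm_num
    · convert hB 0 1 0 1 0 _ _ _ _ _ _ _ _ _ _ using 1
      · funext j; fin_cases j <;> rfl
      all_goals norm_num
    · convert hB 0 0 1 1 0 _ _ _ _ _ _ _ _ _ _ using 1
      · funext j; fin_cases j <;> rfl
      all_goals norm_num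
    · convert hB 0 0 0 2 0 _ _ _ _ _ _ _ _ _ _ using 1
      · funext j; fin_cases j <;> rfl
      all_goals norm_num
    · convert hB 0 0 0 1 1 _ _ _ _ _ _ _ _ _ _ using 1
      · funext j; fin_cases j <;> rfl
      all_goals norm_num
  have hne : (emb '' X K).Nonempty := ⟨_, Set.mem_image_of_mem emb ho⟩
  rw [AffineSubspace.affineSpan_eq_top_iff_vectorSpan_eq_top_of_nonempty ℝ _ _ hne]
  rw [eq_top_iff]
  intro v _
  have hv : v = ∑ i, v i • (Pi.single i (1 : ℝ) : Fin 5 → ℝ) := by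
    funext j
    simp [Finset.sum_apply, Pi.single_apply]
  rw [hv]
  apply Submodule.sum_mem
  intro i _
  apply Submodule.smul_mem
  have hmem : emb (fun j => (![0, 0, 0, 1, 0] : Fin 5 → ℤ) j + if j = i then 1 else 0) -ᵥ
      emb (![0, 0, 0, 1, 0] : Fin 5 → ℤ) ∈ vectorSpan ℝ (emb '' X K) :=
    vsub_mem_vectorSpan ℝ (Set.mem_image_of_mem emb (he i)) (Set.mem_image_of_mem emb ho)
  convert hmem using 1
  funext j
  simp only [emb, vsub_eq_sub, Pi.sub_apply, Pi.single_apply]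
  push_cast
  ring

end Q131.Relax
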