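import Pool.Agent.Q131.RelaxDefs

/-!
# Relaxation complexity versus the hiding set bound: the counterexample in dimension five
-/

namespace Q131.Relax

open Finset

section general
variable {d : ℕ}

/-- An affine function with integer coefficients. -/
def aff (w : Fin d → ℤ) (c : ℤ) (p : Fin d → ℤ) : ℤ := ∑ i, w i * p i + c

theorem hull_le {X : Set (Fin d → ℤ)} {w : Fin d → ℝ} {b : ℝ}
    (h : ∀ p ∈ X, ∑ i, w i * (p i : ℝ) ≤ b) {v : Fin d → ℝ} (hv : v ∈ hull X) :
    ∑ i, w i * v i ≤ b := by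
  have hsub : hull X ⊆ {v | ∑ i, w i * v i ≤ b} := by
    apply convexHull_min
    · rintro _ ⟨p, hp, rfl⟩
      exact h p hp
    · intro x hx y hy s t hs ht hst
      simp only [Set.mem_ofPred_eq, Pi.add_apply, Pi.smul_apply, smul_eq_mul] at hx hy ⊢
      have e : ∑ i, w i * (s * x i + t * y i) = s * ∑ i, w i * x i + t * ∑ i, w i * y i := by
        rw [mul_sum, mul_sum, ← sum_add_distrib]
        apply sum_congr rfl
        intro i _
        ring
      rw [e]
      calc s * ∑ i, w i * x i + t * ∑ i, w i * y i ≤ s * b + t * b :=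
            add_le_add (mul_le_mul_of_nonneg_left hx hs) (mul_le_mul_of_nonneg_left hy ht)
        _ = b := by rw [← add_mul, hst, one_mul]
  exact hsub hv

theorem segment_gt {w : Fin d → ℝ} {b : ℝ} {x y v : Fin d → ℝ} (hx : b < ∑ i, w i * x i)
    (hy : b < ∑ i, w i * y i) (hv : v ∈ segment ℝ x y) : b < ∑ i, w i * v i := by
  obtain ⟨s, t, hs, ht, hst, rfl⟩ := hv
  simp only [Pi.add_apply, Pi.smul_apply, smul_eq_mul]
  have e : ∑ i, w i * (s * x i + t * y i) = s * ∑ i, w i * x i + t * ∑ i, w i * y i := by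
    rw [mul_sum, mul_sum, ← sum_add_distrib]
    apply sum_congr rfl
    intro i _
    ring
  rw [e]
  rcases hs.eq_or_lt with h0 | h0
  · have : t = 1 := by linarith
    rw [← h0, this]
    linarith
  · calc b = s * b + t * b := by rw [← add_mul, hst, one_mul]
      _ < s * ∑ i, w i * x i + t * b := by
        have := mul_lt_mul_of_pos_left hx h0
        linarith
      _ ≤ s * ∑ i, w i * x i + t * ∑ i, w i * y i := by
        have := mul_le_mul_of_nonneg_left hy.le ht
        linarith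

/-- Two points violating the same valid inequality do not hide each other. -/
theorem not_hidden {X : Set (Fin d → ℤ)} {w : Fin d → ℝ} {b : ℝ} {p q : Fin d → ℤ}
    (h : ∀ p ∈ X, ∑ i, w i * (p i : ℝ) ≤ b) (hp : b < ∑ i, w i * (p i : ℝ))
    (hq : b < ∑ i, w i * (q i : ℝ)) : ¬ (segment ℝ (emb p) (emb q) ∩ hull X).Nonempty := by
  rintro ⟨v, hv1, hv2⟩
  have h1 := hull_le h hv2
  have h2 := segment_gt (x := emb p) (y := emb q) hp hq hv1
  linarith

theorem aff_cast (w : Fin d → ℤ) (c : ℤ) (p : Fin d → ℤ) :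
    ((aff w c p : ℤ) : ℝ) = ∑ i, (w i : ℝ) * (p i : ℝ) + c := by
  unfold aff
  push_cast
  rfl

theorem not_hidden_int {X : Set (Fin d → ℤ)} (w : Fin d → ℤ) (c : ℤ) {p q : Fin d → ℤ}
    (h : ∀ p ∈ X, 0 ≤ aff w c p) (hp : aff w c p < 0) (hq : aff w c q < 0) :
    ¬ (segment ℝ (emb p) (emb q) ∩ hull X).Nonempty := by
  apply not_hidden (w := fun i => -(w i : ℝ)) (b := (c : ℝ))
  · intro x hx
    have h1 : (0 : ℝ) ≤ (aff w c x : ℤ) := by exact_mod_cast h x hx
    rw [aff_cast] at h1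
    simp only [neg_mul, sum_neg_distrib]
    linarith
  · have h1 : ((aff w c p : ℤ) : ℝ) < 0 := by exact_mod_cast hp
    rw [aff_cast] at h1
    simp only [neg_mul, sum_neg_distrib]
    linarith
  · have h1 : ((aff w c q : ℤ) : ℝ) < 0 := by exact_mod_cast hq
    rw [aff_cast] at h1
    simp only [neg_mul, sum_neg_distrib]
    linarith

/-- Two points whose sum is the sum of two points of `X` hide each other. -/
theorem hidden_of_sum {X : Set (Fin d → ℤ)} {p q x y : Fin d → ℤ} (hx : x ∈ X) (hy : y ∈ X)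
    (h : ∀ i, p i + q i = x i + y i) : (segment ℝ (emb p) (emb q) ∩ hull X).Nonempty := by
  refine ⟨(1 / 2 : ℝ) • emb p + (1 / 2 : ℝ) • emb q, ⟨1 / 2, 1 / 2, by norm_num, by norm_num,
    by norm_num, rfl⟩, ?_⟩
  have e : (1 / 2 : ℝ) • emb p + (1 / 2 : ℝ) • emb q =
      (1 / 2 : ℝ) • emb x + (1 / 2 : ℝ) • emb y := by
    funext i
    simp only [emb, Pi.add_apply, Pi.smul_apply, smul_eq_mul]
    have : ((p i : ℝ)) + q i = x i + y i := by exact_mod_cast h i
    linarith
  rw [e]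
  have h1 : emb x ∈ hull X := subset_convexHull ℝ (emb '' X) (Set.mem_image_of_mem emb hx)
  have h2 : emb y ∈ hull X := subset_convexHull ℝ (emb '' X) (Set.mem_image_of_mem emb hy)
  exact (convex_convexHull ℝ (emb '' X)) h1 h2 (by norm_num) (by norm_num) (by norm_num)

/-- A set given by finitely many integral inequalities is lattice-convex and has a relaxation. -/
theorem of_system {X : Set (Fin d → ℤ)} {J : Type} [Fintype J] (w : J → Fin d → ℤ) (c : J → ℤ)
    (h : ∀ p, p ∈ X ↔ ∀ j, 0 ≤ aff (w j) (c j) p) :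
    LatticeConvex X ∧ HasRelaxation (Fintype.card J) X := by
  constructor
  · intro p hp
    rw [h]
    intro j
    have h1 : ∀ x ∈ X, ∑ i, -(w j i : ℝ) * (x i : ℝ) ≤ (c j : ℝ) := by
      intro x hx
      have h1 : (0 : ℝ) ≤ (aff (w j) (c j) x : ℤ) := by exact_mod_cast (h x).1 hx j
      rw [aff_cast] at h1
      simp only [neg_mul, sum_neg_distrib]
      linarith
    have h2 := hull_le h1 hp
    have h3 : (0 : ℝ) ≤ (aff (w j) (c j) p : ℤ) := by
      rw [aff_cast]
      simp only [neg_mul, sum_neg_distrib, emb] at h2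
      linarith
    exact_mod_cast h3
  · let e := Fintype.equivFin J
    refine ⟨fun k i => -(w (e.symm k) i : ℝ), fun k => (c (e.symm k) : ℝ), ?_⟩
    intro p
    rw [h]
    constructor
    · intro hp k
      have h1 : (0 : ℝ) ≤ (aff (w (e.symm k)) (c (e.symm k)) p : ℤ) := by
        exact_mod_cast hp (e.symm k)
      rw [aff_cast] at h1
      simp only [neg_mul, sum_neg_distrib]
      linarith
    · intro hp j
      have h1 := hp (e j)
      simp only [Equiv.symm_apply_apply, neg_mul, sum_neg_distrib] at h1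
      have h3 : (0 : ℝ) ≤ (aff (w j) (c j) p : ℤ) := by
        rw [aff_cast]
        linarith
      exact_mod_cast h3

end general

/-- The lines bounding the base polygon. -/
def line (i : ℤ) (p : Fin 5 → ℤ) : ℤ := p 3 - i * p 2 + i * (i + 1)

/-- Height above the corner `(2I, I(I-1), z)`, where `z = 2` if `t` and `z = 0` otherwise. -/
def gap (I : ℤ) (t : Bool) (p : Fin 5 → ℤ) : ℤ :=
  line (I - 1) p + line I p + (if t then 2 - p 4 else p 4)

/-- The main inequalities. -/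
def Big (K : ℕ) (p : Fin 5 → ℤ) : Prop :=
  0 ≤ p 2 ∧ p 3 ≤ ((K : ℤ) + 1) ^ 2 ∧ 0 ≤ p 4 ∧ p 4 ≤ 2 ∧ -1 ≤ p 0 ∧ p 0 ≤ 2 ∧ -1 ≤ p 1 ∧
    p 1 ≤ 2 ∧ ∀ i : ℤ, 0 ≤ i → i ≤ K → 0 ≤ line i p

/-- The inequalities at a corner. -/
def Corner (I : ℤ) (t : Bool) (p : Fin 5 → ℤ) : Prop :=
  0 ≤ p 0 + gap I t p ∧ 0 ≤ 1 + gap I t p - p 0 ∧ 0 ≤ p 1 + gap I t p ∧ 0 ≤ 1 + gap I t p - p 1

/-- The counterexample. -/
def X (K : ℕ) : Set (Fin 5 → ℤ) :=
  {p | Big K p ∧ ∀ I : ℤ, 1 ≤ I → I ≤ K → ∀ t, Corner I t p}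

/-- Index set of the inequalities. -/
abbrev J (K : ℕ) : Type := Fin 8 ⊕ Fin (K + 1) ⊕ (Fin K × Bool × Fin 4)

/-- Coefficients. -/
def wt (K : ℕ) : J K → Fin 5 → ℤ
  | Sum.inl c => ![![0, 0, 1, 0, 0], ![0, 0, 0, -1, 0], ![0, 0, 0, 0, 1], ![0, 0, 0, 0, -1],
      ![1, 0, 0, 0, 0], ![-1, 0, 0, 0, 0], ![0, 1, 0, 0, 0], ![0, -1, 0, 0, 0]] c
  | Sum.inr (Sum.inl i) => ![0, 0, -(i : ℤ), 1, 0]
  | Sum.inr (Sum.inr (I, t, c)) =>
      let s : ℤ := if t then -1 else 1
      ![![1, 0, -(2 * ((I : ℤ) + 1) - 1), 2, s], ![-1, 0, -(2 * ((I : ℤ) + 1) - 1), 2, s],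
        ![0, 1, -(2 * ((I : ℤ) + 1) - 1), 2, s], ![0, -1, -(2 * ((I : ℤ) + 1) - 1), 2, s]] c

/-- Constants. -/
def ct (K : ℕ) : J K → ℤ
  | Sum.inl c => ![0, ((K : ℤ) + 1) ^ 2, 0, 2, 1, 2, 1, 2] c
  | Sum.inr (Sum.inl i) => (i : ℤ) * (i + 1)
  | Sum.inr (Sum.inr (I, t, c)) =>
      2 * ((I : ℤ) + 1) ^ 2 + (if t then 2 else 0) + ![0, 1, 0, 1] c

theorem mem_X_iff (K : ℕ) (p : Fin 5 → ℤ) : p ∈ X K ↔ ∀ j, 0 ≤ aff (wt K j) (ct K j) p := by
  constructor
  · rintro ⟨⟨h1, h2, h3, h4, h5, h6, h7, h8, h9⟩, h10⟩ j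
    rcases j with c | i | ⟨I, t, c⟩
    · fin_cases c <;> simp [aff, wt, ct, Fin.sum_univ_five] <;> linarith
    · have h := h9 i (by positivity) (by have := i.2; omega)
      simp only [line] at h
      simp only [aff, wt, ct, Fin.sum_univ_five]
      simp
      linarith
    · have h := h10 ((I : ℤ) + 1) (by have := I.2; omega) (by have := I.2; omega) t
      obtain ⟨k1, k2, k3, k4⟩ := h
      simp only [gap, line] at k1 k2 k3 k4
      cases t
      · simp only [Bool.false_eq_true, if_false] at k1 k2 k3 k4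
        fin_cases c <;> simp [aff, wt, ct, Fin.sum_univ_five] <;> nlinarith
      · simp only [if_true] at k1 k2 k3 k4
        fin_cases c <;> simp [aff, wt, ct, Fin.sum_univ_five] <;> nlinarith
  · intro h
    refine ⟨⟨?_, ?_, ?_, ?_, ?_, ?_, ?_, ?_, ?_⟩, ?_⟩
    · have := h (Sum.inl 0)
      simp [aff, wt, ct, Fin.sum_univ_five] at this
      linarith
    · have := h (Sum.inl 1)
      simp [aff, wt, ct, Fin.sum_univ_five] at this
      linarith
    · have := h (Sum.inl 2)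
      simp [aff, wt, ct, Fin.sum_univ_five] at this
      linarith
    · have := h (Sum.inl 3)
      simp [aff, wt, ct, Fin.sum_univ_five] at this
      linarith
    · have := h (Sum.inl 4)
      simp [aff, wt, ct, Fin.sum_univ_five] at this
      linarith
    · have := h (Sum.inl 5)
      simp [aff, wt, ct, Fin.sum_univ_five] at this
      linarith
    · have := h (Sum.inl 6)
      simp [aff, wt, ct, Fin.sum_univ_five] at this
      linarith
    · have := h (Sum.inl 7)
      simp [aff, wt, ct, Fin.sum_univ_five] at this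
      linarith
    · intro i hi0 hiK
      obtain ⟨n, rfl⟩ := Int.eq_ofNat_of_zero_le hi0
      have := h (Sum.inr (Sum.inl ⟨n, by omega⟩))
      simp [aff, wt, ct, Fin.sum_univ_five] at this
      simp only [line]
      linarith
    · intro I hI1 hIK t
      obtain ⟨n, hn⟩ := Int.eq_ofNat_of_zero_le (show (0 : ℤ) ≤ I - 1 by omega)
      have hI : I = (n : ℤ) + 1 := by omega
      subst hI
      have k1 := h (Sum.inr (Sum.inr (⟨n, by omega⟩, t, 0)))
      have k2 := h (Sum.inr (Sum.inr (⟨n, by omega⟩, t, 1)))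
      have k3 := h (Sum.inr (Sum.inr (⟨n, by omega⟩, t, 2)))
      have k4 := h (Sum.inr (Sum.inr (⟨n, by omega⟩, t, 3)))
      simp [aff, wt, ct, Fin.sum_univ_five] at k1 k2 k3 k4
      unfold Corner gap line
      cases t
      · simp only [Bool.false_eq_true, if_false] at k1 k2 k3 k4 ⊢
        refine ⟨?_, ?_, ?_, ?_⟩ <;> nlinarith
      · simp only [if_true] at k1 k2 k3 k4 ⊢
        refine ⟨?_, ?_, ?_, ?_⟩ <;> nlinarith

theorem latticeConvex (K : ℕ) : LatticeConvex (X K) := (of_system _ _ (mem_X_iff K)).1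

theorem hasRelaxation (K : ℕ) : ∃ m, HasRelaxation m (X K) :=
  ⟨_, (of_system _ _ (mem_X_iff K)).2⟩

end Q131.Relax
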