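import Mathlib

/-!
# Induction on trees by gluing along an edge

`glue G v H w` is the disjoint union of `G` and `H` together with the edge `v w`.  Every finite
tree is obtained from one-vertex trees by such operations, with an arbitrary prescribed root.
-/

namespace Q131.TreeGlue

open SimpleGraph

/-- The disjoint union of `G` and `H` together with the edge from `v` to `w`. -/
def glue {V W : Type*} (G : SimpleGraph V) (v : V) (H : SimpleGraph W) (w : W) :
    SimpleGraph (V ⊕ W) where
  Adj x y := match x, y with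
    | Sum.inl a, Sum.inl b => G.Adj a b
    | Sum.inr a, Sum.inr b => H.Adj a b
    | Sum.inl a, Sum.inr b => a = v ∧ b = w
    | Sum.inr a, Sum.inl b => b = v ∧ a = w
  symm := ⟨by
    rintro (a | a) (b | b) h
    · exact SimpleGraph.Adj.symm (G := G) h
    · exact h
    · exact h
    · exact SimpleGraph.Adj.symm (G := H) h⟩
  loopless := ⟨by
    rintro (a | a) h
    · exact G.loopless.irrefl _ h
    · exact H.loopless.irrefl _ h⟩

section
variable {V W : Type*} {G : SimpleGraph V} {v : V} {H : SimpleGraph W} {w : W}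

@[simp] theorem glue_ll (a b : V) : (glue G v H w).Adj (Sum.inl a) (Sum.inl b) ↔ G.Adj a b :=
  Iff.rfl
@[simp] theorem glue_rr (a b : W) : (glue G v H w).Adj (Sum.inr a) (Sum.inr b) ↔ H.Adj a b :=
  Iff.rfl
@[simp] theorem glue_lr (a : V) (b : W) :
    (glue G v H w).Adj (Sum.inl a) (Sum.inr b) ↔ a = v ∧ b = w := Iff.rfl
@[simp] theorem glue_rl (a : W) (b : V) :
    (glue G v H w).Adj (Sum.inr a) (Sum.inl b) ↔ b = v ∧ a = w := Iff.rfl

end

/-- Splitting a tree at an edge. -/
theorem split {V : Type*} {G : SimpleGraph V} (hG : G.IsTree) {v u : V} (hvu : G.Adj v u) :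
    ∃ A : Set V, ∃ (hv : v ∈ A) (hu : u ∈ Aᶜ), (G.induce A).IsTree ∧ (G.induce Aᶜ).IsTree ∧
      ∀ x ∈ A, ∀ y ∈ Aᶜ, G.Adj x y ↔ (x = v ∧ y = u) := by
  classical
  set G' := G \ SimpleGraph.fromEdgeSet {s(v, u)} with hG'
  have hadj : ∀ x y, G'.Adj x y ↔ G.Adj x y ∧ s(x, y) ≠ s(v, u) := by
    intro x y
    rw [hG', SimpleGraph.sdiff_adj, SimpleGraph.fromEdgeSet_adj]
    constructor
    · rintro ⟨h1, h2⟩
      exact ⟨h1, fun h3 => h2 ⟨h3, h1.ne⟩⟩
    · rintro ⟨h1, h2⟩
      exact ⟨h1, fun h3 => h2 h3.1⟩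
  have hbr : ¬ G'.Reachable v u := by
    have := (SimpleGraph.isAcyclic_iff_forall_adj_isBridge.1 hG.isAcyclic) hvu
    rw [SimpleGraph.isBridge_iff] at this
    exact this
  let A : Set V := {x | G'.Reachable v x}
  have hcov : ∀ y, G'.Reachable v y ∨ G'.Reachable u y := by
    intro y
    have hr := hG.connected.preconnected v y
    rw [SimpleGraph.reachable_iff_reflTransGen] at hr
    induction hr with
    | refl => exact Or.inl (SimpleGraph.Reachable.refl _)
    | tail _ hbc ih =>
      rename_i b c _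
      by_cases he : s(b, c) = s(v, u)
      · rw [Sym2.eq_iff] at he
        rcases he with ⟨_, h⟩ | ⟨_, h⟩
        · right; rw [h]
        · left; rw [h]
      · have := ((hadj b c).2 ⟨hbc, he⟩).reachable
        exact ih.imp (fun h => h.trans this) (fun h => h.trans this)
  have hvA : v ∈ A := SimpleGraph.Reachable.refl _
  have huA : u ∈ Aᶜ := hbr
  have hB : ∀ y ∈ Aᶜ, G'.Reachable u y := fun y hy => (hcov y).resolve_left hy
  have hcross : ∀ x ∈ A, ∀ y ∈ Aᶜ, G.Adj x y ↔ (x = v ∧ y = u) := by
    intro x hx y hy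
    constructor
    · intro h
      by_cases he : s(x, y) = s(v, u)
      · rw [Sym2.eq_iff] at he
        rcases he with h1 | ⟨h1, h2⟩
        · exact h1
        · exfalso
          apply huA
          rw [← h1]
          exact hx
      · exact absurd (hx.trans ((hadj x y).2 ⟨h, he⟩).reachable) hy
    · rintro ⟨rfl, rfl⟩
      exact hvu
  have hconA : (G.induce A).Connected := by
    haveI : Nonempty A := ⟨⟨v, hvA⟩⟩
    have key : ∀ x (hx : x ∈ A), (G.induce A).Reachable ⟨v, hvA⟩ ⟨x, hx⟩ := by
      intro x hx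
      have hr : G'.Reachable v x := hx
      rw [SimpleGraph.reachable_iff_reflTransGen] at hr
      induction hr with
      | refl => exact SimpleGraph.Reachable.refl _
      | tail hab hbc ih =>
        rename_i b c
        have hb : b ∈ A := (SimpleGraph.reachable_iff_reflTransGen _ _).2 hab
        refine (ih hb).trans (SimpleGraph.Adj.reachable ?_)
        exact ((hadj b c).1 hbc).1
    refine ⟨?_⟩
    rintro ⟨x, hx⟩ ⟨y, hy⟩
    exact (key x hx).symm.trans (key y hy)
  have hconB : (G.induce Aᶜ).Connected := by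
    haveI : Nonempty (Aᶜ : Set V) := ⟨⟨u, huA⟩⟩
    have key : ∀ x (hx : x ∈ Aᶜ), (G.induce Aᶜ).Reachable ⟨u, huA⟩ ⟨x, hx⟩ := by
      intro x hx
      have hr : G'.Reachable u x := hB x hx
      rw [SimpleGraph.reachable_iff_reflTransGen] at hr
      induction hr with
      | refl => exact SimpleGraph.Reachable.refl _
      | tail hab hbc ih =>
        rename_i b c
        have hub : G'.Reachable u b := (SimpleGraph.reachable_iff_reflTransGen _ _).2 hab
        have hb : b ∈ Aᶜ := by
          intro hbA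
          exact hbr ((hbA : G'.Reachable v b).trans hub.symm)
        refine (ih hb).trans (SimpleGraph.Adj.reachable ?_)
        exact ((hadj b c).1 hbc).1
    refine ⟨?_⟩
    rintro ⟨x, hx⟩ ⟨y, hy⟩
    exact (key x hx).symm.trans (key y hy)
  refine ⟨A, hvA, huA, ⟨hconA, ?_⟩, ⟨hconB, ?_⟩, hcross⟩
  · exact hG.isAcyclic.induce A
  · exact hG.isAcyclic.induce Aᶜ

/-- The tree `G` is obtained by gluing along the edge. -/
noncomputable def splitIso {V : Type*} {G : SimpleGraph V} (A : Set V) {v u : V} (hv : v ∈ A)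
    (hu : u ∈ Aᶜ) (hcross : ∀ x ∈ A, ∀ y ∈ Aᶜ, G.Adj x y ↔ (x = v ∧ y = u)) :
    glue (G.induce A) ⟨v, hv⟩ (G.induce Aᶜ) ⟨u, hu⟩ ≃g G := by
  classical
  refine ⟨Equiv.Set.sumCompl A, ?_⟩
  rintro (⟨a, ha⟩ | ⟨a, ha⟩) (⟨b, hb⟩ | ⟨b, hb⟩)
  · simp
  · simp only [Equiv.Set.sumCompl_apply_inl, Equiv.Set.sumCompl_apply_inr, glue_lr,
      Subtype.mk.injEq]
    exact hcross a ha b hb
  · simp only [Equiv.Set.sumCompl_apply_inl, Equiv.Set.sumCompl_apply_inr, glue_rl,
      Subtype.mk.injEq]
    rw [SimpleGraph.adj_comm]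
    exact hcross b hb a ha
  · simp

/-- Induction on finite rooted trees. -/
theorem tree_induction {P : ∀ (V : Type) [Fintype V], SimpleGraph V → V → Prop}
    (iso : ∀ (V W : Type) [Fintype V] [Fintype W] (G : SimpleGraph V) (H : SimpleGraph W)
      (e : G ≃g H) (v : V), P V G v → P W H (e v))
    (base : P Unit ⊥ ())
    (step : ∀ (V W : Type) [Fintype V] [Fintype W] (G : SimpleGraph V) (v : V)
      (H : SimpleGraph W) (w : W), P V G v → P W H w →
      P (V ⊕ W) (glue G v H w) (Sum.inl v))
    (V : Type) [Fintype V] (G : SimpleGraph V) (hG : G.IsTree) (v : V) : P V G v := by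
  classical
  suffices h : ∀ n : ℕ, ∀ (V : Type) [Fintype V] (G : SimpleGraph V), Fintype.card V = n →
      G.IsTree → ∀ v, P V G v from h _ V G rfl hG v
  intro n
  induction n using Nat.strong_induction_on with
  | _ n ih =>
    intro V _ G hn hG v
    by_cases hs : ∃ u, G.Adj v u
    · obtain ⟨u, hu⟩ := hs
      obtain ⟨A, hvA, huA, hA, hB, hcross⟩ := split hG hu
      have hcA : Fintype.card A < n := by
        rw [← hn]
        exact Fintype.card_subtype_lt (x := u) huA
      have hcB : Fintype.card (Aᶜ : Set V) < n := by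
        rw [← hn]
        exact Fintype.card_subtype_lt (x := v) (fun h => h hvA)
      have h1 := ih _ hcA A (G.induce A) rfl hA ⟨v, hvA⟩
      have h2 := ih _ hcB (Aᶜ : Set V) (G.induce Aᶜ) rfl hB ⟨u, huA⟩
      have h3 := step _ _ _ _ _ _ h1 h2
      have h4 := iso _ _ _ _ (splitIso A hvA huA hcross) _ h3
      have h5 : (splitIso A hvA huA hcross) (Sum.inl ⟨v, hvA⟩) = v := by
        simp [splitIso]
      rw [h5] at h4
      convert h4
    · have hsub : ∀ x, x = v := by
        intro x
        by_contra hx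
        have : Nontrivial V := ⟨x, v, hx⟩
        exact hs (hG.connected.preconnected.exists_adj_of_nontrivial v)
      have e : (⊥ : SimpleGraph Unit) ≃g G := by
        refine ⟨⟨fun _ => v, fun _ => (), fun _ => rfl, fun x => (hsub x).symm⟩, ?_⟩
        intro a b
        simp only [Equiv.coe_fn_mk, SimpleGraph.irrefl, SimpleGraph.bot_adj]
      have h := iso _ _ _ _ e () base
      rw [hsub (e ())] at h
      exact h

end Q131.TreeGlue
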